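import Pool.Agent.Lib.MP_17af9c_lc.Embed

/-!
# The number of satisfying assignments from numbers of subforests
-/

namespace Pool.Agent.Forest17

open Classical
open Pool.Agent.Lib.SubForests (numSub)
open Pool.Agent.Lib.CookLevin

/-- Renaming the legs. -/
theorem LabSet_congr {R : Type*} {tok : Set R} {J J' : Type*} {N : ℕ} (σ : J ≃ J')
    {S : Set (J × Fin N)} {S' : Set (J' × Fin N)} (h : ∀ p, p ∈ S ↔ (σ p.1, p.2) ∈ S') :
    LabSet (adjP J N) (headP J N) S tok = LabSet (adjP J' N) (headP J' N) S' tok := by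
  ext z
  rw [mem_LabSet, mem_LabSet]
  refine and_congr_right fun _ => ?_
  constructor
  · rintro ⟨π, hπ, hS⟩
    refine ⟨π.trans (Equiv.prodCongr σ (Equiv.refl _)), ⟨?_, ?_⟩, ?_⟩
    · intro x y hxy
      exact ⟨congrArg σ (hπ.1 x y hxy).1, (hπ.1 x y hxy).2⟩
    · intro x hx
      exact hπ.2 x hx
    · intro x hx
      exact (h _).1 (hS x hx)
  · rintro ⟨π, hπ, hS⟩
    refine ⟨π.trans (Equiv.prodCongr σ.symm (Equiv.refl _)), ⟨?_, ?_⟩, ?_⟩
    · intro x y hxy
      exact ⟨congrArg σ.symm (hπ.1 x y hxy).1, (hπ.1 x y hxy).2⟩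
    · intro x hx
      exact hπ.2 x hx
    · intro x hx
      rw [h]
      show (σ (σ.symm (π x).1), (π x).2) ∈ S'
      rw [Equiv.apply_symm_apply]
      exact hS x hx

/-- The numbering of the legs. -/
def legEquiv (n k : ℕ) : Fin ((n + 1) * (n + 1) + k) ≃ Leg n k :=
  ((Equiv.sumCongr finProdFinEquiv (Equiv.refl _)).trans finSumFinEquiv).symm

theorem boxes_legEquiv {n k : ℕ} (B : ℕ → ℕ → Bool)
    (p : Fin ((n + 1) * (n + 1) + k) × Fin (2 * n + 4)) :
    boxes n B p.1 p.2 = true ↔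
      (legEquiv n k p.1, p.2) ∈ boxS n k (fun c => {i | B c.1 i = true}) := by
  obtain ⟨l, i⟩ := p
  obtain ⟨j, rfl⟩ := (legEquiv n k).symm.surjective l
  rw [Equiv.apply_symm_apply]
  rcases j with ⟨e, f⟩ | c
  · have h1 : ((legEquiv n k).symm (Sum.inl (e, f)) : Fin _).1 = f.1 + (n + 1) * e.1 := rfl
    have h2 : f.1 + (n + 1) * e.1 < (n + 1) * (n + 1) := by
      have h3 := e.2
      have h4 := f.2
      nlinarith
    have h5 : (f.1 + (n + 1) * e.1) / (n + 1) = e.1 := by
      rw [Nat.add_mul_div_left _ _ (Nat.succ_pos n), Nat.div_eq_of_lt f.2, Nat.zero_add]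
    show boxes n B ((legEquiv n k).symm (Sum.inl (e, f)) : Fin _).1 i.1 = true ↔ ¬ elem n e.1 i.1
    rw [h1, boxes, if_pos h2, h5]
    unfold elem
    simp
    tauto
  · have h1 : ((legEquiv n k).symm (Sum.inr c) : Fin _).1 = (n + 1) * (n + 1) + c.1 := rfl
    show boxes n B ((legEquiv n k).symm (Sum.inr c) : Fin _).1 i.1 = true ↔ B c.1 i.1 = true
    rw [h1, boxes, if_neg (by omega), Nat.add_sub_cancel_left]

theorem mixed_eq_sum (n k : ℕ) (B : ℕ → ℕ → Bool) :
    mixed n k B = ∑ i ∈ Finset.range (hubs n k - (n + 1) + 1), ∑ j ∈ Finset.range (n + 1 + 1),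
      (-1 : ℤ) ^ (i + j) * ((hubs n k - (n + 1)).choose i * (n + 1).choose j : ℕ) *
        (numSub (spider (legs n k) (len n)
          (caps n k B (hubs n k - (n + 1) - i) (n + 1 - j))) : ℤ) := by
  unfold mixed
  rw [fwdDiff_iter_eq_sum_shift]
  rw [← Finset.sum_range_reflect]
  refine Finset.sum_congr rfl fun i hi => ?_
  have hi' : i ≤ hubs n k - (n + 1) := Nat.lt_succ_iff.1 (Finset.mem_range.1 hi)
  rw [fwdDiff_iter_eq_sum_shift, ← Finset.sum_range_reflect, Finset.smul_sum]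
  refine Finset.sum_congr rfl fun j hj => ?_
  have hj' : j ≤ n + 1 := Nat.lt_succ_iff.1 (Finset.mem_range.1 hj)
  have e1 : hubs n k - (n + 1) + 1 - 1 - i = hubs n k - (n + 1) - i := by omega
  have e2 : n + 1 + 1 - 1 - j = n + 1 - j := by omega
  have e3 : hubs n k - (n + 1) - (hubs n k - (n + 1) - i) = i := by omega
  have e4 : n + 1 - (n + 1 - j) = j := by omega
  have e5 : ∀ m : ℕ, 0 + m • 1 = m := fun m => by simp
  rw [e1, e2, e3, e4, Nat.choose_symm hi', Nat.choose_symm hj', e5, e5]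
  simp only [smul_eq_mul]
  push_cast
  ring

theorem card_hubs (n k : ℕ) : Nat.card (Fin (legs n k) × Fin (len n)) = hubs n k := by
  rw [Nat.card_prod, Nat.card_eq_fintype_card, Nat.card_eq_fintype_card, Fintype.card_fin,
    Fintype.card_fin, hubs]

theorem lt_hubs (n k : ℕ) : n + 1 ≤ hubs n k := by
  unfold hubs legs len
  nlinarith [Nat.zero_le n, Nat.zero_le k]

/-- The labels. -/
def labs (n k : ℕ) : Finset ℕ :=
  Finset.Ioc (hubs n k + 1) (hubs n k + 1 + (hubs n k - (n + 1))) ∪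
    Finset.Ioc (2 * hubs n k + 1 + (hubs n k - (n + 1)) + (hubs n k + 1))
      (2 * hubs n k + 1 + (hubs n k - (n + 1)) + (hubs n k + 1) + (n + 1))

/-- The tokens. -/
def toks (n k : ℕ) : Set {x // x ∈ labs n k} :=
  {x | 2 * hubs n k + 1 + (hubs n k - (n + 1)) + (hubs n k + 1) < x.1}

theorem card_labs (n k : ℕ) : Nat.card {x // x ∈ labs n k} = hubs n k := by
  have h := lt_hubs n k
  rw [Nat.card_eq_fintype_card, Fintype.card_coe, labs, Finset.card_union_of_disjoint,
    Nat.card_Ioc, Nat.card_Ioc]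
  · omega
  · rw [Finset.disjoint_left]
    intro x h1 h2
    rw [Finset.mem_Ioc] at h1 h2
    omega

theorem ncard_toks (n k : ℕ) : (toks n k).ncard = n + 1 := by
  have h := lt_hubs n k
  have h1 : (toks n k).ncard = (Finset.Ioc (2 * hubs n k + 1 + (hubs n k - (n + 1)) +
      (hubs n k + 1)) (2 * hubs n k + 1 + (hubs n k - (n + 1)) + (hubs n k + 1) + (n + 1)) :
        Finset ℕ).card := by
    rw [← Set.ncard_coe_finset]
    rw [← Set.ncard_image_of_injective (toks n k) Subtype.val_injective]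
    congr 1
    ext x
    simp only [Set.mem_image, Subtype.exists, exists_and_right, exists_eq_right, Finset.coe_Ioc,
      Set.mem_Ioc]
    constructor
    · rintro ⟨h1, h2⟩
      have h3 : 2 * hubs n k + 1 + (hubs n k - (n + 1)) + (hubs n k + 1) < x := h2
      rw [labs, Finset.mem_union, Finset.mem_Ioc, Finset.mem_Ioc] at h1
      omega
    · rintro ⟨h1, h2⟩
      exact ⟨Finset.mem_union_right _ (Finset.mem_Ioc.2 ⟨h1, h2⟩), h1⟩
  rw [h1, Nat.card_Ioc, Nat.add_sub_cancel_left]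

/-- The mixed difference counts labelled structures. -/
theorem mixed_eq (n k : ℕ) (B : ℕ → ℕ → Bool) :
    mixed n k B = (LabSet (adjP (Leg n (k + 1)) (2 * n + 4)) (headP _ _)
      (boxS n (k + 1) fun c => {i | B c.1 i = true}) (toks n k)).ncard := by
  have hr := lt_hubs n k
  have hV : Nat.card (Option (Fin (legs n k) × Fin (len n))) = hubs n k + 1 := by
    rw [Finite.card_option, card_hubs]
  set S : Set (Fin (legs n k) × Fin (len n)) := {p | boxes n B p.1 p.2 = true} with hS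
  set C := 2 * hubs n k + 1 + (hubs n k - (n + 1)) + (2 * hubs n k + 1) + (n + 1) with hC
  have h1 : ∀ i ≤ hubs n k - (n + 1), ∀ j ≤ n + 1,
      numSub (spider (legs n k) (len n) (caps n k B (hubs n k - (n + 1) - i) (n + 1 - j))) =
      cls (Om C (spi (adjP (Fin (legs n k)) (len n)) (headP (Fin (legs n k)) (len n)))
        (cap (levS S) (2 * hubs n k + 1 + (hubs n k - (n + 1)) - i)
          (2 * hubs n k + 1 + (n + 1) - j))) := by
    intro i hi j hj
    refine spider_numSub ?_ _ rfl ?_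
    · intro l p
      unfold caps
      split_ifs <;> omega
    · rintro ⟨l, p⟩
      have e1 : 2 * hubs n k + 1 + (hubs n k - (n + 1)) - i =
        2 * hubs n k + 1 + (hubs n k - (n + 1) - i) := by omega
      have e2 : 2 * hubs n k + 1 + (n + 1) - j = 2 * hubs n k + 1 + (n + 1 - j) := by omega
      rw [e1, e2]
      by_cases hb : boxes n B l p = true
      · have h2 : (l, p) ∈ S := hb
        simp [cap, levS, caps, h2, hb]
      · have h2 : (l, p) ∉ S := hb
        simp [cap, levS, caps, h2, hb]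
  rw [mixed_eq_sum]
  rw [Finset.sum_congr rfl fun i hi => Finset.sum_congr rfl fun j hj => by
    rw [h1 i (Nat.lt_succ_iff.1 (Finset.mem_range.1 hi)) j
      (Nat.lt_succ_iff.1 (Finset.mem_range.1 hj))]]
  rw [diff_eq (Λ := hubs n k + 1) (B := hubs n k + 1) _ _ (by omega) (by omega) (by omega)
    (by omega) (by omega) (by omega)]
  rw [lab_count (by omega) (by omega) (by omega) (by omega) (by omega) (by omega)
    (by rw [card_hubs]; omega)]
  congr 2
  exact LabSet_congr (legEquiv n (k + 1)) (fun p => boxes_legEquiv B p)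

theorem count_eq (φ : CNF) (hφ : φ.Wf) :
    count φ = (SatK φ.1 fun c : Fin (φ.2.length + 1) => {i | clauseBox φ c.1 i = true}).ncard := by
  unfold count
  rw [← Nat.card_coe_set_eq]
  refine Nat.card_congr (Equiv.subtypeEquivRight fun α => ?_)
  show _ ↔ ∀ c : Fin (φ.2.length + 1), ¬ code α ⊆ {i | clauseBox φ c.1 i = true}
  constructor
  · intro h c hc
    by_cases hl : c.1 < φ.2.length
    · obtain ⟨l, hl1, hl2, hl3⟩ := h _ (List.getElem_mem hl)
      have h1 : 2 * l.1 + l.2.toNat ∈ code α := Or.inr ⟨⟨l.1, hl2⟩, by rw [hl3]⟩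
      have h2 : clauseBox φ c.1 (2 * l.1 + l.2.toNat) = true := hc h1
      rw [clauseBox, dif_pos hl, List.all_eq_true] at h2
      have h3 := h2 l hl1
      simp at h3
    · have h2 : clauseBox φ c.1 (2 * φ.1) = true := hc (Or.inl rfl)
      rw [clauseBox, dif_neg hl] at h2
      exact absurd h2 (by simp)
  · intro h c hc
    obtain ⟨i, hi, rfl⟩ := List.getElem_of_mem hc
    have h1 := h ⟨i, Nat.lt_succ_of_lt hi⟩
    rw [Set.not_subset] at h1
    obtain ⟨x, hx, hx2⟩ := h1
    have h2 : ¬ clauseBox φ i x = true := hx2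
    rw [clauseBox, dif_pos hi, List.all_eq_true] at h2
    push Not at h2
    obtain ⟨l, hl, hl2⟩ := h2
    have h3 : x = 2 * l.1 + l.2.toNat := by simpa using hl2
    have h4 := hφ _ hc l hl
    refine ⟨l, hl, h4, ?_⟩
    have h5 := Bool.toNat_le l.2
    rcases hx with hx | ⟨v, hx⟩
    · omega
    · have h6 := Bool.toNat_le (α v)
      have h7 : v = ⟨l.1, h4⟩ := Fin.ext (by show v.1 = l.1; omega)
      subst h7
      have h8 : (α ⟨l.1, h4⟩).toNat = l.2.toNat := by
        have h9 : x = 2 * l.1 + (α ⟨l.1, h4⟩).toNat := hx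
        omega
      revert h8
      cases α ⟨l.1, h4⟩ <;> cases l.2 <;> simp

theorem main_identity (φ : CNF) (hφ : φ.Wf) :
    0 < mixed φ.1 φ.2.length (fun _ _ => true) - mixed φ.1 φ.2.length (fun _ _ => false) ∧
    (count φ : ℤ) * (mixed φ.1 φ.2.length (fun _ _ => true) -
      mixed φ.1 φ.2.length (fun _ _ => false)) =
    2 ^ φ.1 * (mixed φ.1 φ.2.length (fun _ _ => true) -
      mixed φ.1 φ.2.length (clauseBox φ)) := by
  have hR : Nat.card {x // x ∈ labs φ.1 φ.2.length} =
      Nat.card (Leg φ.1 (φ.2.length + 1) × Fin (2 * φ.1 + 4)) := by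
    rw [card_labs, ← card_hubs]
    exact Nat.card_congr (Equiv.prodCongr (legEquiv φ.1 (φ.2.length + 1)) (Equiv.refl _))
  obtain ⟨E, hE, hK⟩ := spider_count (n := φ.1) (k := φ.2.length + 1) (Nat.succ_pos _) hR
    (ncard_toks φ.1 φ.2.length)
  have h1 := hK fun _ => {i | (fun _ _ => true : ℕ → ℕ → Bool) 0 i = true}
  have h2 := hK fun _ => {i | (fun _ _ => false : ℕ → ℕ → Bool) 0 i = true}
  have h3 := hK fun c => {i | clauseBox φ c.1 i = true}
  rw [← count_eq φ hφ] at h3
  have s1 : (SatK φ.1 fun _ : Fin (φ.2.length + 1) =>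
      {i | (fun _ _ => true : ℕ → ℕ → Bool) 0 i = true}).ncard = 0 := by
    rw [Set.ncard_eq_zero]
    ext α
    simp only [Set.mem_empty_iff_false, iff_false]
    intro h
    exact h 0 (fun x _ => by simp)
  have s2 : (SatK φ.1 fun _ : Fin (φ.2.length + 1) =>
      {i | (fun _ _ => false : ℕ → ℕ → Bool) 0 i = true}).ncard = 2 ^ φ.1 := by
    have h4 : (SatK φ.1 fun _ : Fin (φ.2.length + 1) =>
      {i | (fun _ _ => false : ℕ → ℕ → Bool) 0 i = true}) = Set.univ := by
      ext α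
      simp only [Set.mem_univ, iff_true]
      intro c h
      have h5 := h (Or.inl rfl : 2 * φ.1 ∈ code α)
      exact absurd h5 (by simp)
    rw [h4, Set.ncard_univ, Nat.card_eq_fintype_card]
    simp
  rw [s1] at h1
  rw [s2] at h2
  rw [mixed_eq, mixed_eq, mixed_eq]
  set a := (LabSet (adjP (Leg φ.1 (φ.2.length + 1)) (2 * φ.1 + 4)) (headP _ _) Set.univ
    (toks φ.1 φ.2.length)).ncard
  set b := (LabSet (adjP (Leg φ.1 (φ.2.length + 1)) (2 * φ.1 + 4)) (headP _ _)
    (boxS φ.1 (φ.2.length + 1) fun c => {i | clauseBox φ c.1 i = true})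
    (toks φ.1 φ.2.length)).ncard
  set t := (LabSet (adjP (Leg φ.1 (φ.2.length + 1)) (2 * φ.1 + 4)) (headP _ _)
    (boxS φ.1 (φ.2.length + 1) fun _ => {i | (fun _ _ => true : ℕ → ℕ → Bool) 0 i = true})
    (toks φ.1 φ.2.length)).ncard
  set f := (LabSet (adjP (Leg φ.1 (φ.2.length + 1)) (2 * φ.1 + 4)) (headP _ _)
    (boxS φ.1 (φ.2.length + 1) fun _ => {i | (fun _ _ => false : ℕ → ℕ → Bool) 0 i = true})
    (toks φ.1 φ.2.length)).ncard
  have e1 : (t : ℤ) - f = E * 2 ^ φ.1 := by
    have : (t : ℤ) = f + E * 2 ^ φ.1 := by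
      rw [h1] at h2
      exact_mod_cast h2
    rw [this]
    ring
  have e2 : (t : ℤ) - b = E * count φ := by
    have : (t : ℤ) = b + E * count φ := by
      rw [h1] at h3
      exact_mod_cast h3
    rw [this]
    ring
  show 0 < (t : ℤ) - f ∧ (count φ : ℤ) * ((t : ℤ) - f) = 2 ^ φ.1 * ((t : ℤ) - b)
  rw [e1, e2]
  refine ⟨by positivity, by ring⟩

end Pool.Agent.Forest17
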