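import Pool.Agent.Lib.MP_17af9c_lc.Defs

/-!
# The spiders of the reduction
-/

namespace Pool.Agent.Forest17

open Pool.Agent.Lib.SubForests Pool.Agent.Lib.CookLevin

/-- The vertices of a spider with `L` legs of `N` hubs: the centre `inl none`, the hub
`inl (some (l, i))` number `i` of the leg `l` (hub `0` is next to the centre), and the leaves
`inr ⟨(l, i), j⟩`, `j < c l i`, of the hubs. -/
abbrev SV (L N : ℕ) (c : ℕ → ℕ → ℕ) : Type :=
  Option (Fin L × Fin N) ⊕ (Σ p : Fin L × Fin N, Fin (c p.1 p.2))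

variable {L N : ℕ} {c : ℕ → ℕ → ℕ}

/-- The root of the spider. -/
def SV.root : SV L N c := .inl none

/-- The parent of a vertex. -/
def SV.parent : SV L N c → SV L N c
  | .inl none => .inl none
  | .inl (some (l, i)) =>
    if i.1 = 0 then .inl none else .inl (some (l, ⟨i.1 - 1, (Nat.sub_le _ _).trans_lt i.2⟩))
  | .inr ⟨p, _⟩ => .inl (some p)

/-- The distance to the root. -/
def SV.rank : SV L N c → ℕ
  | .inl none => 0
  | .inl (some (_, i)) => i.1 + 1
  | .inr ⟨p, _⟩ => p.2.1 + 2

theorem SV.rank_parent (v : SV L N c) (h : v ≠ SV.root) : v.parent.rank < v.rank := by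
  rcases v with (_ | ⟨l, i⟩) | ⟨⟨l, i⟩, j⟩
  · exact absurd rfl h
  · show (SV.parent (.inl (some (l, i)))).rank < i.1 + 1
    unfold SV.parent
    dsimp only
    split_ifs with h0
    · exact Nat.succ_pos _
    · show i.1 - 1 + 1 < i.1 + 1
      omega
  · exact Nat.lt_succ_self _

/-- The spider: every vertex except the root is joined to its parent. -/
def spider (L N : ℕ) (c : ℕ → ℕ → ℕ) : SimpleGraph (SV L N c) where
  Adj a b := (a ≠ SV.root ∧ b = a.parent) ∨ (b ≠ SV.root ∧ a = b.parent)
  symm := ⟨fun _ _ h => h.symm⟩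
  loopless := ⟨fun a h => by
    rcases h with ⟨h1, h2⟩ | ⟨h1, h2⟩ <;>
    · have := SV.rank_parent a h1
      rw [← h2] at this
      exact lt_irrefl _ this⟩

/-- Number of legs. -/
def legs (n k : ℕ) : ℕ := (n + 1) * (n + 1) + (k + 1)

/-- Number of hubs of a leg. -/
def len (n : ℕ) : ℕ := 2 * n + 4

/-- Number of hubs. -/
def hubs (n k : ℕ) : ℕ := legs n k * len n

/-- Which hubs are token-capable: in the legs `l < (n + 1)²` all except the hubs of the element
number `l / (n + 1)` (the hubs `2 v`, `2 v + 1` for `v < n`, the hub `2 n` for `v = n`), in the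
other legs as prescribed by `B`. -/
def boxes (n : ℕ) (B : ℕ → ℕ → Bool) (l i : ℕ) : Bool :=
  if l < (n + 1) * (n + 1) then !(decide (i / 2 = l / (n + 1)) && decide (i ≤ 2 * n))
  else B (l - (n + 1) * (n + 1)) i

/-- Numbers of leaves. -/
def caps (n k : ℕ) (B : ℕ → ℕ → Bool) (x y l i : ℕ) : ℕ :=
  (2 * hubs n k + 1 + x) + (if boxes n B l i then 2 * hubs n k + 1 + y else 0)

/-- The boxes of a formula. -/
def clauseBox (φ : CNF) (c i : ℕ) : Bool :=
  if h : c < φ.2.length then (φ.2[c]).all fun l => decide (i ≠ 2 * l.1 + l.2.toNat) else false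

/-- The mixed differences of the numbers of subforests. -/
noncomputable def mixed (n k : ℕ) (B : ℕ → ℕ → Bool) : ℤ :=
  (fwdDiff 1)^[hubs n k - (n + 1)] (fun x : ℕ => (fwdDiff 1)^[n + 1]
    (fun y : ℕ => (numSub (spider (legs n k) (len n) (caps n k B x y)) : ℤ)) 0) 0

end Pool.Agent.Forest17
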