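import Pool.Agent.Lib.MP_17af9c_lc.CodeWords

/-!
# Counting the placeable patterns
-/

namespace Pool.Agent.Lib.SubForests

open Equiv

variable {R Λ : Type*} {N n : ℕ}

/-! ### Exchanging code words -/

/-- The exchange of the two positions of the pairs where `α` and `β` differ. -/
def flipFun (α β : Fin n → Bool) (j : ℕ) : ℕ :=
  if h : j / 2 < n then
    if α ⟨j / 2, h⟩ = β ⟨j / 2, h⟩ then j else 2 * (j / 2) + (1 - j % 2)
  else j

theorem flipFun_div (α β : Fin n → Bool) (j : ℕ) : flipFun α β j / 2 = j / 2 := by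
  unfold flipFun
  split_ifs
  · rfl
  · omega
  · rfl

theorem flipFun_le (α β : Fin n → Bool) {j : ℕ} (hj : j < 2 * n + 1) :
    flipFun α β j < 2 * n + 1 := by
  unfold flipFun
  split_ifs
  · exact hj
  · omega
  · exact hj

theorem flipFun_flipFun (α β : Fin n → Bool) (j : ℕ) : flipFun α β (flipFun α β j) = j := by
  have h1 := flipFun_div α β j
  rw [flipFun]
  simp only [h1]
  unfold flipFun
  by_cases h : j / 2 < n
  · by_cases h2 : α ⟨j / 2, h⟩ = β ⟨j / 2, h⟩
    · simp [h, h2]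
    · simp only [h, h2, dif_pos, if_false]
      omega
  · simp [h]

/-- The exchange as a permutation of the path. -/
def flipPerm (α β : Fin n → Bool) : Perm (Fin (2 * n + 1)) where
  toFun j := ⟨flipFun α β j.1, flipFun_le α β j.2⟩
  invFun j := ⟨flipFun α β j.1, flipFun_le α β j.2⟩
  left_inv j := Fin.ext (flipFun_flipFun α β j.1)
  right_inv j := Fin.ext (flipFun_flipFun α β j.1)

theorem flipPerm_flipPerm (α β : Fin n → Bool) (j : Fin (2 * n + 1)) :
    flipPerm α β (flipPerm α β j) = j := (flipPerm α β).left_inv j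

theorem inWord_flip (α β : Fin n → Bool) (j : Fin (2 * n + 1)) :
    InWord β (flipPerm α β j) ↔ InWord α j := by
  have hj := j.2
  have hj' := (flipPerm α β j).2
  have h1 : (flipPerm α β j).val = flipFun α β j.val := rfl
  have h2 := flipFun_div α β j.val
  have h3 : ∀ (γ : Fin n → Bool) (i : Fin (2 * n + 1)), InWord γ i ↔
      ∀ h : i.val / 2 < n, i.val = 2 * (i.val / 2) + (γ ⟨i.val / 2, h⟩).toNat := by
    intro γ i
    constructor
    · exact fun hi h => hi.2 ⟨_, h⟩ rfl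
    · intro hi
      refine ⟨by have := i.2; omega, fun v hv => ?_⟩
      have h4 := hi (by rw [hv]; exact v.2)
      have h5 : (⟨i.val / 2, by rw [hv]; exact v.2⟩ : Fin n) = v := Fin.ext hv
      rw [h5] at h4
      omega
  rw [h3, h3, h1]
  by_cases h : j.val / 2 < n
  · have h4 : (∀ h' : flipFun α β j.val / 2 < n, flipFun α β j.val =
        2 * (flipFun α β j.val / 2) + (β ⟨flipFun α β j.val / 2, h'⟩).toNat) ↔
        flipFun α β j.val = 2 * (j.val / 2) + (β ⟨j.val / 2, h⟩).toNat := by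
      have h5 : ∀ h' : flipFun α β j.val / 2 < n,
          (⟨flipFun α β j.val / 2, h'⟩ : Fin n) = ⟨j.val / 2, h⟩ := fun h' => Fin.ext h2
      constructor
      · intro h6
        have h7 := h6 (by omega)
        rw [h5, h2] at h7
        exact h7
      · intro h6 h'
        rw [h5 h', h2]
        exact h6
    rw [h4]
    have h5 : (∀ h' : j.val / 2 < n, j.val = 2 * (j.val / 2) + (α ⟨j.val / 2, h'⟩).toNat) ↔
        j.val = 2 * (j.val / 2) + (α ⟨j.val / 2, h⟩).toNat := ⟨fun h6 => h6 h, fun h6 _ => h6⟩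
    rw [h5]
    unfold flipFun
    rw [dif_pos h]
    cases hα : α ⟨j.val / 2, h⟩ <;> cases hβ : β ⟨j.val / 2, h⟩ <;> simp <;> omega
  · constructor
    · exact fun _ h' => absurd h' h
    · intro _ h'
      exact absurd h' (by omega)

/-! ### Relabelling -/

/-- Relabelling of a pattern. -/
def relabel (σ : Perm R) (P : Pat R) : Pat R :=
  (P.1.map σ.toEmbedding, P.2.map σ.toEmbedding)

theorem relabel_adj (σ : Perm R) (P : Pat R) (x y : R) :
    (relabel σ P).1.Adj (σ x) (σ y) ↔ P.1.Adj x y :=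
  SimpleGraph.map_adj_apply (f := σ.toEmbedding)

theorem mem_relabel (σ : Perm R) (P : Pat R) (x : R) : σ x ∈ (relabel σ P).2 ↔ x ∈ P.2 :=
  Finset.mem_map' σ.toEmbedding

theorem relabel_injective (σ : Perm R) : Function.Injective (relabel σ : Pat R → Pat R) := by
  intro P Q h
  refine Prod.ext ?_ ?_
  · ext x y
    rw [← relabel_adj σ P, ← relabel_adj σ Q, h]
  · ext x
    rw [← mem_relabel σ P, ← mem_relabel σ Q, h]

theorem Fits.relabel {P : Pat R} {π : R ≃ Λ × Fin N} (h : Fits P π) (σ : Perm R) :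
    Fits (relabel σ P) (σ.symm.trans π) := by
  refine ⟨fun x y hxy => ?_, fun x hx => ?_⟩
  · have := h.1 (σ.symm x) (σ.symm y) (by
      rw [← relabel_adj σ]
      simpa using hxy)
    exact this
  · have := h.2 (σ.symm x) (by
      rw [← mem_relabel σ]
      simpa using hx)
    exact this

/-! ### Bad patterns with their paths -/

/-- A bad pattern with its path. -/
def BadX (n : ℕ) (Λ : Type*) (N : ℕ) (Tok : Finset R) (α : Fin n → Bool)
    (q : Pat R × (Fin (2 * n + 1) ↪ R)) : Prop :=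
  (∃ π : R ≃ Λ × Fin N, Fits q.1 π) ∧ q.2 0 ∈ q.1.2 ∧
    (∀ i j : Fin (2 * n + 1), i.val + 1 = j.val → q.1.1.Adj (q.2 i) (q.2 j)) ∧
    ∀ y, y ∈ Tok ↔ ∃ j, InWord α j ∧ q.2 j = y

theorem badX_pos {Tok : Finset R} {α : Fin n → Bool} {q : Pat R × (Fin (2 * n + 1) ↪ R)}
    (hN : 2 * n < N) (h : BadX n Λ N Tok α q) {π : R ≃ Λ × Fin N} (hπ : Fits q.1 π)
    (j : Fin (2 * n + 1)) :
    π (q.2 j) = ((π (q.2 0)).1, ⟨j.val, lt_of_lt_of_le j.2 hN⟩) := by
  obtain ⟨-, h0, hE, -⟩ := h
  have key : ∀ m (hm : m < 2 * n + 1), π (q.2 ⟨m, hm⟩) =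
      ((π (q.2 0)).1, ⟨m, lt_of_lt_of_le hm hN⟩) := by
    intro m
    induction m using Nat.strong_induction_on with
    | _ m ih =>
      intro hm
      rcases Nat.eq_zero_or_pos m with rfl | hpos
      · exact Prod.ext rfl (Fin.ext (hπ.2 _ h0))
      · have h1 := ih (m - 1) (by omega) (by omega)
        obtain ⟨e1, e2⟩ := hπ.1 _ _ (hE ⟨m - 1, by omega⟩ ⟨m, hm⟩ (by
          show m - 1 + 1 = m
          omega))
        rw [h1] at e1 e2
        refine Prod.ext e1.symm (Fin.ext ?_)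
        show (π (q.2 ⟨m, hm⟩)).2.val = m
        simp only at e2
        rcases e2 with e2 | e2
        · omega
        · exfalso
          have hz := ih (m - 2) (by omega) (by omega)
          have h3 : q.2 ⟨m, hm⟩ = q.2 ⟨m - 2, by omega⟩ := by
            apply π.injective
            rw [hz]
            exact Prod.ext e1.symm
              (Fin.ext (by show (π (q.2 ⟨m, hm⟩)).2.val = m - 2; omega))
          have h4 := congrArg Fin.val (q.2.injective h3)
          simp only at h4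
          omega
  exact key j.val j.2

theorem bad_of_badX {Tok : Finset R} {α : Fin n → Bool} {q : Pat R × (Fin (2 * n + 1) ↪ R)}
    (hN : 2 * n < N) (h : BadX n Λ N Tok α q) : Bad n Λ N Tok α q.1 := by
  obtain ⟨π, hπ⟩ := h.1
  have hpos := badX_pos hN h hπ
  refine ⟨π, (π (q.2 0)).1, hπ, fun y => ⟨fun hy => ?_, fun hy => ?_⟩, ⟨_, h.2.1, rfl⟩,
    fun s hs hsn => ?_⟩
  · obtain ⟨j, hj, rfl⟩ := (h.2.2.2 y).1 hy
    rw [hpos j]
    exact ⟨rfl, hj⟩
  · obtain ⟨h1, h2⟩ := hy
    refine (h.2.2.2 y).2 ⟨⟨(π y).2.val, by have := h2.1; omega⟩, h2, ?_⟩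
    apply π.injective
    rw [hpos]
    exact Prod.ext h1.symm rfl
  · refine ⟨q.2 ⟨s - 1, by omega⟩, q.2 ⟨s, by omega⟩, h.2.2.1 _ _ ?_, ?_, ?_, ?_⟩
    · show s - 1 + 1 = s
      omega
    · rw [hpos]
    · rw [hpos]
      show s - 1 + 1 = s
      omega
    · rw [hpos]

theorem badX_unique {Tok : Finset R} {α : Fin n → Bool} {P : Pat R}
    {x y : Fin (2 * n + 1) ↪ R} (hN : 2 * n < N) (hx : BadX n Λ N Tok α (P, x))
    (hy : BadX n Λ N Tok α (P, y)) : x = y := by
  obtain ⟨π, hπ⟩ := hx.1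
  have h1 := badX_pos hN hx hπ
  have h2 := badX_pos hN hy hπ
  have h3 : (π (x 0)).1 = (π (y 0)).1 := by
    have hl : InWord α (Fin.last (2 * n)) := ⟨le_rfl, fun v hv => by
      have := v.2
      simp only [Fin.val_last] at hv
      omega⟩
    obtain ⟨j, -, hj⟩ := (hy.2.2.2 _).1 ((hx.2.2.2 (x (Fin.last (2 * n)))).2 ⟨_, hl, rfl⟩)
    have h4 := h1 (Fin.last (2 * n))
    have h5 := h2 j
    simp only at hj h4 h5
    rw [hj, h4] at h5
    exact (Prod.mk.inj h5).1
  ext j
  apply π.injective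
  have h4 := h1 j
  have h5 := h2 j
  simp only at h4 h5
  rw [h4, h5, h3]

theorem exists_badX {Tok : Finset R} {α : Fin n → Bool} {P : Pat R} (hN : 2 * n < N)
    (h : Bad n Λ N Tok α P) : ∃ x, BadX n Λ N Tok α (P, x) := by
  obtain ⟨π, l, hπ, hw, ⟨x₀, hx₀, hl₀⟩, hE⟩ := h
  refine ⟨⟨fun j => π.symm (l, ⟨j.val, lt_of_lt_of_le j.2 hN⟩), fun i j hij => ?_⟩,
    ⟨π, hπ⟩, ?_, fun i j hij => ?_, fun y => ⟨fun hy => ?_, ?_⟩⟩
  · have h1 := (Prod.mk.inj (π.symm.injective hij)).2
    exact Fin.ext (Fin.mk.inj h1)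
  · have : π.symm (l, ⟨0, by omega⟩) = x₀ := by
      rw [Equiv.symm_apply_eq]
      exact Prod.ext hl₀.symm (Fin.ext (hπ.2 x₀ hx₀).symm)
    show π.symm (l, ⟨0, _⟩) ∈ P.2
    rw [this]
    exact hx₀
  · obtain ⟨x, y, hxy, h1, h2, h3⟩ := hE j.val (by omega) (by have := j.2; omega)
    have hx : π.symm (l, ⟨i.val, lt_of_lt_of_le i.2 hN⟩) = x := by
      rw [Equiv.symm_apply_eq]
      exact Prod.ext h1.symm (Fin.ext (by show i.val = (π x).2.val; omega))
    have hy : π.symm (l, ⟨j.val, lt_of_lt_of_le j.2 hN⟩) = y := by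
      rw [Equiv.symm_apply_eq]
      exact Prod.ext (h1.symm.trans (hπ.1 x y hxy).1) (Fin.ext h3.symm)
    show P.1.Adj (π.symm (l, ⟨i.val, _⟩)) (π.symm (l, ⟨j.val, _⟩))
    rw [hx, hy]
    exact hxy
  · obtain ⟨h1, h2⟩ := (hw y).1 hy
    refine ⟨⟨(π y).2.val, by have := h2.1; omega⟩, h2, ?_⟩
    show π.symm (l, ⟨(π y).2.val, _⟩) = y
    rw [Equiv.symm_apply_eq]
    exact Prod.ext h1.symm rfl
  · rintro ⟨j, hj, rfl⟩
    rw [hw]
    show (π (π.symm (l, ⟨j.val, _⟩))).1 = l ∧ InWord α (π (π.symm (l, ⟨j.val, _⟩))).2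
    rw [Equiv.apply_symm_apply]
    exact ⟨rfl, hj⟩

/-- The exchange of labels along the path. -/
noncomputable def exch (α β : Fin n → Bool) (x : Fin (2 * n + 1) ↪ R) : Perm R :=
  (flipPerm α β).viaEmbedding x

theorem exch_apply (α β : Fin n → Bool) (x : Fin (2 * n + 1) ↪ R) (j : Fin (2 * n + 1)) :
    exch α β x (x j) = x (flipPerm α β j) := Perm.viaEmbedding_apply _ _ _

theorem badX_exch {Tok : Finset R} {α β : Fin n → Bool} {q : Pat R × (Fin (2 * n + 1) ↪ R)}
    (h : BadX n Λ N Tok α q) : BadX n Λ N Tok β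
      (relabel (exch α β q.2) q.1, (flipPerm α β).toEmbedding.trans q.2) := by
  obtain ⟨⟨π, hπ⟩, h0, hE, hT⟩ := h
  have hx : ∀ j, ((flipPerm α β).toEmbedding.trans q.2) j = exch α β q.2 (q.2 j) := fun j =>
    (exch_apply α β q.2 j).symm
  refine ⟨⟨_, hπ.relabel _⟩, ?_, fun i j hij => ?_, fun y => ?_⟩
  · show ((flipPerm α β).toEmbedding.trans q.2) 0 ∈ (relabel (exch α β q.2) q.1).2
    rw [hx, mem_relabel]
    exact h0
  · show (relabel (exch α β q.2) q.1).1.Adj (((flipPerm α β).toEmbedding.trans q.2) i)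
      (((flipPerm α β).toEmbedding.trans q.2) j)
    rw [hx, hx, relabel_adj]
    exact hE i j hij
  · rw [hT]
    constructor
    · rintro ⟨j, hj, rfl⟩
      refine ⟨flipPerm α β j, (inWord_flip α β j).2 hj, ?_⟩
      show q.2 (flipPerm α β (flipPerm α β j)) = q.2 j
      rw [flipPerm_flipPerm]
    · rintro ⟨j, hj, rfl⟩
      refine ⟨flipPerm α β j, ?_, rfl⟩
      rw [← inWord_flip α β, flipPerm_flipPerm]
      exact hj

/-- The number of bad patterns does not depend on the word. -/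
theorem card_bad_le [Finite R] (Tok : Finset R) (α β : Fin n → Bool) (hN : 2 * n < N) :
    Nat.card {P : Pat R // P.2.card ≠ 1 ∧ Bad n Λ N Tok α P} ≤
      Nat.card {P : Pat R // P.2.card ≠ 1 ∧ Bad n Λ N Tok β P} := by
  choose x hx using fun P : {P : Pat R // P.2.card ≠ 1 ∧ Bad n Λ N Tok α P} =>
    exists_badX hN P.2.2
  refine Nat.card_le_card_of_injective
    (fun P => ⟨relabel (exch α β (x P)) P.1, ?_, bad_of_badX hN (badX_exch (hx P))⟩) ?_
  · rw [relabel, Finset.card_map]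
    exact P.2.1
  · intro P Q hPQ
    have h1 : relabel (exch α β (x P)) P.1 = relabel (exch α β (x Q)) Q.1 :=
      congrArg Subtype.val hPQ
    have h2 := badX_exch (β := β) (hx P)
    have h3 := badX_exch (β := β) (hx Q)
    simp only at h2 h3
    rw [h1] at h2
    have h4 := badX_unique hN h2 h3
    have h5 : x P = x Q := by
      ext j
      have := congrArg (fun e : Fin (2 * n + 1) ↪ R => e (flipPerm α β j)) h4
      simpa [Function.Embedding.trans_apply, flipPerm_flipPerm] using this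
    rw [h5] at h1
    exact Subtype.ext (relabel_injective _ h1)

/-- The placeable patterns are counted by the code words which fit into a box. -/
theorem card_placeable [Finite R] [Fintype Λ] (B : Λ → Fin N → Prop) (Tok : Finset R)
    (hN : N = 2 * n + 4) (hcard : Tok.card = n + 1)
    (ρ : Fin (n + 1) × Fin (n + 1) ↪ Λ) (hB : ∀ e i j, ¬ Hit n e.val j → B (ρ (e, i)) j) :
    Nat.card {P : Pat R // P.2.card ≠ 1 ∧ Placeable B Tok P} =
      Nat.card {P : Pat R // P.2.card ≠ 1 ∧ Loose n Λ N Tok P} +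
        Nat.card {α : Fin n → Bool // ∃ l, ∀ j, InWord α j → B l j} *
          Nat.card {P : Pat R // P.2.card ≠ 1 ∧ Bad n Λ N Tok (fun _ : Fin n => false) P} := by
  classical
  have hN' : 2 * n < N := by omega
  have key : ∀ P : Pat R, (P.2.card ≠ 1 ∧ Placeable B Tok P) ↔
      (P.2.card ≠ 1 ∧ Loose n Λ N Tok P) ∨
        ∃ α : {α : Fin n → Bool // ∃ l, ∀ j, InWord α j → B l j},
          P.2.card ≠ 1 ∧ Bad n Λ N Tok α.1 P := by
    intro P
    constructor
    · rintro ⟨h1, h2⟩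
      rcases placeable_fits hN hcard h2 with h | ⟨α, l, h3, h4⟩
      · exact Or.inl ⟨h1, h⟩
      · exact Or.inr ⟨⟨α, l, h3⟩, h1, h4⟩
    · rintro (⟨h1, h2⟩ | ⟨⟨α, l, h3⟩, h1, h4⟩)
      · exact ⟨h1, placeable_of_loose ρ hB hcard.le h2⟩
      · exact ⟨h1, placeable_of_bad h3 h4⟩
  have hE : ∀ α : Fin n → Bool, Nat.card {P : Pat R // P.2.card ≠ 1 ∧ Bad n Λ N Tok α P} =
      Nat.card {P : Pat R // P.2.card ≠ 1 ∧ Bad n Λ N Tok (fun _ : Fin n => false) P} :=
    fun α => le_antisymm (card_bad_le Tok _ _ hN') (card_bad_le Tok _ _ hN')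
  have e : {P : Pat R // P.2.card ≠ 1 ∧ Placeable B Tok P} ≃
      {P : Pat R // P.2.card ≠ 1 ∧ Loose n Λ N Tok P} ⊕
        (Σ α : {α : Fin n → Bool // ∃ l, ∀ j, InWord α j → B l j},
          {P : Pat R // P.2.card ≠ 1 ∧ Bad n Λ N Tok α.1 P}) := by
    refine Equiv.symm (Equiv.ofBijective (fun s => match s with
      | .inl P => ⟨P.1, (key P.1).2 (Or.inl P.2)⟩
      | .inr ⟨α, P⟩ => ⟨P.1, (key P.1).2 (Or.inr ⟨α, P.2⟩)⟩) ⟨?_, ?_⟩)
    · rintro (P | ⟨α, P⟩) (Q | ⟨β, Q⟩) h
      · have h0 := congrArg (fun z => z.1) h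
        have h1 : P.1 = Q.1 := h0
        rw [Subtype.ext h1]
      · have h1 : P.1 = Q.1 := congrArg Subtype.val h
        exact absurd (h1 ▸ P.2.2) (bad_not_loose hN' Q.2.2)
      · have h1 : P.1 = Q.1 := congrArg Subtype.val h
        exact absurd (h1 ▸ Q.2.2) (bad_not_loose hN' P.2.2)
      · have h1 : P.1 = Q.1 := congrArg Subtype.val h
        have h2 : α = β := Subtype.ext (bad_unique hN' P.2.2 (h1 ▸ Q.2.2))
        subst h2
        have h3 : P = Q := Subtype.ext h1
        rw [h3]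
    · rintro ⟨P, hP⟩
      rcases (key P).1 hP with h | ⟨α, h⟩
      · exact ⟨.inl ⟨P, h⟩, rfl⟩
      · exact ⟨.inr ⟨α, P, h⟩, rfl⟩
  rw [Nat.card_congr e, Nat.card_sum, Nat.card_sigma]
  congr 1
  rw [Finset.sum_congr rfl fun α _ => hE α.1, Finset.sum_const, Finset.card_univ,
    smul_eq_mul, ← Nat.card_eq_fintype_card]

/-- There are bad patterns. -/
theorem bad_pos [Fintype R] [Fintype Λ] (Tok : Finset R) (hN : N = 2 * n + 4)
    (hcard : Tok.card = n + 1) (hR : Fintype.card R = Fintype.card Λ * N)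
    (hΛ : 2 ≤ Fintype.card Λ) (α : Fin n → Bool) :
    0 < Nat.card {P : Pat R // P.2.card ≠ 1 ∧ Bad n Λ N Tok α P} := by
  classical
  have hpos : 0 < Fintype.card Λ := by omega
  obtain ⟨l⟩ := Fintype.card_pos_iff.1 hpos
  obtain ⟨π₀⟩ : Nonempty (R ≃ Λ × Fin N) := by
    rw [← Fintype.card_eq, hR, Fintype.card_prod, Fintype.card_fin]
  -- the labels on the code word
  let w : Fin (n + 1) → Fin N := fun e =>
    if h : e.val < n then ⟨2 * e.val + (α ⟨e.val, h⟩).toNat, by
      have := (α ⟨e.val, h⟩).toNat_le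
      omega⟩ else ⟨2 * n, by omega⟩
  have hw : ∀ e, (w e).val / 2 = e.val := by
    intro e
    by_cases h : e.val < n
    · have := (α ⟨e.val, h⟩).toNat_le
      simp only [w, dif_pos h]
      omega
    · have := e.2
      simp only [w, dif_neg h]
      omega
  have hw2 : ∀ j : Fin N, InWord α j ↔ ∃ e, w e = j := by
    intro j
    constructor
    · rintro ⟨h1, h2⟩
      by_cases h : j.val / 2 < n
      · refine ⟨⟨j.val / 2, by omega⟩, Fin.ext ?_⟩
        simp only [w, dif_pos h]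
        exact (h2 ⟨j.val / 2, h⟩ rfl).symm
      · refine ⟨Fin.last n, Fin.ext ?_⟩
        simp only [w, Fin.val_last, lt_irrefl, dif_neg, not_false_eq_true]
        omega
    · rintro ⟨e, rfl⟩
      by_cases h : e.val < n
      · have h3 := (α ⟨e.val, h⟩).toNat_le
        refine ⟨?_, fun v hv => ?_⟩
        · simp only [w, dif_pos h]
          omega
        · rw [hw] at hv
          obtain rfl : v = ⟨e.val, h⟩ := Fin.ext hv.symm
          simp only [w, dif_pos h]
      · refine ⟨?_, fun v hv => ?_⟩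
        · simp only [w, dif_neg h]
          exact le_rfl
        · rw [hw] at hv
          have := v.2
          omega
  have hwinj : Function.Injective w := fun a b hab => by
    have h1 := hw a
    rw [hab, hw b] at h1
    exact Fin.ext h1.symm
  let S : Finset R := Finset.univ.image fun e => π₀.symm (l, w e)
  have hS : S.card = n + 1 := by
    rw [Finset.card_image_of_injective, Finset.card_univ, Fintype.card_fin]
    intro a b hab
    exact hwinj (Prod.mk.inj (π₀.symm.injective hab)).2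
  have hmS : ∀ x, x ∈ S ↔ (π₀ x).1 = l ∧ InWord α (π₀ x).2 := by
    intro x
    simp only [S, Finset.mem_image, Finset.mem_univ, true_and]
    constructor
    · rintro ⟨e, rfl⟩
      rw [Equiv.apply_symm_apply]
      exact ⟨rfl, (hw2 _).2 ⟨e, rfl⟩⟩
    · rintro ⟨h1, h2⟩
      obtain ⟨e, he⟩ := (hw2 _).1 h2
      refine ⟨e, ?_⟩
      rw [Equiv.symm_apply_eq]
      exact Prod.ext h1.symm he
  let eTS : {x // x ∈ Tok} ≃ {x // x ∈ S} := Fintype.equivOfCardEq (by
    rw [Fintype.card_coe, Fintype.card_coe, hcard, hS])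
  let σ : Perm R := eTS.extendSubtype
  have hσ : ∀ x, x ∈ Tok ↔ σ x ∈ S := fun x =>
    ⟨fun hx => eTS.extendSubtype_mem x hx, fun hx => by
      by_contra hcon
      exact eTS.extendSubtype_not_mem x hcon hx⟩
  let π : R ≃ Λ × Fin N := σ.trans π₀
  let P : Pat R := ((legGraph Λ N).comap π, Finset.univ.filter fun x => (π x).2.val = 0)
  have hPA : P.2.card = Fintype.card Λ := by
    have h0 : 0 < N := by omega
    rw [← Finset.card_univ]
    refine Finset.card_bij (fun x _ => (π x).1) (fun _ _ => Finset.mem_univ _) ?_ ?_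
    · intro a ha b hb hab
      simp only [P, Finset.mem_filter, Finset.mem_univ, true_and] at ha hb
      exact π.injective (Prod.ext hab (Fin.ext (ha.trans hb.symm)))
    · intro m _
      refine ⟨π.symm (m, ⟨0, h0⟩), ?_, ?_⟩
      · simp only [P, Finset.mem_filter, Finset.mem_univ, true_and, Equiv.apply_symm_apply]
      · rw [Equiv.apply_symm_apply]
  refine Nat.card_pos_iff.2 ⟨⟨⟨P, by omega, π, l, ⟨fun x y h => h, fun x hx => ?_⟩,
    fun x => ?_, ?_, fun s hs hsn => ?_⟩⟩, inferInstance⟩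
  · simpa [P] using hx
  · rw [hσ, hmS]
    rfl
  · refine ⟨π.symm (l, ⟨0, by omega⟩), ?_, ?_⟩
    · simp only [P, Finset.mem_filter, Finset.mem_univ, true_and, Equiv.apply_symm_apply]
    · rw [Equiv.apply_symm_apply]
  · refine ⟨π.symm (l, ⟨s - 1, by omega⟩), π.symm (l, ⟨s, by omega⟩), ?_, ?_, ?_, ?_⟩
    · show (legGraph Λ N).Adj (π (π.symm _)) (π (π.symm _))
      rw [Equiv.apply_symm_apply, Equiv.apply_symm_apply]
      exact ⟨rfl, Or.inl (by show s - 1 + 1 = s; omega)⟩
    · rw [Equiv.apply_symm_apply]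
    · rw [Equiv.apply_symm_apply]
      show s - 1 + 1 = s
      omega
    · rw [Equiv.apply_symm_apply]

end Pool.Agent.Lib.SubForests
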