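import Mathlib

/-!
# Code words: placements of patterns on legs with boxes

Patterns `(g, A)` on a finite set `R` of labels are placed on a union of legs (paths with `2 n + 4`
positions) such that `A` goes to the first positions and the tokens go to prescribed positions.
-/

namespace Pool.Agent.Lib.SubForests

open Equiv

variable {R Λ : Type*} {N n : ℕ}

/-- The union of the legs. -/
def legGraph (Λ : Type*) (N : ℕ) : SimpleGraph (Λ × Fin N) where
  Adj p q := p.1 = q.1 ∧ (p.2.val + 1 = q.2.val ∨ q.2.val + 1 = p.2.val)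
  symm := ⟨fun _ _ h => ⟨h.1.symm, h.2.symm⟩⟩
  loopless := ⟨fun p h => by
    have := h.2
    omega⟩

/-- Patterns: a graph on the labels and a set of labels. -/
abbrev Pat (R : Type*) : Type _ := SimpleGraph R × Finset R

/-- The placement respects the pattern (tokens are ignored). -/
def Fits (P : Pat R) (π : R ≃ Λ × Fin N) : Prop :=
  (∀ x y, P.1.Adj x y → (legGraph Λ N).Adj (π x) (π y)) ∧ ∀ x ∈ P.2, (π x).2.val = 0

/-- There is a placement which puts the tokens into the boxes. -/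
def Placeable (B : Λ → Fin N → Prop) (Tok : Finset R) (P : Pat R) : Prop :=
  ∃ π : R ≃ Λ × Fin N, Fits P π ∧ ∀ x ∈ Tok, B (π x).1 (π x).2

/-- The position `j` belongs to the element `e`: the elements are `{2 e, 2 e + 1}`, `e < n`, and
`{2 n}`. -/
def Hit (n e : ℕ) {N : ℕ} (j : Fin N) : Prop := j.val / 2 = e ∧ j.val ≤ 2 * n

/-- The positions of the code word. -/
def InWord (α : Fin n → Bool) {N : ℕ} (j : Fin N) : Prop :=
  j.val ≤ 2 * n ∧ ∀ v : Fin n, j.val / 2 = v.val → j.val = 2 * v.val + (α v).toNat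

/-- Some placement avoids in every leg some element by tokens. -/
def Loose (n : ℕ) (Λ : Type*) (N : ℕ) (Tok : Finset R) (P : Pat R) : Prop :=
  ∃ π : R ≃ Λ × Fin N, Fits P π ∧ ∀ x ∈ Tok, ∃ e ≤ n, ∀ y ∈ Tok, (π y).1 = (π x).1 →
    ¬ Hit n e (π y).2

theorem Fits.perm {P : Pat R} {π : R ≃ Λ × Fin N} (h : Fits P π) (σ : Perm Λ) :
    Fits P (π.trans (Equiv.prodCongr σ (Equiv.refl _))) := by
  refine ⟨fun x y hxy => ?_, fun x hx => h.2 x hx⟩
  have := h.1 x y hxy
  exact ⟨congrArg σ this.1, this.2⟩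

theorem placeable_of_loose [Fintype Λ] {B : Λ → Fin N → Prop} {Tok : Finset R} {P : Pat R}
    (ρ : Fin (n + 1) × Fin (n + 1) ↪ Λ) (hB : ∀ e i j, ¬ Hit n e.val j → B (ρ (e, i)) j)
    (hcard : Tok.card ≤ n + 1) (h : Loose n Λ N Tok P) : Placeable B Tok P := by
  classical
  obtain ⟨π, hπ, hE⟩ := h
  have hE' : ∀ l : Λ, ∃ e : Fin (n + 1), ∀ y ∈ Tok, (π y).1 = l → ¬ Hit n e.val (π y).2 := by
    intro l
    by_cases hl : ∃ x ∈ Tok, (π x).1 = l
    · obtain ⟨x, hx, rfl⟩ := hl
      obtain ⟨e, he, h⟩ := hE x hx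
      exact ⟨⟨e, by omega⟩, h⟩
    · exact ⟨0, fun y hy h => absurd ⟨y, hy, h⟩ hl⟩
  choose E hE' using hE'
  let T : Finset Λ := Tok.image fun x => (π x).1
  have hT : T.card ≤ n + 1 := Finset.card_image_le.trans hcard
  let f : {l // l ∈ T} → Λ := fun l => ρ (E l.1, Fin.castLE hT (T.equivFin l))
  have hf : Function.Injective f := by
    intro a b hab
    have h1 := ρ.injective hab
    have h2 := (Prod.mk.inj h1).2
    exact T.equivFin.injective (Fin.castLE_injective hT h2)
  let e : {l // l ∈ T} ≃ {l // l ∈ Set.range f} := Equiv.ofInjective f hf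
  let σ : Perm Λ := e.extendSubtype
  have hσ : ∀ l (hl : l ∈ T), σ l = f ⟨l, hl⟩ := fun l hl =>
    e.extendSubtype_apply_of_mem l hl
  refine ⟨π.trans (Equiv.prodCongr σ (Equiv.refl _)), hπ.perm σ, fun x hx => ?_⟩
  have hxT : (π x).1 ∈ T := Finset.mem_image_of_mem _ hx
  show B (σ (π x).1) (π x).2
  rw [hσ _ hxT]
  exact hB _ _ _ (hE' (π x).1 x hx rfl)

/-- The tokens lie exactly on the code word in the leg `l`. -/
def OnWord (Tok : Finset R) (π : R ≃ Λ × Fin N) (l : Λ) (α : Fin n → Bool) : Prop :=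
  ∀ x, x ∈ Tok ↔ (π x).1 = l ∧ InWord α (π x).2

/-- Either every leg avoids an element, or the tokens form a code word. -/
theorem dichotomy {Tok : Finset R} (hcard : Tok.card = n + 1) (π : R ≃ Λ × Fin N) :
    (∀ x ∈ Tok, ∃ e ≤ n, ∀ y ∈ Tok, (π y).1 = (π x).1 → ¬ Hit n e (π y).2) ∨
      ∃ l, ∃ α : Fin n → Bool, OnWord Tok π l α := by
  classical
  by_contra hcon
  push Not at hcon
  obtain ⟨⟨x₀, hx₀, h⟩, hno⟩ := hcon
  have h' : ∀ e : Fin (n + 1), ∃ y ∈ Tok, (π y).1 = (π x₀).1 ∧ Hit n e.val (π y).2 :=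
    fun e => h e.val (by omega)
  choose y hy hl hhit using h'
  have hinj : Function.Injective y := fun a b hab => by
    have h1 := (hhit a).1
    rw [hab, (hhit b).1] at h1
    exact Fin.ext h1.symm
  have himg : Finset.univ.image y = Tok := by
    refine Finset.eq_of_subset_of_card_le (fun z hz => ?_) ?_
    · obtain ⟨e, _, rfl⟩ := Finset.mem_image.1 hz
      exact hy e
    · rw [Finset.card_image_of_injective _ hinj, Finset.card_univ, Fintype.card_fin, hcard]
  let α : Fin n → Bool := fun v => decide ((π (y v.castSucc)).2.val = 2 * v.val + 1)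
  have hα : ∀ v : Fin n, (π (y v.castSucc)).2.val = 2 * v.val + (α v).toNat := by
    intro v
    have h1 := (hhit v.castSucc).1
    simp only [Fin.val_castSucc] at h1
    by_cases h2 : (π (y v.castSucc)).2.val = 2 * v.val + 1
    · have : α v = true := decide_eq_true h2
      rw [this]
      exact h2
    · have : α v = false := decide_eq_false h2
      rw [this]
      simp only [Bool.toNat_false]
      omega
  have hn : (π (y (Fin.last n))).2.val = 2 * n := by
    have h1 := (hhit (Fin.last n)).1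
    have h2 := (hhit (Fin.last n)).2
    simp only [Fin.val_last] at h1
    omega
  refine hno (π x₀).1 α fun x => ⟨fun hx => ?_, fun hx => ?_⟩
  · rw [← himg] at hx
    obtain ⟨e, _, rfl⟩ := Finset.mem_image.1 hx
    refine ⟨hl e, (hhit e).2, fun v hv => ?_⟩
    rw [(hhit e).1] at hv
    have : e = v.castSucc := Fin.ext hv
    rw [this]
    exact hα v
  · obtain ⟨h1, h2, h3⟩ := hx
    have h4 : ∃ e, π (y e) = π x := by
      rcases Nat.lt_or_ge ((π x).2.val / 2) n with h5 | h5
      · refine ⟨Fin.castSucc ⟨(π x).2.val / 2, h5⟩, Prod.ext ?_ (Fin.ext ?_)⟩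
        · rw [hl, h1]
        · exact (hα _).trans (h3 ⟨(π x).2.val / 2, h5⟩ rfl).symm
      · refine ⟨Fin.last n, Prod.ext ?_ (Fin.ext ?_)⟩
        · rw [hl, h1]
        · rw [hn]
          omega
    obtain ⟨e, he⟩ := h4
    rw [← π.injective he]
    exact hy e

/-- The reversal of the positions `≥ s`. -/
def revPos (s N : ℕ) (j : Fin N) : Fin N :=
  if h : s ≤ j.val then ⟨N - 1 + s - j.val, by have := j.2; omega⟩ else j

theorem revPos_val (s : ℕ) (j : Fin N) :
    (revPos s N j).val = if s ≤ j.val then N - 1 + s - j.val else j.val := by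
  unfold revPos
  split_ifs <;> rfl

theorem revPos_revPos (s : ℕ) (j : Fin N) : revPos s N (revPos s N j) = j := by
  apply Fin.ext
  rw [revPos_val, revPos_val]
  have := j.2
  split_ifs <;> omega

/-- The reversal of the end of one leg. -/
def revLeg [DecidableEq Λ] (l : Λ) (s N : ℕ) : Perm (Λ × Fin N) where
  toFun p := if p.1 = l then (p.1, revPos s N p.2) else p
  invFun p := if p.1 = l then (p.1, revPos s N p.2) else p
  left_inv p := by
    obtain ⟨q, j⟩ := p
    by_cases h : q = l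
    · subst h
      simp [revPos_revPos]
    · simp [h]
  right_inv p := by
    obtain ⟨q, j⟩ := p
    by_cases h : q = l
    · subst h
      simp [revPos_revPos]
    · simp [h]

theorem revLeg_fst [DecidableEq Λ] (l : Λ) (s N : ℕ) (p : Λ × Fin N) :
    (revLeg l s N p).1 = p.1 := by
  show (if p.1 = l then (p.1, revPos s N p.2) else p).1 = p.1
  split_ifs <;> rfl

theorem revLeg_snd [DecidableEq Λ] (l : Λ) (s N : ℕ) (p : Λ × Fin N) :
    (revLeg l s N p).2 = if p.1 = l then revPos s N p.2 else p.2 := by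
  show (if p.1 = l then (p.1, revPos s N p.2) else p).2 = _
  split_ifs <;> rfl

/-- Reversal of the end of a leg whose connection to the beginning is missing. -/
theorem Fits.rev [DecidableEq Λ] {P : Pat R} {π : R ≃ Λ × Fin N} (h : Fits P π) (l : Λ) (s : ℕ)
    (h0 : s = 0 → ∀ x ∈ P.2, (π x).1 ≠ l)
    (h1 : ∀ x y, P.1.Adj x y → (π x).1 = l → (π x).2.val + 1 = s → (π y).2.val ≠ s) :
    Fits P (π.trans (revLeg l s N)) := by
  have hb : ∀ x y, P.1.Adj x y → (π x).1 = l → (π x).2.val + 1 = (π y).2.val →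
      (π y).2.val ≠ s := fun x y hxy hx h2 h3 => h1 x y hxy hx (by omega) h3
  refine ⟨fun x y hxy => ?_, fun x hx => ?_⟩
  · have h2 := h.1 x y hxy
    have h3 := hb x y hxy
    have h4 := hb y x hxy.symm
    obtain ⟨e1, e2⟩ := h2
    refine ⟨?_, ?_⟩
    · simp only [Equiv.trans_apply, revLeg_fst]
      exact e1
    · simp only [Equiv.trans_apply, revLeg_snd, ← e1]
      by_cases hx : (π x).1 = l
      · simp only [hx, if_true, revPos_val]
        have h5 := h3 hx
        have h6 := h4 (e1 ▸ hx)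
        have := (π x).2.2
        have := (π y).2.2
        split_ifs <;> omega
      · simp only [hx, if_false]
        exact e2
  · have h2 := h.2 x hx
    simp only [Equiv.trans_apply, revLeg_snd]
    by_cases hl : (π x).1 = l
    · have hs : s ≠ 0 := fun hs => h0 hs x hx hl
      rw [if_pos hl, revPos_val, if_neg (by omega)]
      exact h2
    · rw [if_neg hl]
      exact h2

/-- The pattern contains the whole path from the head of the leg to the position `2 n`, and the
tokens form a code word on this path. -/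
def Bad (n : ℕ) (Λ : Type*) (N : ℕ) (Tok : Finset R) (α : Fin n → Bool) (P : Pat R) : Prop :=
  ∃ (π : R ≃ Λ × Fin N) (l : Λ), Fits P π ∧ OnWord Tok π l α ∧
    (∃ x ∈ P.2, (π x).1 = l) ∧
    ∀ s, 0 < s → s ≤ 2 * n → ∃ x y, P.1.Adj x y ∧ (π x).1 = l ∧ (π x).2.val + 1 = s ∧
      (π y).2.val = s

/-- A code word placement is loose or bad. -/
theorem loose_or_bad {Tok : Finset R} {P : Pat R} {π : R ≃ Λ × Fin N} {l : Λ}
    {α : Fin n → Bool} (hN : N = 2 * n + 4) (h : Fits P π) (hw : OnWord Tok π l α)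
    (hbad : ¬ ((∃ x ∈ P.2, (π x).1 = l) ∧
      ∀ s, 0 < s → s ≤ 2 * n → ∃ x y, P.1.Adj x y ∧ (π x).1 = l ∧ (π x).2.val + 1 = s ∧
        (π y).2.val = s)) : Loose n Λ N Tok P := by
  classical
  obtain ⟨s, hs, h0, h1⟩ : ∃ s ≤ 2 * n, (s = 0 → ∀ x ∈ P.2, (π x).1 ≠ l) ∧
      (∀ x y, P.1.Adj x y → (π x).1 = l → (π x).2.val + 1 = s → (π y).2.val ≠ s) := by
    by_cases hA : ∃ x ∈ P.2, (π x).1 = l
    · have : ¬ ∀ s, 0 < s → s ≤ 2 * n → ∃ x y, P.1.Adj x y ∧ (π x).1 = l ∧
          (π x).2.val + 1 = s ∧ (π y).2.val = s := fun h => hbad ⟨hA, h⟩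
      push Not at this
      obtain ⟨s, hs0, hs, h⟩ := this
      exact ⟨s, hs, fun h => by omega, h⟩
    · push Not at hA
      exact ⟨0, by omega, fun _ => hA, fun x y _ _ h => by omega⟩
  refine ⟨π.trans (revLeg l s N), h.rev l s h0 h1, fun x hx => ⟨(s + 1) / 2, by omega, ?_⟩⟩
  intro y hy _ hhit
  obtain ⟨h2, h3, _⟩ := (hw y).1 hy
  rw [Equiv.trans_apply, Hit, revLeg_snd, if_pos h2, revPos_val] at hhit
  split_ifs at hhit <;> omega

theorem placeable_fits {B : Λ → Fin N → Prop} {Tok : Finset R} {P : Pat R}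
    (hN : N = 2 * n + 4) (hcard : Tok.card = n + 1) (h : Placeable B Tok P) :
    Loose n Λ N Tok P ∨ ∃ (α : Fin n → Bool) (l : Λ), (∀ j, InWord α j → B l j) ∧
      Bad n Λ N Tok α P := by
  obtain ⟨π, hπ, hB⟩ := h
  rcases dichotomy hcard π with h | ⟨l, α, hw⟩
  · exact Or.inl ⟨π, hπ, h⟩
  · by_cases hbad : (∃ x ∈ P.2, (π x).1 = l) ∧
      ∀ s, 0 < s → s ≤ 2 * n → ∃ x y, P.1.Adj x y ∧ (π x).1 = l ∧ (π x).2.val + 1 = s ∧
        (π y).2.val = s
    · refine Or.inr ⟨α, l, fun j hj => ?_, π, l, hπ, hw, hbad.1, hbad.2⟩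
      have h1 := (hw (π.symm (l, j))).2 (by simpa using hj)
      have h2 := hB _ h1
      simpa using h2
    · exact Or.inl (loose_or_bad hN hπ hw hbad)

theorem placeable_of_bad [DecidableEq Λ] {B : Λ → Fin N → Prop} {Tok : Finset R} {P : Pat R}
    {α : Fin n → Bool} {l' : Λ} (hB : ∀ j, InWord α j → B l' j) (h : Bad n Λ N Tok α P) :
    Placeable B Tok P := by
  obtain ⟨π, l, hπ, hw, -, -⟩ := h
  refine ⟨π.trans (Equiv.prodCongr (Equiv.swap l l') (Equiv.refl _)), hπ.perm _, fun x hx => ?_⟩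
  obtain ⟨h1, h2⟩ := (hw x).1 hx
  show B (Equiv.swap l l' (π x).1) (π x).2
  rw [h1, Equiv.swap_apply_left]
  exact hB _ h2

/-- Every placement maps the path of a bad pattern to the beginning of a leg. -/
theorem bad_rigid {P : Pat R} {π π' : R ≃ Λ × Fin N} {l : Λ} (hN : 2 * n < N) (h : Fits P π)
    (h' : Fits P π') (hA : ∃ x ∈ P.2, (π x).1 = l)
    (hE : ∀ s, 0 < s → s ≤ 2 * n → ∃ x y, P.1.Adj x y ∧ (π x).1 = l ∧ (π x).2.val + 1 = s ∧
        (π y).2.val = s) :
    ∃ l', ∀ j : Fin N, j.val ≤ 2 * n → π' (π.symm (l, j)) = (l', j) := by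
  obtain ⟨x₀, hx₀, hl₀⟩ := hA
  have e0 : π x₀ = (l, ⟨0, by omega⟩) := Prod.ext hl₀ (Fin.ext (h.2 x₀ hx₀))
  refine ⟨(π' x₀).1, ?_⟩
  have key : ∀ m (hm : m < N), m ≤ 2 * n → π' (π.symm (l, ⟨m, hm⟩)) = ((π' x₀).1, ⟨m, hm⟩) := by
    intro m
    induction m using Nat.strong_induction_on with
    | _ m ih =>
      intro hm hmn
      rcases Nat.eq_zero_or_pos m with rfl | hpos
      · rw [← e0, Equiv.symm_apply_apply]
        exact Prod.ext rfl (Fin.ext (h'.2 x₀ hx₀))
      · obtain ⟨x, y, hxy, h1, h2, h3⟩ := hE m hpos hmn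
        have hx : x = π.symm (l, ⟨m - 1, by omega⟩) := by
          rw [Equiv.eq_symm_apply]
          exact Prod.ext h1 (Fin.ext (by show (π x).2.val = m - 1; omega))
        have hy : y = π.symm (l, ⟨m, hm⟩) := by
          rw [Equiv.eq_symm_apply]
          exact Prod.ext ((h.1 x y hxy).1.symm.trans h1) (Fin.ext h3)
        have hx' := ih (m - 1) (by omega) (by omega) (by omega)
        rw [← hx] at hx'
        rw [← hy]
        obtain ⟨e1, e2⟩ := h'.1 x y hxy
        rw [hx'] at e1 e2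
        refine Prod.ext e1.symm (Fin.ext ?_)
        show (π' y).2.val = m
        simp only at e2
        rcases e2 with e2 | e2
        · omega
        · exfalso
          have hz := ih (m - 2) (by omega) (by omega) (by omega)
          have : y = π.symm (l, ⟨m - 2, by omega⟩) := by
            apply π'.injective
            rw [hz]
            exact Prod.ext e1.symm (Fin.ext (by show (π' y).2.val = m - 2; omega))
          have := congrArg (fun p : Λ × Fin N => p.2.val)
            (π.symm.injective (hy.symm.trans this))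
          simp only at this
          omega
  exact fun j hj => key j.val j.2 hj

/-- A bad pattern has its code word in every placement. -/
theorem bad_onWord {Tok : Finset R} {P : Pat R} {α : Fin n → Bool} (hN : 2 * n < N)
    (h : Bad n Λ N Tok α P) {π' : R ≃ Λ × Fin N} (h' : Fits P π') :
    ∃ l', OnWord Tok π' l' α := by
  obtain ⟨π, l, hπ, hw, hA, hE⟩ := h
  obtain ⟨l', hl'⟩ := bad_rigid hN hπ h' hA hE
  refine ⟨l', fun x => ⟨fun hx => ?_, fun hx => ?_⟩⟩
  · obtain ⟨h1, h2⟩ := (hw x).1 hx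
    have h3 := hl' (π x).2 h2.1
    rw [← h1, Prod.mk.eta, Equiv.symm_apply_apply] at h3
    rw [h3]
    exact ⟨rfl, h2⟩
  · obtain ⟨h1, h2⟩ := hx
    have h3 := hl' (π' x).2 h2.1
    have h4 : π.symm (l, (π' x).2) = x := π'.injective (h3.trans (Prod.ext h1.symm rfl))
    rw [hw, ← h4, Equiv.apply_symm_apply]
    exact ⟨rfl, h2⟩

theorem inWord_inj {α β : Fin n → Bool} (hN : 2 * n < N)
    (h : ∀ j : Fin N, InWord α j ↔ InWord β j) : α = β := by
  funext v
  have hlt : 2 * v.val + (α v).toNat < N := by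
    have := v.2
    have := (α v).toNat_le
    omega
  have h1 : InWord α (⟨2 * v.val + (α v).toNat, hlt⟩ : Fin N) := by
    have := v.2
    have := (α v).toNat_le
    refine ⟨by show 2 * v.val + (α v).toNat ≤ 2 * n; omega, fun w hw => ?_⟩
    obtain rfl : v = w := Fin.ext (by simp only at hw; omega)
    rfl
  have h2 := ((h _).1 h1).2 v (by
    show (2 * v.val + (α v).toNat) / 2 = v.val
    have := (α v).toNat_le
    omega)
  simp only at h2
  cases hα : α v <;> cases hβ : β v <;> simp_all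

theorem bad_unique {Tok : Finset R} {P : Pat R} {α β : Fin n → Bool} (hN : 2 * n < N)
    (h : Bad n Λ N Tok α P) (h' : Bad n Λ N Tok β P) : α = β := by
  obtain ⟨π', l', hπ', hw', -, -⟩ := h'
  obtain ⟨l, hw⟩ := bad_onWord hN h hπ'
  have hl : l = l' := by
    have h1 : InWord α (⟨2 * n, hN⟩ : Fin N) :=
      ⟨le_rfl, fun v hv => by
        have := v.2
        simp only at hv
        omega⟩
    have h2 := (hw (π'.symm (l, ⟨2 * n, hN⟩))).2 (by simpa using h1)
    have h3 := ((hw' _).1 h2).1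
    simpa using h3
  subst hl
  refine inWord_inj hN fun j => ?_
  have h1 := hw (π'.symm (l, j))
  have h2 := hw' (π'.symm (l, j))
  simp only [Equiv.apply_symm_apply, true_and] at h1 h2
  exact h1.symm.trans h2

theorem bad_not_loose {Tok : Finset R} {P : Pat R} {α : Fin n → Bool} (hN : 2 * n < N)
    (h : Bad n Λ N Tok α P) : ¬ Loose n Λ N Tok P := by
  rintro ⟨π', hπ', hl⟩
  obtain ⟨l, hw⟩ := bad_onWord hN h hπ'
  have h1 : InWord α (⟨2 * n, hN⟩ : Fin N) :=
    ⟨le_rfl, fun v hv => by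
      have := v.2
      simp only at hv
      omega⟩
  have h2 := (hw (π'.symm (l, ⟨2 * n, hN⟩))).2 (by simpa using h1)
  obtain ⟨e, he, h3⟩ := hl _ h2
  rcases Nat.lt_or_ge e n with h4 | h4
  · have hlt : 2 * e + (α ⟨e, h4⟩).toNat < N := by
      have := (α ⟨e, h4⟩).toNat_le
      omega
    have h5 : InWord α (⟨2 * e + (α ⟨e, h4⟩).toNat, hlt⟩ : Fin N) := by
      have := (α ⟨e, h4⟩).toNat_le
      refine ⟨by show 2 * e + (α ⟨e, h4⟩).toNat ≤ 2 * n; omega, fun w hw => ?_⟩
      obtain rfl : (⟨e, h4⟩ : Fin n) = w := Fin.ext (by simp only at hw ⊢; omega)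
      rfl
    have h6 := (hw (π'.symm (l, ⟨2 * e + (α ⟨e, h4⟩).toNat, hlt⟩))).2 (by simpa using h5)
    refine h3 _ h6 (by simp) ?_
    rw [Equiv.apply_symm_apply]
    have := (α ⟨e, h4⟩).toNat_le
    exact ⟨by show (2 * e + (α ⟨e, h4⟩).toNat) / 2 = e; omega, h5.1⟩
  · refine h3 _ h2 rfl ?_
    rw [Equiv.apply_symm_apply]
    exact ⟨by show 2 * n / 2 = e; omega, le_rfl⟩

end Pool.Agent.Lib.SubForests
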