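import Pool.Agent.Lib.MP_17af9c_lc.Defs

/-!
# Codes of graphs and trees given by a parent function
-/

namespace Pool.Agent.Lib.SubForests

open Pool.Agent.Lib.PolyTime

/-- The number of classes of spanning subgraphs is an isomorphism invariant. -/
theorem numSub_congr {V W : Type*} {G : SimpleGraph V} {H : SimpleGraph W} (e : G ≃g H) :
    numSub G = numSub H := by
  let f : {A : SimpleGraph V // A ≤ G} ≃ {B : SimpleGraph W // B ≤ H} :=
    { toFun := fun A => ⟨A.1.comap e.symm, fun x y hxy => by
        have := A.2 hxy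
        rwa [e.symm.map_adj_iff] at this⟩
      invFun := fun B => ⟨B.1.comap e, fun x y hxy => by
        have := B.2 hxy
        rwa [e.map_adj_iff] at this⟩
      left_inv := fun A => by
        apply Subtype.ext
        ext x y
        simp
      right_inv := fun B => by
        apply Subtype.ext
        ext x y
        simp }
  have iso : ∀ A : {A : SimpleGraph V // A ≤ G}, Nonempty (A.1 ≃g (f A).1) := fun A =>
    ⟨⟨e.toEquiv, fun {a b} => by
      show A.1.Adj (e.symm (e a)) (e.symm (e b)) ↔ A.1.Adj a b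
      simp⟩⟩
  refine Nat.card_congr (Quotient.congr f fun A B => ?_)
  obtain ⟨i⟩ := iso A
  obtain ⟨j⟩ := iso B
  constructor
  · rintro ⟨k⟩
    exact ⟨i.symm.trans (k.trans j)⟩
  · rintro ⟨k⟩
    exact ⟨i.trans (k.trans j.symm)⟩

/-- The code of a graph with named vertices. -/
def mkCode {V : Type*} (name : V → NBin) (vs : List V) (es : List (V × V)) : Code :=
  (vs.map name, es.map fun e => (name e.1, name e.2))

/-- The graph of a code of `G` is isomorphic to `G`. -/
theorem mkCode_iso {V : Type*} (G : SimpleGraph V) (name : V → NBin)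
    (hname : Function.Injective name) (vs : List V) (hvs : ∀ v, v ∈ vs) (es : List (V × V))
    (hes : ∀ a b, G.Adj a b ↔ a ≠ b ∧ ((a, b) ∈ es ∨ (b, a) ∈ es)) :
    Nonempty (G ≃g (mkCode name vs es).graph) := by
  let f : V → {v : NBin // v ∈ (mkCode name vs es).1} := fun v =>
    ⟨name v, List.mem_map_of_mem (hvs v)⟩
  have hf : Function.Bijective f := by
    constructor
    · intro a b h
      exact hname (congrArg Subtype.val h)
    · rintro ⟨w, hw⟩
      obtain ⟨v, _, rfl⟩ := List.mem_map.1 hw
      exact ⟨v, rfl⟩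
  have hmem : ∀ a b, (name a, name b) ∈ (mkCode name vs es).2 ↔ (a, b) ∈ es := by
    intro a b
    simp only [mkCode, List.mem_map, Prod.mk.injEq]
    constructor
    · rintro ⟨e, he, h1, h2⟩
      rw [← hname h1, ← hname h2]
      exact he
    · intro h
      exact ⟨(a, b), h, rfl, rfl⟩
  refine ⟨⟨Equiv.ofBijective f hf, fun {a b} => ?_⟩⟩
  show (mkCode name vs es).graph.Adj (f a) (f b) ↔ G.Adj a b
  rw [Code.graph, SimpleGraph.fromRel_adj, hes]
  show (f a ≠ f b ∧ ((name a, name b) ∈ _ ∨ (name b, name a) ∈ _)) ↔ _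
  rw [hf.1.ne_iff, hmem, hmem]

/-- A graph in which every vertex except the root is joined to its parent, which has a smaller
rank, and which has no other edges is a tree. -/
theorem isTree_of_parent {V : Type*} [Finite V] (G : SimpleGraph V) (r : V) (p : V → V)
    (rk : V → ℕ) (h1 : ∀ v, v ≠ r → rk (p v) < rk v)
    (h2 : ∀ a b, G.Adj a b ↔ (a ≠ r ∧ b = p a) ∨ (b ≠ r ∧ a = p b)) : G.IsTree := by
  rw [SimpleGraph.isTree_iff_connected_and_card]
  have hreach : ∀ (n : ℕ) (v : V), rk v ≤ n → G.Reachable v r := by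
    intro n
    induction n with
    | zero =>
      intro v hv
      by_cases h : v = r
      · rw [h]
      · have := h1 v h
        omega
    | succ n ih =>
      intro v hv
      by_cases h : v = r
      · rw [h]
      · have hlt := h1 v h
        exact ((h2 v (p v)).2 (Or.inl ⟨h, rfl⟩)).reachable.trans (ih (p v) (by omega))
  have : Nonempty V := ⟨r⟩
  refine ⟨⟨fun a b => (hreach _ a le_rfl).trans (hreach _ b le_rfl).symm⟩, ?_⟩
  let φ : {v : V // v ≠ r} → G.edgeSet := fun v =>
    ⟨s(v.1, p v.1), (SimpleGraph.mem_edgeSet G).2 ((h2 _ _).2 (Or.inl ⟨v.2, rfl⟩))⟩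
  have hφ : Function.Bijective φ := by
    constructor
    · rintro ⟨a, ha⟩ ⟨b, hb⟩ h
      have h := congrArg Subtype.val h
      rcases Sym2.eq_iff.1 h with h | h
      · exact Subtype.ext h.1
      · have e1 := h1 a ha
        have e2 := h1 b hb
        have e3 : p a = b := h.2
        have e4 : a = p b := h.1
        rw [e3] at e1
        rw [← e4] at e2
        omega
    · rintro ⟨e, he⟩
      induction e using Sym2.ind with
      | _ a b =>
        rcases (h2 a b).1 he with ⟨h, rfl⟩ | ⟨h, rfl⟩
        · exact ⟨⟨a, h⟩, rfl⟩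
        · exact ⟨⟨b, h⟩, Subtype.ext Sym2.eq_swap⟩
  rw [← Nat.card_congr (Equiv.ofBijective φ hφ)]
  classical
  cases nonempty_fintype V
  rw [Nat.card_eq_fintype_card, Nat.card_eq_fintype_card, Fintype.card_subtype_compl,
    Fintype.card_subtype_eq]
  have : 0 < Fintype.card V := Fintype.card_pos_iff.2 ⟨r⟩
  omega

/-- A code given by a parent function. -/
theorem isTree_mkCode {V : Type*} [Finite V] (G : SimpleGraph V) (r : V) (p : V → V)
    (rk : V → ℕ) (h1 : ∀ v, v ≠ r → rk (p v) < rk v)
    (h2 : ∀ a b, G.Adj a b ↔ (a ≠ r ∧ b = p a) ∨ (b ≠ r ∧ a = p b)) (name : V → NBin)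
    (hname : Function.Injective name) (vs : List V) (hvs : ∀ v, v ∈ vs) (hn : vs.Nodup)
    (ws : List V) (hws : ∀ v, v ∈ ws ↔ v ≠ r) (hnw : ws.Nodup) :
    (mkCode name vs (ws.map fun v => (v, p v))).IsTree ∧
      Nonempty (G ≃g (mkCode name vs (ws.map fun v => (v, p v))).graph) := by
  have hes : ∀ a b, (a, b) ∈ ws.map (fun v => (v, p v)) ↔ a ≠ r ∧ b = p a := by
    intro a b
    simp only [List.mem_map, Prod.mk.injEq]
    constructor
    · rintro ⟨v, hv, rfl, rfl⟩
      exact ⟨(hws v).1 hv, rfl⟩
    · rintro ⟨h, rfl⟩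
      exact ⟨a, (hws a).2 h, rfl, rfl⟩
  obtain ⟨e⟩ := mkCode_iso G name hname vs hvs (ws.map fun v => (v, p v)) (fun a b => by
    rw [hes, hes, h2]
    constructor
    · intro h
      refine ⟨?_, h⟩
      rintro rfl
      rcases h with ⟨h, h'⟩ | ⟨h, h'⟩
      · have := h1 a h
        rw [← h'] at this
        omega
      · have := h1 a h
        rw [← h'] at this
        omega
    · exact fun h => h.2)
  refine ⟨⟨hn.map hname, ?_, ?_, ?_, ?_⟩, ⟨e⟩⟩
  · intro x hx
    simp only [mkCode, List.map_map, List.mem_map, Function.comp_apply] at hx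
    obtain ⟨v, _, rfl⟩ := hx
    exact ⟨List.mem_map_of_mem (hvs v), List.mem_map_of_mem (hvs (p v))⟩
  · intro x hx
    simp only [mkCode, List.map_map, List.mem_map, Function.comp_apply] at hx
    obtain ⟨v, hv, rfl⟩ := hx
    intro h
    have := h1 v ((hws v).1 hv)
    rw [← hname h] at this
    exact lt_irrefl _ this
  · simp only [mkCode, List.map_map]
    refine (List.nodup_map_iff_inj_on hnw).2 fun a ha b hb h => ?_
    simp only [Function.comp_apply] at h
    have ha' := h1 a ((hws a).1 ha)
    have hb' := h1 b ((hws b).1 hb)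
    rcases Sym2.eq_iff.1 h with h | h
    · exact hname h.1
    · rw [hname h.2] at ha'
      rw [← hname h.1] at hb'
      omega
  · exact e.isTree_iff.1 (isTree_of_parent G r p rk h1 h2)

end Pool.Agent.Lib.SubForests
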