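import Pool.Agent.Lib.MP_17af9c_lc.Defs
import Pool.Agent.Lib.PolyTime.IntBin
import Pool.Agent.Lib.PolyTime.Bridge

/-!
# From polynomial-time functions on typed data to reductions between counting problems
-/

set_option linter.unusedSimpArgs false

namespace Pool.Agent.Lib.SubForests

open Turing Function Pool.Agent.Lib.PolyTime

/-! ### Words of trees -/

/-- One step of the parser (reading the word from right to left). -/
def parseStep (b : Bool) (st : List T) : List T :=
  bif b then T.node (st.headD .nil) (st.tail.headD .nil) :: st.tail.tail else .nil :: st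

/-- The parser of preorder words. -/
def parseT (w : List Bool) : T := (w.foldr parseStep []).headD .nil

theorem foldr_parseStep (t : T) (st : List T) :
    (t.word false true).foldr parseStep st = t :: st := by
  induction t generalizing st with
  | nil => rfl
  | node l r ihl ihr =>
    rw [T.word, List.foldr_cons, List.foldr_append, ihr, ihl]
    rfl

theorem parseT_word (t : T) : parseT (t.word false true) = t := by
  rw [parseT, foldr_parseStep]
  rfl

theorem parseT_wd {α : Type*} [TEnc α] (a : α) : parseT (wd false true a) = enc a :=
  parseT_word _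

/-- One step of the printer. -/
def printStep (s : List T × List Bool) : List T × List Bool :=
  (match s.1 with
    | [] => []
    | .nil :: r => r
    | .node a b :: r => a :: b :: r,
  match s.1 with
    | [] => s.2
    | .nil :: _ => false :: s.2
    | .node _ _ :: _ => true :: s.2)

theorem printStep_iterate (t : T) (r : List T) (out : List Bool) :
    printStep^[2 * t.size + 1] (t :: r, out) = (r, (t.word false true).reverse ++ out) := by
  induction t generalizing r out with
  | nil => rfl
  | node a b iha ihb =>
    have e : 2 * (T.node a b).size + 1 = (2 * b.size + 1) + (2 * a.size + 1) + 1 := by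
      simp; ring
    rw [e, iterate_succ_apply, iterate_add_apply]
    have e2 : printStep (T.node a b :: r, out) = (a :: b :: r, true :: out) := rfl
    rw [e2, iha, ihb]
    simp [T.word]

section

variable {α β γ δ : Type*} [TEnc α] [TEnc β] [TEnc γ] [TEnc δ]

theorem polyF_parseStep {b : α → Bool} {st : α → List T} (hb : PolyF b) (hst : PolyF st) :
    PolyF (fun x => parseStep (b x) (st x)) :=
  hb.cond ((hst.headD (PolyF.const _)).node (hst.tail.headD (PolyF.const _)) |>.cons
    hst.tail.tail) ((PolyF.const _).cons hst)

theorem sz_parseStep_le (b : Bool) (st : List T) : sz (parseStep b st) ≤ sz st + 2 := by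
  cases b
  · simp only [parseStep, cond_false, sz_cons, sz_T, T.size_nil]
    omega
  · rcases st with _ | ⟨t, _ | ⟨u, st⟩⟩
    · simp [parseStep]
    · simp [parseStep]
      omega
    · simp [parseStep]
      omega

theorem polyF_parseT {w : α → List Bool} (hw : PolyF w) : PolyF (fun x => parseT (w x)) :=
  (PolyF.foldr_add (i := fun _ => ([] : List T)) (f := fun _ b c => parseStep b c) hw
    (PolyF.const _) (polyF_parseStep PolyF.snd'.fst PolyF.snd'.snd) (fun _ => 2) (PBd.const 2)
    fun _ c b _ => sz_parseStep_le b c).headD (PolyF.const _)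

theorem polyF_printStep : PolyF printStep := by
  refine PolyF.pair ?_ ?_
  · refine PolyF.listCases (l := fun s : List T × List Bool => s.1) (g := fun _ => [])
      (h := fun q : (List T × List Bool) × T × List T => match q.2.1 with
        | .nil => q.2.2
        | .node a b => a :: b :: q.2.2) PolyF.fst' (PolyF.const _) ?_ ?_ ?_
    · exact PolyF.treeCases (t := fun q : (List T × List Bool) × T × List T => q.2.1)
        (g := fun q => q.2.2) (h := fun r => r.2.1 :: r.2.2 :: r.1.2.2) PolyF.snd'.fst
        PolyF.snd'.snd (PolyF.snd'.fst.cons (PolyF.snd'.snd.cons PolyF.fst'.snd.snd))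
        (fun x hx => by rw [hx]) (fun x a b hx => by rw [hx])
    · intro x hx; rw [hx]
    · intro x b t hx; rw [hx]; cases b <;> rfl
  · refine PolyF.listCases (l := fun s : List T × List Bool => s.1) (g := fun s => s.2)
      (h := fun q : (List T × List Bool) × T × List T => match q.2.1 with
        | .nil => false :: q.1.2
        | .node _ _ => true :: q.1.2) PolyF.fst' PolyF.snd' ?_ ?_ ?_
    · exact PolyF.treeCases (t := fun q : (List T × List Bool) × T × List T => q.2.1)
        (g := fun q => false :: q.1.2) (h := fun r => true :: r.1.1.2) PolyF.snd'.fst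
        ((PolyF.const _).cons PolyF.fst'.snd) ((PolyF.const _).cons PolyF.fst'.fst.snd)
        (fun x hx => by rw [hx]) (fun x a b hx => by rw [hx])
    · intro x hx; rw [hx]
    · intro x b t hx; rw [hx]; cases b <;> rfl

theorem sz_printStep (s : List T × List Bool) :
    sz (printStep s).1 ≤ sz s.1 ∧ (printStep s).2.length ≤ s.2.length + 1 := by
  obtain ⟨st, out⟩ := s
  rcases st with _ | ⟨_ | ⟨a, b⟩, st⟩
  · simp [printStep]
  · simp [printStep]
  · simp [printStep]
    omega

/-- Printing of the word of a tree. -/
theorem polyF_wd {f : α → β} (hf : PolyF f) : PolyF (fun x => wd false true (f x)) := by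
  have hn : PolyF (fun x => 2 * sz (f x) + 1) := ((PolyF.const 2).natMul hf.szFun).succ
  have hb : ∀ (i : ℕ) (s : List T × List Bool), sz (printStep^[i] s).1 ≤ sz s.1 ∧
      (printStep^[i] s).2.length ≤ s.2.length + i := by
    intro i
    induction i with
    | zero => intro s; simp
    | succ i ih =>
      intro s
      rw [iterate_succ_apply']
      have h1 := ih s
      have h2 := sz_printStep (printStep^[i] s)
      omega
  have h1 : PolyF (fun x => (printStep^[2 * sz (f x) + 1] ([enc (f x)], ([] : List Bool)))) := by
    refine PolyF.natIterate (f := fun _ c => printStep c) hn (polyF_printStep.comp PolyF.snd')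
      (hf.enc_fun.singleton.pair (PolyF.const _)) ?_
    have hB : PBd (fun x : α => 2 + sz (f x) + 2 * (2 * sz (f x) + 1)) :=
      ((PBd.const 2).add hf.pbd).add ((PBd.const 2).mul hn.pbdNat)
    refine hB.imp fun B hB x i hi => le_trans ?_ (hB x)
    have h2 := hb i ([enc (f x)], [])
    rw [sz_prod]
    have h3 := sz_bits_le (printStep^[i] ([enc (f x)], ([] : List Bool))).2
    have h4 : sz [enc (f x)] = 1 + sz (f x) := rfl
    simp only [List.length_nil] at h2
    show 1 + sz (printStep^[i] ([enc (f x)], ([] : List Bool))).1 +
      sz (printStep^[i] ([enc (f x)], ([] : List Bool))).2 ≤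
        2 + sz (f x) + 2 * (2 * sz (f x) + 1)
    omega
  refine h1.snd.reverse.congr fun x => ?_
  have h2 : 2 * sz (f x) + 1 = 2 * (enc (f x)).size + 1 := rfl
  rw [h2, printStep_iterate]
  simp [wd]

/-! ### Words of tuples -/

/-- Splitting a word at the separators. -/
def splitStep (b : Option Bool) (c : List (List Bool)) : List (List Bool) :=
  match b with
  | none => [] :: c
  | some b => (b :: c.headD []) :: c.tail

/-- The list of bit strings of a word. -/
def splitW (w : List (Option Bool)) : List (List Bool) := w.foldr splitStep []

theorem splitW_tupleWord (l : List (List Bool)) : splitW (tupleWord l) = l := by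
  induction l with
  | nil => rfl
  | cons w l ih =>
    have e : tupleWord (w :: l) = w.map some ++ none :: tupleWord l := by
      simp [tupleWord]
    have key : ∀ (u : List Bool) (c : List Bool) (d : List (List Bool)),
        (u.map some).foldr splitStep (c :: d) = (u ++ c) :: d := by
      intro u
      induction u with
      | nil => intro c d; rfl
      | cons b u ihu =>
        intro c d
        rw [List.map_cons, List.foldr_cons, ihu]
        rfl
    rw [e, splitW, List.foldr_append, List.foldr_cons]
    have : (tupleWord l).foldr splitStep [] = l := ih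
    rw [this]
    show (w.map some).foldr splitStep ([] :: l) = w :: l
    rw [key, List.append_nil]

theorem polyF_splitW {w : α → List (Option Bool)} (hw : PolyF w) :
    PolyF (fun x => splitW (w x)) := by
  refine PolyF.foldr_add (i := fun _ => ([] : List (List Bool)))
    (f := fun _ b c => splitStep b c) hw (PolyF.const _) ?_ (fun _ => 3) (PBd.const 3) ?_
  · refine PolyF.optionCases (o := fun p : α × Option Bool × List (List Bool) => p.2.1)
      (g := fun p => [] :: p.2.2)
      (h := fun q => (q.2 :: q.1.2.2.headD []) :: q.1.2.2.tail) PolyF.snd'.fst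
      ((PolyF.const _).cons PolyF.snd'.snd)
      ((PolyF.snd'.cons (PolyF.fst'.snd.snd.headD (PolyF.const _))).cons PolyF.fst'.snd.snd.tail)
      ?_ ?_
    · intro x hx; rw [hx]; rfl
    · intro x b hx; rw [hx]; rfl
  · intro x c b _
    match b with
    | none => simp [splitStep]; omega
    | some b =>
      have := sz_bool_le b
      rcases c with _ | ⟨u, c⟩
      · simp [splitStep]; omega
      · simp [splitStep]; omega

theorem polyF_tupleWord {l : α → List (List Bool)} (hl : PolyF l) :
    PolyF (fun x => tupleWord (l x)) :=
  hl.flatMap (β := List Bool) (γ := Option Bool) (h := fun _ w => w.map some ++ [none])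
    ((PolyF.snd'.map (h := fun _ b => some b) PolyF.snd'.some).append (PolyF.const _))

end

/-! ### Reductions -/

/-- The encoding `ea` of `α` by bit strings can be decoded in polynomial time. -/
def GoodWord {α : Type} [TEnc α] (ea : α → List Bool) : Prop :=
  PolyF ea ∧ ∃ D : List Bool → T, PolyF D ∧ ∀ a, D (ea a) = enc a

theorem goodWord_id : GoodWord (fun w : List Bool => w) :=
  ⟨PolyF.id, fun w => enc w, PolyF.id.enc_fun, fun _ => rfl⟩

theorem goodWord_wd {α : Type} [TEnc α] : GoodWord (fun a : α => wd false true a) :=
  ⟨polyF_wd PolyF.id, parseT, polyF_parseT PolyF.id, fun a => parseT_wd a⟩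

/-- Machines for functions on words which can be decoded. -/
theorem tm2_of_decode {α β : Type} {I O : Type} [Finite I] [TEnc I] [Finite O] [TEnc O] [TInj O]
    [TEnc α] [TInj α] {ea : α → List I} {eb : β → List O} {f : α → β} {D : List I → T}
    (hD : PolyF D)
    (hDa : ∀ a, D (ea a) = enc a) (hf : PolyF (fun a => eb (f a))) :
    Nonempty (TM2ComputableInPolyTime ea eb f) := by
  classical
  have hex : ∀ w : {w : List I // ∃ a, w = ea a}, ∃ a : α, w.1 = ea a := fun w => w.2
  choose c hc using hex
  have h1 : PolyF c := (hD.restrict (fun w => ∃ a, w = ea a)).of_enc (fun x => x) (fun _ => rfl)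
    fun w => by rw [enc_T, hc w, hDa]
  have inj : ∀ a b : α, ea a = ea b → enc a = enc b := fun a b h => by
    rw [← hDa, ← hDa, h]
  have h2 : PolyF (fun w : {w : List I // ∃ a, w = ea a} => eb (f (c w))) := hf.comp h1
  let i : α → {w : List I // ∃ a, w = ea a} := fun a => ⟨ea a, a, rfl⟩
  have h3 : ∀ a, c (i a) = a := fun a => TInj.inj (inj _ _ (hc (i a)).symm)
  exact h2.tm2' i (fun _ => rfl) fun a => by rw [h3]

theorem ttRed_of_polyF {α β : Type} [TEnc α] [TInj α] [TEnc β] {ea : α → List Bool} {f : α → ℕ}
    {eb : β → List Bool} {g : β → ℕ} (ha : GoodWord ea) (hb : GoodWord eb)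
    (q : α → List β) (h : α × List NBin → NBin) (hq : PolyF q) (hh : PolyF h)
    (hf : ∀ x, f x = h (x, (q x).map g)) : TTRed ea f eb g := by
  obtain ⟨ha1, D, hD, hDa⟩ := ha
  refine ⟨q, h, ?_, ?_, hf⟩
  · exact tm2_of_decode hD hDa (polyF_tupleWord (hq.map (h := fun _ b => eb b)
      (hb.1.comp PolyF.snd')))
  · have hD2 : PolyF (fun w : List (Option Bool) =>
        T.node (D ((splitW w).headD [])) (enc (splitW w).tail)) :=
      (hD.comp ((polyF_splitW PolyF.id).headD (PolyF.const _))).node
        (polyF_splitW PolyF.id).tail.enc_fun
    refine tm2_of_decode (α := α × List NBin) (f := h) hD2 (fun p => ?_) ?_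
    · show T.node (D ((splitW (tupleWord (ea p.1 :: p.2.map Nat.bits))).headD []))
        (enc (splitW (tupleWord (ea p.1 :: p.2.map Nat.bits))).tail) = enc p
      rw [splitW_tupleWord]
      show T.node (D (ea p.1)) (enc (p.2.map Nat.bits)) = T.node (enc p.1) (enc p.2)
      rw [hDa]
      congr 1
      obtain ⟨x, l⟩ := p
      induction l with
      | nil => rfl
      | cons n l ih => exact congrArg (T.node (enc (Nat.bits n))) ih
    · exact hh.of_enc (fun x => x) (fun _ => rfl) fun _ => rfl

end Pool.Agent.Lib.SubForests
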