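import Pool.Agent.Lib.MP_17af9c_lc.Post
import Pool.Agent.Lib.MP_17af9c_lc.Trans

/-!
# Counting functions on bit strings
-/

set_option linter.unusedSimpArgs false

namespace Pool.Agent.Lib.MP17af9c

open Turing Polynomial Pool.Agent.Lib.PolyTime Pool.Agent.Lib.SubForests Pool.Agent.Lib.CookLevin

theorem splitW_pairWord (a : List Bool × List Bool) :
    splitW (pairWord a ++ [none]) = [a.1, a.2] := by
  have : pairWord a ++ [none] = tupleWord [a.1, a.2] := by
    simp [pairWord, tupleWord]
  rw [this, splitW_tupleWord]

/-- Functions which count accepted bit strings of length `p x` are in the class #P. -/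
theorem sharpP_of_sharpF {f : List Bool → ℕ} (hf : SharpF f) : SharpP f := by
  obtain ⟨p, R, hp, hR, h⟩ := hf
  obtain ⟨B, hB⟩ := hp.pbdNat
  have hP : ∀ x : List Bool, p x ≤ (B.comp (2 * X)).eval x.length := fun x => by
    refine (hB x).trans ((peval_mono B (sz_bits_le x)).trans_eq ?_)
    rw [eval_comp]
    simp
  have hV : PolyF (fun u : List Bool × List Bool =>
      R (u.1, u.2.take (p u.1)) && isZ (u.2.drop (p u.1))) :=
    (hR.comp (PolyF.fst'.pair ((hp.comp PolyF.fst').take PolyF.snd'))).and
      ((hp.comp PolyF.fst').drop PolyF.snd').isZ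
  refine ⟨B.comp (2 * X), fun u => R (u.1, u.2.take (p u.1)) && isZ (u.2.drop (p u.1)), ?_,
    fun x => ?_⟩
  · have hs : PolyF (fun u : List (Option Bool) => splitW (u ++ [none])) :=
      polyF_splitW (PolyF.id.append (PolyF.const _))
    have h1 : PolyF (fun u : List (Option Bool) =>
        ((splitW (u ++ [none])).headD [], (splitW (u ++ [none])).tail.headD [])) :=
      (hs.headD (PolyF.const _)).pair (hs.tail.headD (PolyF.const _))
    refine PolyF.tm2_bool (hV.comp h1) fun a => ?_
    rw [splitW_pairWord]
    rfl
  · rw [h, ← sumB_pad (hP x) (fun w => R (x, w)), ← card_eq_sumB]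

/-! ### Decoding of graphs -/

/-- The list of trees of a tree. -/
def listT : T → List T
  | .nil => []
  | .node a b => a :: listT b

theorem enc_listT (t : T) : enc (listT t) = t := by
  induction t with
  | nil => rfl
  | node a b _ ih => exact congrArg (T.node a) ih

/-- The number given by a tree. -/
def natT (t : T) : ℕ := (listT t).length

theorem natT_enc (n : ℕ) : natT (enc n) = n := by
  show (listT (T.unary n)).length = n
  induction n with
  | zero => rfl
  | succ n ih => exact congrArg (· + 1) ih

theorem listT_enc {β : Type*} [TEnc β] (l : List β) : listT (enc l) = l.map enc := by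
  induction l with
  | nil => rfl
  | cons a l ih => exact congrArg (List.cons (enc a)) ih

/-- The number of vertices and the list of edges of a tree. -/
def decX (t : T) : ℕ × List (ℕ × ℕ) :=
  (natT t.left, (listT t.right).map fun e => (natT e.left, natT e.right))

theorem decX_enc (x : ℕ × List (ℕ × ℕ)) : decX (enc x) = x := by
  obtain ⟨n, l⟩ := x
  show (natT (enc n), (listT (enc l)).map fun e => (natT e.left, natT e.right)) = (n, l)
  rw [natT_enc, listT_enc, List.map_map]
  congr 1
  conv_rhs => rw [← List.map_id l]
  refine List.map_congr_left fun e _ => ?_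
  show (natT (enc e.1), natT (enc e.2)) = e
  rw [natT_enc, natT_enc]

section

variable {α : Type*} [TEnc α]

theorem polyF_listT {f : α → T} (hf : PolyF f) : PolyF (fun x => listT (f x)) :=
  hf.of_enc (fun x => x) (fun _ => rfl) fun _ => enc_listT _

theorem polyF_natT {f : α → T} (hf : PolyF f) : PolyF (fun x => natT (f x)) :=
  (polyF_listT hf).length

theorem polyF_decX {f : α → T} (hf : PolyF f) : PolyF (fun x => decX (f x)) := by
  have hl : PolyF (fun x => (f x).left) := PolyF.left.comp hf
  have hr : PolyF (fun x => (f x).right) := PolyF.right.comp hf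
  refine (polyF_natT hl).pair ((polyF_listT hr).map (h := fun _ e => (natT e.left, natT e.right)) ?_)
  exact (polyF_natT (PolyF.left.comp PolyF.snd')).pair (polyF_natT (PolyF.right.comp PolyF.snd'))

end

/-- A function of graphs which is computed in polynomial time from one value of a counting function
is reducible to a function in the class #P. -/
theorem exists_ttRed {α : Type} [TEnc α] [TInj α] {ea : α → List Bool} (ha : GoodWord ea)
    {f : α → ℕ} {u : α → ℕ × List (ℕ × ℕ)} (hu : PolyF u) {G : ℕ × List (ℕ × ℕ) → ℕ}
    {h : (ℕ × List (ℕ × ℕ)) × NBin → NBin} (hG : SharpF G) (hh : PolyF h)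
    (hf : ∀ x, f x = h (u x, G (u x))) :
    ∃ g : List Bool → ℕ, SharpP g ∧ TTRed ea f id g := by
  refine ⟨fun w => G (decX (parseT w)), sharpP_of_sharpF (hG.comp (polyF_decX
    (polyF_parseT PolyF.id))), ?_⟩
  refine ttRed_of_polyF ha goodWord_id (fun x => [wd false true (u x)])
    (fun p => h (u p.1, p.2.headD (0 : ℕ))) (polyF_wd hu).singleton
    (hh.comp ((hu.comp PolyF.fst').pair (PolyF.snd'.headD (PolyF.const _)))) fun x => ?_
  show f x = h (u x, G (decX (parseT (wd false true (u x)))))
  rw [parseT_wd, decX_enc]
  exact hf x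

end Pool.Agent.Lib.MP17af9c
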