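import Mathlib

/-!
# Graphs up to isomorphism and their coloured cores

`pend A v` is the set of neighbours of `v` whose only neighbour is `v`. A vertex is big if it has
more than `Λ` such neighbours. The core of `A` is obtained by cutting off the pendant neighbours of
big vertices; the colour of a big vertex is the number of its pendant neighbours. Two graphs on a
finite vertex set are isomorphic if and only if their coloured cores are.
-/

namespace Pool.Agent.Forest17

open Classical

section fibers

variable {ι κ : Type*}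

/-- A permutation matching two functions with fibers of the same size. -/
theorem exists_perm_option [Finite ι] (a b : ι → Option κ)
    (h : ∀ c, Nat.card {i // a i = some c} = Nat.card {i // b i = some c}) :
    ∃ e : ι ≃ ι, ∀ i, b (e i) = a i := by
  have : Fintype ι := Fintype.ofFinite ι
  have hE : ∀ c, Nonempty ({i // a i = some c} ≃ {i // b i = some c}) := fun c =>
    Finite.card_eq.1 (h c)
  -- equivalence between the supports
  let sig : ∀ f : ι → Option κ, {i // f i ≠ none} ≃ Σ c : κ, {i // f i = some c} := fun f =>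
    { toFun := fun i => ⟨(f i.1).get (Option.ne_none_iff_isSome.1 i.2), ⟨i.1, by simp⟩⟩
      invFun := fun p => ⟨p.2.1, by rw [p.2.2]; simp⟩
      left_inv := fun i => by simp
      right_inv := fun p => by
        obtain ⟨c, i, hi⟩ := p
        exact Sigma.subtype_ext (by simp [hi]) rfl }
  let e : {i // a i ≠ none} ≃ {i // b i ≠ none} :=
    (sig a).trans ((Equiv.sigmaCongrRight fun c => (hE c).some).trans (sig b).symm)
  refine ⟨e.extendSubtype, fun i => ?_⟩
  by_cases hi : a i = none
  · have := e.extendSubtype_not_mem i (by simpa using hi)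
    simp only [ne_eq, not_not] at this
    rw [this, hi]
  · rw [e.extendSubtype_apply_of_mem i hi]
    have h1 : ((sig b).symm ((Equiv.sigmaCongrRight fun c => (hE c).some) ((sig a) ⟨i, hi⟩))).1
      = ((hE _).some (((sig a) ⟨i, hi⟩).2)).1 := rfl
    show b ((sig b).symm ((Equiv.sigmaCongrRight fun c => (hE c).some) ((sig a) ⟨i, hi⟩))).1 = a i
    rw [h1, ((hE _).some (((sig a) ⟨i, hi⟩).2)).2]
    simp [sig]

end fibers

variable {W : Type*}

/-- Pendant neighbours of `v`. -/
def pend (A : SimpleGraph W) (v : W) : Set W := {y | A.Adj v y ∧ ∀ z, A.Adj y z → z = v}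

/-- Number of pendant neighbours. -/
noncomputable def pq (A : SimpleGraph W) (v : W) : ℕ := (pend A v).ncard

/-- Big vertices. -/
def big (Λ : ℕ) (A : SimpleGraph W) (v : W) : Prop := Λ < pq A v

/-- The core. -/
def core (Λ : ℕ) (A : SimpleGraph W) : SimpleGraph W where
  Adj x y := A.Adj x y ∧ ¬(y ∈ pend A x ∧ big Λ A x) ∧ ¬(x ∈ pend A y ∧ big Λ A y)
  symm := ⟨fun _ _ h => ⟨h.1.symm, h.2.2, h.2.1⟩⟩
  loopless := ⟨fun _ h => h.1.ne rfl⟩

/-- The colouring of the core. -/
noncomputable def color (Λ : ℕ) (A : SimpleGraph W) (v : W) : ℕ :=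
  if big Λ A v then pq A v else 0

/-- Isomorphism of coloured cores. -/
def CoreIso (Λ : ℕ) (A B : SimpleGraph W) : Prop :=
  ∃ e : core Λ A ≃g core Λ B, ∀ v, color Λ B (e v) = color Λ A v

/-- The big vertex of which `y` is a pendant neighbour. -/
noncomputable def par (Λ : ℕ) (A : SimpleGraph W) (y : W) : Option W :=
  if h : ∃ x, big Λ A x ∧ y ∈ pend A x then some h.choose else none

variable {Λ : ℕ} {A B : SimpleGraph W}

theorem par_eq_some {x y : W} : par Λ A y = some x ↔ big Λ A x ∧ y ∈ pend A x := by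
  unfold par
  split_ifs with h
  · constructor
    · intro hx
      simp only [Option.some.injEq] at hx
      rw [← hx]
      exact h.choose_spec
    · intro hx
      simp only [Option.some.injEq]
      have h1 := h.choose_spec.2
      exact (hx.2.2 _ h1.1.symm)
  · simp only [reduceCtorEq, false_iff]
    exact fun hx => h ⟨x, hx⟩

theorem adj_iff_core {x y : W} :
    A.Adj x y ↔ (core Λ A).Adj x y ∨ par Λ A y = some x ∨ par Λ A x = some y := by
  rw [par_eq_some, par_eq_some]
  constructor
  · intro h
    by_cases h1 : y ∈ pend A x ∧ big Λ A x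
    · exact Or.inr (Or.inl ⟨h1.2, h1.1⟩)
    · by_cases h2 : x ∈ pend A y ∧ big Λ A y
      · exact Or.inr (Or.inr ⟨h2.2, h2.1⟩)
      · exact Or.inl ⟨h, h1, h2⟩
  · rintro (h | h | h)
    · exact h.1
    · exact h.2.1
    · exact h.2.1.symm

/-- A pendant vertex has at most one pendant neighbour. -/
theorem pq_le_one {x y : W} (hy : y ∈ pend A x) : pq A y ≤ 1 := by
  unfold pq
  have : pend A y ⊆ {x} := fun z hz => hy.2 z hz.1
  calc (pend A y).ncard ≤ ({x} : Set W).ncard := Set.ncard_le_ncard this (Set.finite_singleton x)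
    _ = 1 := Set.ncard_singleton x

theorem color_par (hΛ : 1 ≤ Λ) {x y : W} (h : par Λ A y = some x) : color Λ A y = 0 := by
  rw [par_eq_some] at h
  have := pq_le_one h.2
  unfold color big
  rw [if_neg (by omega)]

theorem core_par (_ : 1 ≤ Λ) {x y z : W} (h : par Λ A y = some x) : ¬ (core Λ A).Adj y z := by
  rw [par_eq_some] at h
  rintro ⟨h1, h2, h3⟩
  have := h.2.2 z h1
  subst this
  exact h3 ⟨h.2, h.1⟩

theorem color_ne_zero (hΛ : 1 ≤ Λ) {x y : W} (h : par Λ A y = some x) : color Λ A x ≠ 0 := by
  rw [par_eq_some] at h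
  unfold color
  rw [if_pos h.1]
  have := h.1
  unfold big at this
  omega

theorem card_par [Finite W] (x : W) : Nat.card {y // par Λ A y = some x} = color Λ A x := by
  unfold color
  split_ifs with h
  · unfold pq
    rw [← Nat.card_coe_set_eq]
    refine Nat.card_congr (Equiv.subtypeEquivRight fun y => ?_)
    rw [par_eq_some]
    exact ⟨fun h => h.2, fun h' => ⟨h, h'⟩⟩
  · rw [Nat.card_eq_zero]
    left
    exact ⟨fun y => h (par_eq_some.1 y.2).1⟩

theorem pend_iso (e : A ≃g B) (v : W) : pend B (e v) = e '' pend A v := by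
  ext y
  constructor
  · rintro ⟨h1, h2⟩
    refine ⟨e.symm y, ⟨?_, fun z hz => ?_⟩, by simp⟩
    · rw [← e.map_adj_iff]
      simpa using h1
    · have := h2 (e z) (by rw [← e.map_adj_iff] at hz; simpa using hz)
      exact e.injective this
  · rintro ⟨z, ⟨h1, h2⟩, rfl⟩
    refine ⟨e.map_adj_iff.2 h1, fun w hw => ?_⟩
    have := h2 (e.symm w) (by rw [← e.map_adj_iff]; simpa using hw)
    rw [← this]
    simp

theorem pq_iso (e : A ≃g B) (v : W) : pq B (e v) = pq A v := by
  unfold pq
  rw [pend_iso]
  exact Set.ncard_image_of_injective _ e.injective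

theorem coreIso_of_iso (e : A ≃g B) : CoreIso Λ A B := by
  have hb : ∀ v, big Λ B (e v) ↔ big Λ A v := fun v => by unfold big; rw [pq_iso]
  have hp : ∀ x y, e y ∈ pend B (e x) ↔ y ∈ pend A x := fun x y => by
    rw [pend_iso, e.injective.mem_set_image]
  refine ⟨⟨e.toEquiv, ?_⟩, fun v => ?_⟩
  · intro x y
    show (B.Adj (e x) (e y) ∧ ¬(e y ∈ pend B (e x) ∧ big Λ B (e x)) ∧
      ¬(e x ∈ pend B (e y) ∧ big Λ B (e y))) ↔ (A.Adj x y ∧ ¬(y ∈ pend A x ∧ big Λ A x) ∧
      ¬(x ∈ pend A y ∧ big Λ A y))
    rw [hb, hb, hp, hp, e.map_adj_iff]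
  · show color Λ B (e v) = color Λ A v
    unfold color
    rw [if_congr (hb v) (pq_iso e v) rfl]

theorem iso_of_coreIso [Finite W] (hΛ : 1 ≤ Λ) (h : CoreIso Λ A B) : Nonempty (A ≃g B) := by
  obtain ⟨e0, he0⟩ := h
  -- the isolated uncoloured vertices of the core of `B`
  let I : Set W := {w | (∀ z, ¬ (core Λ B).Adj w z) ∧ color Λ B w = 0}
  have hIA : ∀ w, e0 w ∈ I ↔ ((∀ z, ¬ (core Λ A).Adj w z) ∧ color Λ A w = 0) := by
    intro w
    show ((∀ z, ¬ (core Λ B).Adj (e0 w) z) ∧ color Λ B (e0 w) = 0) ↔ _
    rw [he0]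
    refine and_congr_left fun _ => ⟨fun h z hz => h (e0 z) (e0.map_adj_iff.2 hz), fun h z hz => ?_⟩
    refine h (e0.symm z) ?_
    rw [← e0.map_adj_iff]
    simpa using hz
  let β : W → Option (W ⊕ W) := fun w =>
    if w ∈ I then (par Λ B w).map Sum.inl else some (Sum.inr w)
  let α : W → Option (W ⊕ W) := fun w =>
    if w ∈ I then (par Λ A (e0.symm w)).map (fun x => Sum.inl (e0 x)) else some (Sum.inr w)
  have hβl : ∀ w c, β w = some (Sum.inl c) ↔ par Λ B w = some c := by
    intro w c
    by_cases hw : w ∈ I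
    · simp only [β, if_pos hw]
      simp
    · simp only [β, if_neg hw]
      simp only [Option.some.injEq, reduceCtorEq, false_iff]
      intro hc
      exact hw ⟨fun z => core_par hΛ hc, color_par hΛ hc⟩
  have hαl : ∀ w c, α w = some (Sum.inl c) ↔ par Λ A (e0.symm w) = some (e0.symm c) := by
    intro w c
    by_cases hw : w ∈ I
    · simp only [α, if_pos hw]
      simp only [Option.map_eq_some_iff, Sum.inl.injEq]
      constructor
      · rintro ⟨a, ha, rfl⟩
        simpa using ha
      · intro h
        exact ⟨_, h, by simp⟩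
    · simp only [α, if_neg hw]
      simp only [Option.some.injEq, reduceCtorEq, false_iff]
      intro hc
      refine hw ?_
      have : e0 (e0.symm w) ∈ I := (hIA _).2 ⟨fun z => core_par hΛ hc, color_par hΛ hc⟩
      simpa using this
  have hr : ∀ w c, β w = some (Sum.inr c) ↔ α w = some (Sum.inr c) := by
    intro w c
    by_cases hw : w ∈ I
    · simp [α, β, if_pos hw]
    · simp [α, β, if_neg hw]
  obtain ⟨h, hh⟩ := exists_perm_option α β (by
    intro c
    rcases c with c | c
    · have h1 : Nat.card {i // β i = some (Sum.inl c)} = color Λ B c := by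
        rw [← card_par (Λ := Λ) (A := B) c]
        exact Nat.card_congr (Equiv.subtypeEquivRight fun w => hβl w c)
      have h2 : Nat.card {i // α i = some (Sum.inl c)} = color Λ A (e0.symm c) := by
        rw [← card_par (Λ := Λ) (A := A) (e0.symm c)]
        refine Nat.card_congr (Equiv.subtypeEquiv e0.symm.toEquiv fun w => ?_)
        exact hαl w c
      rw [h1, h2]
      have := he0 (e0.symm c)
      simpa using this.symm
    · exact Nat.card_congr (Equiv.subtypeEquivRight fun w => (hr w c).symm))
  -- `h` fixes the complement of `I` and preserves `I`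
  have hfix : ∀ w, w ∉ I → h w = w := by
    intro w hw
    have h1 : α w = some (Sum.inr w) := by simp only [α, if_neg hw]
    have h2 := hh w
    rw [h1] at h2
    by_cases h3 : h w ∈ I
    · simp [β, if_pos h3] at h2
    · simp only [β, if_neg h3, Option.some.injEq, Sum.inr.injEq] at h2
      exact h2
  have hI : ∀ w, h w ∈ I ↔ w ∈ I := by
    intro w
    constructor
    · intro h1
      by_contra h2
      rw [hfix w h2] at h1
      exact h2 h1
    · intro h1
      by_contra h2
      have := hfix _ h2
      have h3 := h.injective this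
      rw [h3] at h2
      exact h2 h1
  have hcoreI : ∀ {x y}, (core Λ B).Adj x y → x ∉ I := fun hxy hx => hx.1 _ hxy
  have hcoreA : ∀ {x y}, (core Λ A).Adj x y → e0 x ∉ I := fun hxy hx => ((hIA _).1 hx).1 _ hxy
  have hparI : ∀ {x y}, par Λ A y = some x → h (e0 x) = e0 x := by
    intro x y hxy
    refine hfix _ fun hx => color_ne_zero hΛ hxy ((hIA _).1 hx).2
  have key1 : ∀ x y, (core Λ B).Adj (h (e0 x)) (h (e0 y)) ↔ (core Λ A).Adj x y := by
    intro x y
    constructor
    · intro hxy
      have h1 : e0 x ∉ I := fun hx => hcoreI hxy ((hI _).2 hx)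
      have h2 : e0 y ∉ I := fun hx => hcoreI hxy.symm ((hI _).2 hx)
      rw [hfix _ h1, hfix _ h2] at hxy
      exact e0.map_adj_iff.1 hxy
    · intro hxy
      rw [hfix _ (hcoreA hxy), hfix _ (hcoreA hxy.symm)]
      exact e0.map_adj_iff.2 hxy
  have key2 : ∀ x y, par Λ B (h (e0 y)) = some (h (e0 x)) ↔ par Λ A y = some x := by
    intro x y
    rw [← hβl, hh]
    constructor
    · intro h1
      rw [hαl] at h1
      simp only [RelIso.symm_apply_apply] at h1
      have h2 := hparI h1
      simp only [RelIso.apply_symm_apply] at h2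
      have h3 : h (e0 x) = e0 x := h.injective h2
      rw [h3] at h1
      simpa using h1
    · intro h1
      rw [hαl, hparI h1]
      simpa using h1
  refine ⟨⟨e0.toEquiv.trans h, ?_⟩⟩
  intro x y
  show B.Adj (h (e0 x)) (h (e0 y)) ↔ A.Adj x y
  rw [adj_iff_core (Λ := Λ) (A := B), adj_iff_core (Λ := Λ) (A := A), key1, key2, key2]

theorem iso_iff_coreIso [Finite W] (hΛ : 1 ≤ Λ) : Nonempty (A ≃g B) ↔ CoreIso Λ A B :=
  ⟨fun ⟨e⟩ => coreIso_of_iso e, iso_of_coreIso hΛ⟩

end Pool.Agent.Forest17
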