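import Pool.Agent.Lib.MP_17af9c_lc.Gamma

/-!
# Counting classes: recolouring and inclusion-exclusion
-/

namespace Pool.Agent.Forest17

open Classical

/-- Isomorphism of graphs on `W`. -/
def isoSetoid (W : Type*) : Setoid (SimpleGraph W) where
  r A B := Nonempty (A ≃g B)
  iseqv := ⟨fun _ => ⟨SimpleGraph.Iso.refl⟩, fun ⟨e⟩ => ⟨e.symm⟩, fun ⟨e⟩ ⟨f⟩ => ⟨e.trans f⟩⟩

/-- The number of isomorphism classes of the graphs in `S`. -/
noncomputable def cls {W : Type*} (S : Set (SimpleGraph W)) : ℕ :=
  (Quotient.mk (isoSetoid W) '' S).ncard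

theorem cls_rel {α β : Type*} {P : Set (SimpleGraph α × SimpleGraph β)}
    (h : ∀ p ∈ P, ∀ p' ∈ P, Nonempty (p.1 ≃g p'.1) ↔ Nonempty (p.2 ≃g p'.2)) :
    cls (Prod.fst '' P) = cls (Prod.snd '' P) := by
  let Q : Set (Quotient (isoSetoid α) × Quotient (isoSetoid β)) :=
    (fun p => (Quotient.mk _ p.1, Quotient.mk _ p.2)) '' P
  have h1 : Quotient.mk (isoSetoid α) '' (Prod.fst '' P) = Prod.fst '' Q := by
    ext c
    simp only [Q, Set.mem_image, exists_exists_and_eq_and]
  have h2 : Quotient.mk (isoSetoid β) '' (Prod.snd '' P) = Prod.snd '' Q := by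
    ext c
    simp only [Q, Set.mem_image, exists_exists_and_eq_and]
  unfold cls
  have e1 : (Prod.fst '' Q).ncard = Q.ncard := by
    refine Set.InjOn.ncard_image ?_
    rintro _ ⟨p, hp, rfl⟩ _ ⟨p', hp', rfl⟩ hq
    have h3 : Nonempty (p.1 ≃g p'.1) := Quotient.exact (s := isoSetoid α) hq
    have h4 := (h p hp p' hp').1 h3
    exact Prod.ext hq (Quotient.sound (s := isoSetoid β) h4)
  have e2 : (Prod.snd '' Q).ncard = Q.ncard := by
    refine Set.InjOn.ncard_image ?_
    rintro _ ⟨p, hp, rfl⟩ _ ⟨p', hp', rfl⟩ hq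
    have h3 : Nonempty (p.2 ≃g p'.2) := Quotient.exact (s := isoSetoid β) hq
    have h4 := (h p hp p' hp').2 h3
    exact Prod.ext (Quotient.sound (s := isoSetoid α) h4) hq
  rw [h1, h2, e1, e2]

/-! ### Skipping the elements of a finite set -/

section skip

variable (X : Finset ℕ)

/-- `x` minus the number of elements of `X` below `x`. -/
def skip (x : ℕ) : ℕ := x - (X.filter (· < x)).card

theorem card_lt_le (x : ℕ) : (X.filter (· < x)).card ≤ x := by
  calc _ ≤ (Finset.range x).card := Finset.card_le_card fun y hy => by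
        simpa using (Finset.mem_filter.1 hy).2
    _ = x := Finset.card_range x

theorem card_lt_add {x y : ℕ} (hxy : x ≤ y) :
    (X.filter (· < y)).card = (X.filter (· < x)).card + (X.filter fun z => x ≤ z ∧ z < y).card := by
  rw [← Finset.card_union_of_disjoint]
  · congr 1
    ext z
    simp only [Finset.mem_filter, Finset.mem_union]
    constructor
    · rintro ⟨h1, h2⟩
      by_cases h : z < x
      · exact Or.inl ⟨h1, h⟩
      · exact Or.inr ⟨h1, by omega, h2⟩
    · rintro (⟨h1, h2⟩ | ⟨h1, h2, h3⟩)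
      · exact ⟨h1, by omega⟩
      · exact ⟨h1, h3⟩
  · rw [Finset.disjoint_left]
    intro z hz hz'
    have := (Finset.mem_filter.1 hz).2
    have := (Finset.mem_filter.1 hz').2.1
    omega

theorem card_Ico_le (x y : ℕ) : (X.filter fun z => x ≤ z ∧ z < y).card ≤ y - x := by
  calc _ ≤ (Finset.Ico x y).card := Finset.card_le_card fun z hz => by
        simpa using (Finset.mem_filter.1 hz).2
    _ = y - x := Nat.card_Ico x y

theorem card_Ioo_le {x y : ℕ} (hx : x ∉ X) :
    (X.filter fun z => x ≤ z ∧ z < y).card ≤ y - (x + 1) := by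
  refine le_trans (Finset.card_le_card fun z hz => ?_) (card_Ico_le X (x + 1) y)
  simp only [Finset.mem_filter] at hz ⊢
  have : z ≠ x := fun h => hx (h ▸ hz.1)
  exact ⟨hz.1, by omega, hz.2.2⟩

theorem skip_mono {x y : ℕ} (hxy : x ≤ y) : skip X x ≤ skip X y := by
  unfold skip
  have h1 := card_lt_add X hxy
  have h2 := card_Ico_le X x y
  have h3 := card_lt_le X x
  have h4 := card_lt_le X y
  omega

theorem skip_lt {x y : ℕ} (hxy : x < y) (hx : x ∉ X) : skip X x < skip X y := by
  unfold skip
  have h1 := card_lt_add X hxy.le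
  have h2 := card_Ioo_le X (y := y) hx
  have h3 := card_lt_le X x
  have h4 := card_lt_le X y
  omega

theorem skip_injOn : Set.InjOn (skip X) {x | x ∉ X} := by
  intro x hx y hy h
  rcases lt_trichotomy x y with h1 | h1 | h1
  · have := skip_lt X h1 hx
    omega
  · exact h1
  · have := skip_lt X h1 hy
    omega

theorem exists_skip (q : ℕ) : ∃ x, x ∉ X ∧ skip X x = q := by
  have hP : ∀ x, skip X x ≤ q → x ≤ q + X.card := by
    intro x hx
    have h1 : (X.filter (· < x)).card ≤ X.card := Finset.card_filter_le _ _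
    unfold skip at hx
    omega
  let x := Nat.findGreatest (fun x => skip X x ≤ q) (q + X.card)
  have hx : skip X x ≤ q :=
    Nat.findGreatest_spec (P := fun x => skip X x ≤ q) (Nat.zero_le _) (by simp [skip])
  have hx1 : ¬ skip X (x + 1) ≤ q := by
    intro h
    have h1 := Nat.le_findGreatest (P := fun x => skip X x ≤ q) (hP _ h) h
    omega
  have h1 := card_lt_add X (show x ≤ x + 1 by omega)
  have h3 := card_lt_le X x
  have h4 := card_lt_le X (x + 1)
  refine ⟨x, fun hX => ?_, ?_⟩
  · have h2 : 1 ≤ (X.filter fun z => x ≤ z ∧ z < x + 1).card :=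
      Finset.card_pos.2 ⟨x, by simp [hX]⟩
    apply hx1
    unfold skip at hx ⊢
    omega
  · unfold skip at hx hx1 ⊢
    omega

theorem skip_gt {Λ : ℕ} (hX : ∀ y ∈ X, Λ < y) {x : ℕ} (hx : Λ < x) : Λ < skip X x := by
  unfold skip
  have h1 := card_lt_add X (Nat.le_of_lt hx)
  have h2 : (X.filter (· < Λ)).card = 0 := by
    rw [Finset.card_eq_zero, Finset.filter_eq_empty_iff]
    intro y hy
    have := hX y hy
    omega
  have h3 : (X.filter fun z => Λ ≤ z ∧ z < x).card ≤ x - (Λ + 1) :=
    card_Ioo_le X fun h => lt_irrefl _ (hX Λ h)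
  omega

theorem skip_le {Λ : ℕ} (hX : ∀ y ∈ X, Λ < y) {x : ℕ} (hx : x ≤ Λ) : skip X x = x := by
  unfold skip
  have h2 : (X.filter (· < x)).card = 0 := by
    rw [Finset.card_eq_zero, Finset.filter_eq_empty_iff]
    intro y hy
    have := hX y hy
    omega
  omega

end skip

/-! ### The graphs realised with given capacities -/

section omega

variable {V : Type*}

/-- Subgraphs of `G` with at most `cap v` leaves at `v`. -/
def Om (C : ℕ) (G : SimpleGraph V) (cap : V → ℕ) : Set (SimpleGraph (V ⊕ V × Fin C)) :=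
  {A | ∃ F k, F ≤ G ∧ (∀ v, k v ≤ cap v) ∧ A = gam C F k}

/-- Capacities: level `0`: no leaves, level `1`: `m` leaves, level `2`: `m + μ` leaves. -/
def cap (lev : V → ℕ) (m μ : ℕ) (v : V) : ℕ :=
  if lev v = 0 then 0 else if lev v = 1 then m else m + μ

variable [Finite V] {Λ B a b m0 μ0 : ℕ}

theorem cls_skip (G : SimpleGraph V) (lev : V → ℕ) (hΛ1 : 1 ≤ Λ) (hΛ : Nat.card V ≤ Λ)
    (hB : Nat.card V ≤ B) (hm : Λ + a ≤ m0) (hμ : B + a + b ≤ μ0) {C : ℕ}
    (hC : m0 + a + μ0 + b ≤ C) {X Y : Finset ℕ} (hX : X ⊆ Finset.Ioc Λ (Λ + a))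
    (hY : Y ⊆ Finset.Ioc (m0 + a + B) (m0 + a + B + b)) :
    cls (Om C G (cap lev (m0 + a - X.card) (μ0 + b - Y.card))) =
      cls {A ∈ Om C G (cap lev (m0 + a) (μ0 + b)) | ∀ w, color Λ A w ∉ X ∪ Y} := by
  have hXc : X.card ≤ a := by
    have := Finset.card_le_card hX
    rwa [Nat.card_Ioc, Nat.add_sub_cancel_left] at this
  have hYc : Y.card ≤ b := by
    have := Finset.card_le_card hY
    rwa [Nat.card_Ioc, Nat.add_sub_cancel_left] at this
  have hX' : ∀ y ∈ X, Λ < y ∧ y ≤ Λ + a := fun y hy => Finset.mem_Ioc.1 (hX hy)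
  have hY' : ∀ y ∈ Y, m0 + a + B < y ∧ y ≤ m0 + a + B + b := fun y hy => Finset.mem_Ioc.1 (hY hy)
  have hdis : Disjoint X Y := by
    rw [Finset.disjoint_left]
    intro y h1 h2
    have := hX' y h1
    have := hY' y h2
    omega
  set Z := X ∪ Y with hZ
  have hZc : Z.card = X.card + Y.card := Finset.card_union_of_disjoint hdis
  have hZ' : ∀ y ∈ Z, Λ < y := by
    intro y hy
    rcases Finset.mem_union.1 hy with h | h
    · exact (hX' y h).1
    · have := (hY' y h).1
      omega
  -- numbers of skipped elements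
  have hd1 : ∀ x, (Z.filter (· < x)).card ≤ X.card + Y.card := fun x => by
    rw [← hZc]
    exact Finset.card_filter_le _ _
  have hd2 : ∀ x, x ≤ m0 + a + B + 1 → (Z.filter (· < x)).card ≤ X.card := by
    intro x hx
    refine Finset.card_le_card fun y hy => ?_
    obtain ⟨h1, h2⟩ := Finset.mem_filter.1 hy
    rcases Finset.mem_union.1 h1 with h | h
    · exact h
    · have := (hY' y h).1
      omega
  have hd3 : ∀ x, Λ + a < x → X.card ≤ (Z.filter (· < x)).card := by
    intro x hx
    refine Finset.card_le_card fun y hy => Finset.mem_filter.2 ⟨Finset.mem_union_left _ hy, ?_⟩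
    have := (hX' y hy).2
    omega
  have hd4 : ∀ x, m0 + a + B + b < x → X.card + Y.card ≤ (Z.filter (· < x)).card := by
    intro x hx
    rw [← hZc]
    refine Finset.card_le_card fun y hy => Finset.mem_filter.2 ⟨hy, ?_⟩
    rcases Finset.mem_union.1 hy with h | h
    · have := (hX' y h).2
      omega
    · have := (hY' y h).2
      omega
  have hκ : ∀ q, Λ < q → Λ < skip Z q := fun q hq => skip_gt Z hZ' hq
  -- the relation
  let P : Set (SimpleGraph (V ⊕ V × Fin C) × SimpleGraph (V ⊕ V × Fin C)) :=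
    {p | ∃ F l, F ≤ G ∧ (∀ v, l v ≤ cap lev (m0 + a) (μ0 + b) v) ∧
      (∀ v, Λ < qv F l v → qv F l v ∉ Z) ∧ p = (gam C F l, gam C F (rec Λ (skip Z) F l))}
  have hcapC : ∀ v, cap lev (m0 + a) (μ0 + b) v ≤ C := by
    intro v
    unfold cap
    split_ifs <;> omega
  -- capacities after recolouring
  have hdown : ∀ F l, (∀ v, l v ≤ cap lev (m0 + a) (μ0 + b) v) →
      ∀ v, rec Λ (skip Z) F l v ≤ cap lev (m0 + a - X.card) (μ0 + b - Y.card) v := by
    intro F l hl v
    have h1 := hl v
    have h2 := av_le (F := F) (k := l) v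
    have hq : qv F l v = av F l v + l v := rfl
    unfold rec
    split_ifs with hbig
    · unfold skip
      have e1 := hd1 (qv F l v)
      have e3 := hd3 (qv F l v)
      have e4 := hd4 (qv F l v)
      have e5 := card_lt_le Z (qv F l v)
      unfold cap at h1 ⊢
      split_ifs at h1 ⊢ with h3 h4
      · omega
      · by_cases h5 : Λ + a < qv F l v
        · have := e3 h5
          omega
        · omega
      · by_cases h5 : m0 + a + B + b < qv F l v
        · have := e4 h5
          omega
        · omega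
    · unfold cap at h1 ⊢
      split_ifs at h1 ⊢ with h3 h4
      · exact h1
      · omega
      · omega
  have hdownC : ∀ F l, (∀ v, l v ≤ cap lev (m0 + a) (μ0 + b) v) →
      ∀ v, rec Λ (skip Z) F l v ≤ C := by
    intro F l hl v
    refine le_trans (hdown F l hl v) ?_
    unfold cap
    split_ifs <;> omega
  have hfst : Prod.fst '' P =
      {A ∈ Om C G (cap lev (m0 + a) (μ0 + b)) | ∀ w, color Λ A w ∉ Z} := by
    ext A
    constructor
    · rintro ⟨p, ⟨F, l, hF, hl, hq, rfl⟩, rfl⟩
      refine ⟨⟨F, l, hF, hl, rfl⟩, fun w => ?_⟩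
      have h0 : (0 : ℕ) ∉ Z := fun h => absurd (hZ' 0 h) (by omega)
      rcases w with v | p
      · show color Λ (gam C F l) (.inl v) ∉ Z
        rw [color_l fun v => (hl v).trans (hcapC v)]
        split_ifs with h
        · exact hq v h
        · exact h0
      · show color Λ (gam C F l) (.inr p) ∉ Z
        rw [color_r hΛ1]
        exact h0
    · rintro ⟨⟨F, l, hF, hl, rfl⟩, hw⟩
      refine ⟨(gam C F l, gam C F (rec Λ (skip Z) F l)), ⟨F, l, hF, hl, fun v hv => ?_, rfl⟩, rfl⟩
      have := hw (.inl v)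
      rwa [color_l fun v => (hl v).trans (hcapC v), if_pos hv] at this
  have hsnd : Prod.snd '' P = Om C G (cap lev (m0 + a - X.card) (μ0 + b - Y.card)) := by
    ext A
    constructor
    · rintro ⟨p, ⟨F, l, hF, hl, hq, rfl⟩, rfl⟩
      exact ⟨F, _, hF, hdown F l hl, rfl⟩
    · rintro ⟨F, k, hF, hk, rfl⟩
      choose θ hθ1 hθ2 using exists_skip Z
      have hθΛ : ∀ q, Λ < q → Λ < θ q := by
        intro q hq
        by_contra h
        have h1 := skip_le Z hZ' (not_lt.1 h)
        rw [hθ2] at h1
        omega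
      have hθ3 : ∀ q, θ q = q + (Z.filter (· < θ q)).card := by
        intro q
        have h1 := hθ2 q
        unfold skip at h1
        have h2 := card_lt_le Z (θ q)
        omega
      refine ⟨(gam C F (rec Λ θ F k), gam C F (rec Λ (skip Z) F (rec Λ θ F k))),
        ⟨F, _, hF, ?_, ?_, rfl⟩, ?_⟩
      · intro v
        have h1 := hk v
        have h2 := av_le (F := F) (k := k) v
        have hq : qv F k v = av F k v + k v := rfl
        unfold rec
        split_ifs with hbig
        · have e1 := hθ3 (qv F k v)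
          have e2 := hd1 (θ (qv F k v))
          have e3 := hd2 (θ (qv F k v))
          unfold cap at h1 ⊢
          split_ifs at h1 ⊢ with h3 h4
          · omega
          · have : θ (qv F k v) ≤ m0 + a + B := by
              by_contra hcon
              have h5 : m0 + a + B + 1 ≤ θ (qv F k v) := by omega
              have h6 := skip_mono Z h5
              rw [hθ2] at h6
              have h7 := hd2 _ le_rfl
              unfold skip at h6
              omega
            have := e3 (by omega)
            omega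
          · omega
        · unfold cap at h1 ⊢
          split_ifs at h1 ⊢ with h3 h4
          · exact h1
          · omega
          · omega
      · intro v hv
        rw [lt_qv_rec hΛ hθΛ] at hv
        rw [qv_rec hΛ hθΛ, if_pos hv]
        exact hθ1 _
      · show gam C F (rec Λ (skip Z) F (rec Λ θ F k)) = gam C F k
        congr 1
        funext v
        have h2 := av_le (F := F) (k := k) v
        have hq : qv F k v = av F k v + k v := rfl
        by_cases h : Λ < qv F k v
        · rw [rec, if_pos ((lt_qv_rec hΛ hθΛ v).2 h), qv_rec hΛ hθΛ, if_pos h, hθ2,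
            av_rec hΛ hθΛ]
          omega
        · rw [rec, if_neg (mt (lt_qv_rec hΛ hθΛ v).1 h), rec, if_neg h]
  rw [← hsnd, ← hfst]
  refine (cls_rel ?_).symm
  rintro _ ⟨F, l, hF, hl, hq, rfl⟩ _ ⟨F', l', hF', hl', hq', rfl⟩
  exact iso_rec hΛ hκ hΛ1 (fun v => (hl v).trans (hcapC v)) (hdownC F l hl)
    (fun v => (hl' v).trans (hcapC v)) (hdownC F' l' hl') (skip_injOn Z) hq hq'

end omega

end Pool.Agent.Forest17
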