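import Pool.Agent.Lib.PolyTime.NatBin
import Pool.Agent.Lib.CookLevin.Sat

/-!
# Counting unlabelled subforests: definitions

* `numSub G`: the number of isomorphism classes of spanning subgraphs of a finite graph;
* `Tree`: trees given by their lists of vertices and edges, with binary vertex names;
* `TTRed`: nonadaptive polynomial-time reductions between counting problems.
-/

namespace Pool.Agent.Lib.SubForests

open Turing Pool.Agent.Lib.PolyTime

/-- Spanning subgraphs of `G` up to isomorphism. -/
def isoSetoid {V : Type*} (G : SimpleGraph V) : Setoid {H : SimpleGraph V // H ≤ G} where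
  r A B := Nonempty (A.1 ≃g B.1)
  iseqv := ⟨fun _ => ⟨RelIso.refl _⟩, fun ⟨e⟩ => ⟨e.symm⟩, fun ⟨e⟩ ⟨e'⟩ => ⟨e.trans e'⟩⟩

/-- The number of isomorphism classes of graphs `(V, E')` with `E' ⊆ E(G)`. -/
noncomputable def numSub {V : Type*} (G : SimpleGraph V) : ℕ :=
  Nat.card (Quotient (isoSetoid G))

/-- A graph given by the list of its vertices and the list of its edges; the names of the vertices
are natural numbers written in binary (`NBin` is the type `ℕ`). -/
abbrev Code : Type := List NBin × List (NBin × NBin)

/-- The graph of a code. -/
def Code.graph (t : Code) : SimpleGraph {v : NBin // v ∈ t.1} :=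
  SimpleGraph.fromRel fun a b => (a.1, b.1) ∈ t.2

/-- The code describes a tree: the vertices are pairwise distinct, every edge joins two distinct
listed vertices and is listed once, and the graph is a tree. -/
structure Code.IsTree (t : Code) : Prop where
  vertices : t.1.Nodup
  ends : ∀ e ∈ t.2, e.1 ∈ t.1 ∧ e.2 ∈ t.1
  loopless : ∀ e ∈ t.2, e.1 ≠ e.2
  edges : (t.2.map fun e => s(e.1, e.2)).Nodup
  tree : t.graph.IsTree

/-- Trees, given by their lists of vertices and edges. -/
abbrev Tree : Type := {t : Code // t.IsTree}

/-- The number of isomorphism classes of subforests of a tree. -/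
noncomputable def numSubforests (t : Tree) : ℕ := numSub t.1.graph

/-- The word of a list of bit strings: every bit string is followed by a separator. -/
def tupleWord (l : List (List Bool)) : List (Option Bool) :=
  l.flatMap fun w => w.map some ++ [none]

/-- Nonadaptive polynomial-time reduction of the function `f`, whose instances `x : α` are encoded
by the bit strings `ea x`, to the function `g`, whose instances are encoded by `eb`: in polynomial
time one computes from `x` a list of instances of `g`, and in polynomial time one computes `f x`
from `x` and the values of `g` at these instances. Values are written in binary. -/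
def TTRed {α β : Type} (ea : α → List Bool) (f : α → ℕ) (eb : β → List Bool) (g : β → ℕ) : Prop :=
  ∃ (q : α → List β) (h : α × List ℕ → ℕ),
    Nonempty (TM2ComputableInPolyTime ea (fun l => tupleWord (l.map eb)) q) ∧
    Nonempty (TM2ComputableInPolyTime
      (fun p : α × List ℕ => tupleWord (ea p.1 :: p.2.map Nat.bits)) Nat.bits h) ∧
    ∀ x, f x = h (x, (q x).map g)

end Pool.Agent.Lib.SubForests
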