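import Pool.Agent.Lib.PolyTime.IntBin

/-!
# Iterated differences in polynomial time
-/

namespace Pool.Agent.Lib.SubForests

open Function Pool.Agent.Lib.PolyTime

/-- Differences of consecutive entries. -/
def diffs (l : List ℤ) : List ℤ := List.zipWith (fun a b => a - b) l.tail l

/-- The difference operator. -/
def dOp (f : ℕ → ℤ) : ℕ → ℤ := fun i => f (i + 1) - f i

theorem diffs_map_range (f : ℕ → ℤ) (n : ℕ) :
    diffs ((List.range (n + 1)).map f) = (List.range n).map (dOp f) := by
  apply List.ext_getElem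
  · simp [diffs]
  · intro i h1 h2
    simp [diffs, dOp]

theorem diffs_iterate (f : ℕ → ℤ) (k : ℕ) :
    diffs^[k] ((List.range (k + 1)).map f) = [dOp^[k] f 0] := by
  induction k generalizing f with
  | zero => simp
  | succ k ih =>
    rw [iterate_succ_apply, diffs_map_range, ih, iterate_succ_apply]

/-- The operator as a sum with binomial coefficients. -/
theorem dOp_iterate (f : ℕ → ℤ) (k y : ℕ) :
    dOp^[k] f y = ∑ i ∈ Finset.range (k + 1), (-1) ^ (k - i) * (k.choose i : ℤ) * f (y + i) := by
  have h : ∀ (k : ℕ), dOp^[k] f = (fwdDiff 1)^[k] f := by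
    intro k
    induction k with
    | zero => rfl
    | succ k ih => rw [iterate_succ_apply', iterate_succ_apply', ih]; rfl
  rw [h, fwdDiff_iter_eq_sum_shift]
  refine Finset.sum_congr rfl fun i _ => ?_
  simp

/-- The `k`-th difference of a list. -/
def deltaL (k : ℕ) (l : List ℤ) : ℤ := (diffs^[k] l).headD 0

theorem deltaL_range (f : ℕ → ℤ) (k : ℕ) :
    deltaL k ((List.range (k + 1)).map f) = dOp^[k] f 0 := by
  rw [deltaL, diffs_iterate]
  rfl

section

variable {α β : Type*} [TEnc α] [TEnc β]

theorem mem_diffs {l : List ℤ} {M : ℤ} (h : ∀ z ∈ l, |z| ≤ M) : ∀ z ∈ diffs l, |z| ≤ 2 * M := by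
  intro z hz
  obtain ⟨i, hi, rfl⟩ := List.mem_iff_getElem.1 hz
  have hlen : i + 1 < l.length := by
    simp only [diffs, List.length_zipWith, List.length_tail] at hi
    omega
  simp only [diffs, List.getElem_zipWith, List.getElem_tail]
  have h1 := h l[i + 1] (List.getElem_mem _)
  have h2 := h (l[i]'(by omega)) (List.getElem_mem _)
  rw [abs_le] at *
  constructor <;> linarith [h1.1, h1.2, h2.1, h2.2]

theorem mem_diffs_iterate {l : List ℤ} {M : ℤ} (h : ∀ z ∈ l, |z| ≤ M) (k : ℕ) :
    (∀ z ∈ diffs^[k] l, |z| ≤ 2 ^ k * M) ∧ (diffs^[k] l).length ≤ l.length := by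
  induction k with
  | zero => simpa using h
  | succ k ih =>
    rw [iterate_succ_apply']
    constructor
    · intro z hz
      have := mem_diffs ih.1 z hz
      rw [pow_succ]
      linarith
    · refine le_trans ?_ ih.2
      simp [diffs]

theorem polyF_diffs {l : α → List ℤ} (hl : PolyF l) : PolyF (fun x => diffs (l x)) :=
  hl.tail.zipWith (h := fun _ a b => a - b) hl (PolyF.snd'.fst.intSub PolyF.snd'.snd)

theorem polyF_deltaL {k : α → ℕ} {l : α → List ℤ} (hk : PolyF k) (hl : PolyF l) :
    PolyF (fun x => deltaL (k x) (l x)) := by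
  have h1 : PolyF (fun x => diffs^[k x] (l x)) := by
    refine PolyF.natIterate (f := fun _ c => diffs c) hk (polyF_diffs PolyF.snd') hl ?_
    have hB : PBd (fun x => (2 * (sz (l x) + k x + 1) + 2 + 1) * sz (l x)) :=
      ((((PBd.const 2).mul ((hl.pbd.add hk.pbdNat).add (PBd.const 1))).add (PBd.const 2)).add
        (PBd.const 1)).mul hl.pbd
    refine hB.imp fun B hB x i hi => le_trans ?_ (hB x)
    have hM : ∀ z ∈ l x, |z| ≤ 2 ^ sz (l x) := fun z hz => by
      have h1 := abs_lt_two_pow_sz z
      have h2 := sz_mem hz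
      exact h1.le.trans (pow_le_pow_right₀ (by norm_num) (by omega))
    obtain ⟨h1, h2⟩ := mem_diffs_iterate hM i
    have h3 : ∀ z ∈ diffs^[i] (l x), sz z ≤ 2 * (sz (l x) + k x + 1) + 2 := fun z hz => by
      refine sz_int_le_of_abs_lt ((h1 z hz).trans_lt ?_)
      rw [← pow_add]
      exact pow_lt_pow_right₀ (by norm_num) (by omega)
    exact (sz_le_of_forall h3).trans (Nat.mul_le_mul_left _ (h2.trans (length_le_sz _)))
  exact h1.headD (PolyF.const 0)

end

end Pool.Agent.Lib.SubForests
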