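import Pool.Agent.Lib.MP_17af9c_lc.Swap
import Pool.Agent.Lib.MP_17af9c_lc.ASpider

/-!
# Subgraphs of a graph with leaves, on the type of its vertices
-/

namespace Pool.Agent.Forest17

open Classical
open Pool.Agent.Lib.SubForests (numSub)

section embed

variable {X W : Type*} {ι : X ↪ W} {A A' : SimpleGraph X}

theorem map_adj_range {a b : W} (h : (A.map ι).Adj a b) : a ∈ Set.range ι := by
  rw [SimpleGraph.map_adj] at h
  obtain ⟨u, v, -, rfl, -⟩ := h
  exact ⟨u, rfl⟩

theorem iso_map (e : A ≃g A') : Nonempty (A.map ι ≃g A'.map ι) := by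
  refine ⟨⟨Equiv.Perm.viaEmbedding e.toEquiv ι, fun {a b} => ?_⟩⟩
  have hr : ∀ a, a ∉ Set.range ι → Equiv.Perm.viaEmbedding e.toEquiv ι a = a :=
    fun a ha => Equiv.Perm.viaEmbedding_apply_of_notMem _ _ _ ha
  have hi : ∀ u, Equiv.Perm.viaEmbedding e.toEquiv ι (ι u) = ι (e u) :=
    fun u => Equiv.Perm.viaEmbedding_apply _ _ _
  by_cases ha : a ∈ Set.range ι
  · by_cases hb : b ∈ Set.range ι
    · obtain ⟨u, rfl⟩ := ha
      obtain ⟨v, rfl⟩ := hb
      rw [hi, hi, SimpleGraph.map_adj_apply, SimpleGraph.map_adj_apply]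
      exact e.map_adj_iff
    · rw [hr b hb]
      constructor
      · intro h
        exact absurd (map_adj_range h.symm) hb
      · intro h
        exact absurd (map_adj_range h.symm) hb
  · rw [hr a ha]
    constructor
    · intro h
      exact absurd (map_adj_range h) ha
    · intro h
      exact absurd (map_adj_range h) ha

theorem iso_of_map [Finite X] (e : A.map ι ≃g A'.map ι) : Nonempty (A ≃g A') := by
  have h1 : ∀ u : {u // ∃ v, A.Adj u v}, ∃ u' : {u // ∃ v, A'.Adj u v}, ι u'.1 = e (ι u.1) := by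
    rintro ⟨u, v, huv⟩
    have h2 : (A'.map ι).Adj (e (ι u)) (e (ι v)) :=
      e.map_adj_iff.2 ((SimpleGraph.map_adj_apply).2 huv)
    rw [SimpleGraph.map_adj] at h2
    obtain ⟨u', v', h3, h4, -⟩ := h2
    exact ⟨⟨u', v', h3⟩, h4⟩
  have h1' : ∀ u' : {u // ∃ v, A'.Adj u v}, ∃ u : {u // ∃ v, A.Adj u v}, ι u'.1 = e (ι u.1) := by
    rintro ⟨u, v, huv⟩
    have h2 : (A.map ι).Adj (e.symm (ι u)) (e.symm (ι v)) :=
      e.symm.map_adj_iff.2 ((SimpleGraph.map_adj_apply).2 huv)
    rw [SimpleGraph.map_adj] at h2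
    obtain ⟨u', v', h3, h4, -⟩ := h2
    refine ⟨⟨u', v', h3⟩, ?_⟩
    rw [h4]
    simp
  choose f hf using h1
  have hfb : Function.Bijective f := by
    constructor
    · intro u v huv
      have h2 : e (ι u.1) = e (ι v.1) := by rw [← hf, ← hf, huv]
      exact Subtype.ext (ι.injective (e.injective h2))
    · intro u'
      obtain ⟨u, hu⟩ := h1' u'
      refine ⟨u, Subtype.ext (ι.injective ?_)⟩
      rw [hf, hu]
  let g := (Equiv.ofBijective f hfb).extendSubtype
  have hg1 : ∀ u (h : ∃ v, A.Adj u v), ι (g u) = e (ι u) := by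
    intro u h
    have h2 : g u = f ⟨u, h⟩ :=
      Equiv.extendSubtype_apply_of_mem (Equiv.ofBijective f hfb) u h
    rw [h2, hf]
  have hg2 : ∀ u (h : ¬ ∃ v, A.Adj u v), ¬ ∃ v, A'.Adj (g u) v := by
    intro u h
    exact Equiv.extendSubtype_not_mem (Equiv.ofBijective f hfb) u h
  refine ⟨⟨g, fun {a b} => ?_⟩⟩
  by_cases ha : ∃ v, A.Adj a v
  · by_cases hb : ∃ v, A.Adj b v
    · rw [← SimpleGraph.map_adj_apply (f := ι), hg1 a ha, hg1 b hb, e.map_adj_iff,
        SimpleGraph.map_adj_apply]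
    · constructor
      · intro h
        exact absurd ⟨_, h.symm⟩ (hg2 b hb)
      · intro h
        exact absurd ⟨_, h.symm⟩ hb
  · constructor
    · intro h
      exact absurd ⟨_, h⟩ (hg2 a ha)
    · intro h
      exact absurd ⟨_, h⟩ ha

end embed

theorem numSub_eq_cls {X : Type*} (H : SimpleGraph X) : numSub H = cls {A | A ≤ H} := by
  unfold numSub cls
  rw [← Nat.card_coe_set_eq]
  let f : Quotient (Pool.Agent.Lib.SubForests.isoSetoid H) →
      (Quotient.mk (isoSetoid X) '' {A | A ≤ H} : Set (Quotient (isoSetoid X))) :=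
    Quotient.lift (s := Pool.Agent.Lib.SubForests.isoSetoid H)
      (fun A : {A : SimpleGraph X // A ≤ H} =>
        (⟨Quotient.mk (isoSetoid X) A.1, A.1, A.2, rfl⟩ :
          (Quotient.mk (isoSetoid X) '' {A | A ≤ H} : Set (Quotient (isoSetoid X)))))
      (fun A B h => Subtype.ext (Quotient.sound (s := isoSetoid X) h))
  refine Nat.card_eq_of_bijective f ⟨?_, ?_⟩
  · intro a b
    refine Quotient.inductionOn₂ a b fun A B h => ?_
    have h2 : Quotient.mk (isoSetoid X) A.1 = Quotient.mk (isoSetoid X) B.1 :=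
      congrArg Subtype.val h
    have h3 : Nonempty (A.1 ≃g B.1) := Quotient.exact (s := isoSetoid X) h2
    exact Quotient.sound (s := Pool.Agent.Lib.SubForests.isoSetoid H) h3
  · rintro ⟨_, A, hA, rfl⟩
    exact ⟨Quotient.mk _ ⟨A, hA⟩, rfl⟩

section bridge

variable {X V : Type*} [Finite X] [Finite V] {C : ℕ} {G : SimpleGraph V} {c : V → ℕ}

theorem ncard_lt_fin {m : ℕ} (hm : m ≤ C) : {i : Fin C | i.1 < m}.ncard = m := by
  have h1 : {i : Fin C | i.1 < m} = Set.range (Fin.castLE hm) := by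
    ext i
    constructor
    · intro h
      exact ⟨⟨i.1, h⟩, rfl⟩
    · rintro ⟨j, rfl⟩
      exact j.2
  rw [h1, ← Set.image_univ, Set.ncard_image_of_injective _ (Fin.castLE_injective hm),
    Set.ncard_univ, Nat.card_eq_fintype_card, Fintype.card_fin]

theorem gam_mono {F : SimpleGraph V} {k : V → ℕ} (hF : F ≤ G) (hk : ∀ v, k v ≤ c v) :
    gam C F k ≤ gam C G c := by
  rintro (u | p) (v | p') h
  · exact hF h
  · exact ⟨h.1, h.2.trans_le (hk _)⟩
  · exact ⟨h.1, h.2.trans_le (hk _)⟩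
  · exact h

/-- A subgraph of the graph with leaves is isomorphic to a graph with the leaves in order. -/
theorem exists_gam (hc : ∀ v, c v ≤ C) {B : SimpleGraph (V ⊕ V × Fin C)}
    (hB : B ≤ gam C G c) : ∃ F k, F ≤ G ∧ (∀ v, k v ≤ c v) ∧ Nonempty (B ≃g gam C F k) := by
  let F : SimpleGraph V := B.comap Sum.inl
  let k : V → ℕ := fun v => {i : Fin C | B.Adj (.inl v) (.inr (v, i))}.ncard
  have hkc : ∀ v, k v ≤ c v := by
    intro v
    calc k v ≤ {i : Fin C | i.1 < c v}.ncard :=
          Set.ncard_le_ncard (fun i hi => (hB hi).2) (Set.toFinite _)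
      _ = c v := ncard_lt_fin (hc v)
  have h1 : ∀ v, ∃ σ : Equiv.Perm (Fin C), ∀ i, B.Adj (.inl v) (.inr (v, i)) ↔ (σ i).1 < k v := by
    intro v
    obtain ⟨σ, hσ⟩ := exists_equiv_of_ncard (α := Fin C) (β := Fin C)
      (s := {i : Fin C | B.Adj (.inl v) (.inr (v, i))}) (t := {i | i.1 < k v}) rfl
      (ncard_lt_fin ((hkc v).trans (hc v))).symm
    exact ⟨σ, hσ⟩
  choose σ hσ using h1
  refine ⟨F, k, fun u v h => hB h, hkc, ⟨⟨Equiv.sumCongr (Equiv.refl V)
    ((Equiv.prodShear (Equiv.refl V) σ)), ?_⟩⟩⟩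
  rintro (u | ⟨u, i⟩) (v | ⟨v, j⟩)
  · exact Iff.rfl
  · show (u = v ∧ (σ v j).1 < k v) ↔ B.Adj (.inl u) (.inr (v, j))
    rw [← hσ]
    constructor
    · rintro ⟨rfl, h⟩
      exact h
    · intro h
      have h2 : u = v := (hB h).1
      exact ⟨h2, h2 ▸ h⟩
  · show (v = u ∧ (σ u i).1 < k u) ↔ B.Adj (.inr (u, i)) (.inl v)
    rw [← hσ]
    constructor
    · rintro ⟨rfl, h⟩
      exact h.symm
    · intro h
      have h2 : v = u := (hB h).1
      exact ⟨h2, by subst h2; exact h.symm⟩
  · constructor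
    · intro h
      exact absurd h (fun h => h)
    · intro h
      exact absurd (hB h) (fun h => h)

theorem numSub_eq_cls_Om (hc : ∀ v, c v ≤ C) (H : SimpleGraph X) (ι : X ↪ V ⊕ V × Fin C)
    (h1 : ∀ x y, H.Adj x y ↔ (gam C G c).Adj (ι x) (ι y))
    (h2 : ∀ v, Sum.inl v ∈ Set.range ι)
    (h3 : ∀ (p : V × Fin C), p.2.1 < c p.1 → Sum.inr p ∈ Set.range ι) :
    numSub H = cls (Om C G c) := by
  rw [numSub_eq_cls]
  let P : Set (SimpleGraph X × SimpleGraph (V ⊕ V × Fin C)) :=
    {p | p.1 ≤ H ∧ p.2 ∈ Om C G c ∧ Nonempty (p.1.map ι ≃g p.2)}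
  have hrange : ∀ {a b}, (gam C G c).Adj a b → a ∈ Set.range ι := by
    rintro (u | p) (v | p') h
    · exact h2 u
    · exact h2 u
    · exact h3 p h.2
    · exact absurd h (fun h => h)
  have e1 : {A | A ≤ H} = Prod.fst '' P := by
    ext A
    constructor
    · intro hA
      have hle : A.map ι ≤ gam C G c := by
        intro a b hab
        rw [SimpleGraph.map_adj] at hab
        obtain ⟨u, v, huv, rfl, rfl⟩ := hab
        exact (h1 u v).1 (hA huv)
      obtain ⟨F, k, hF, hk, hi⟩ := exists_gam hc hle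
      exact ⟨(A, gam C F k), ⟨hA, ⟨F, k, hF, hk, rfl⟩, hi⟩, rfl⟩
    · rintro ⟨p, ⟨hp, -⟩, rfl⟩
      exact hp
  have e2 : Om C G c = Prod.snd '' P := by
    ext B
    constructor
    · rintro ⟨F, k, hF, hk, rfl⟩
      refine ⟨((gam C F k).comap ι, gam C F k), ⟨?_, ⟨F, k, hF, hk, rfl⟩, ?_⟩, rfl⟩
      · intro x y hxy
        exact (h1 x y).2 (gam_mono hF hk hxy)
      · have : ((gam C F k).comap ι).map ι = gam C F k := by
          ext a b
          rw [SimpleGraph.map_adj]
          constructor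
          · rintro ⟨u, v, huv, rfl, rfl⟩
            exact huv
          · intro hab
            obtain ⟨u, rfl⟩ := hrange (gam_mono hF hk hab)
            obtain ⟨v, rfl⟩ := hrange (gam_mono hF hk hab.symm)
            exact ⟨u, v, hab, rfl, rfl⟩
        rw [this]
        exact ⟨SimpleGraph.Iso.refl⟩
    · rintro ⟨p, ⟨-, hp, -⟩, rfl⟩
      exact hp
  rw [e1, e2]
  refine cls_rel ?_
  rintro ⟨A, B⟩ ⟨-, -, ⟨i⟩⟩ ⟨A', B'⟩ ⟨-, -, ⟨j⟩⟩
  constructor
  · rintro ⟨e⟩
    obtain ⟨m⟩ := iso_map (ι := ι) e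
    exact ⟨i.symm.trans (m.trans j)⟩
  · rintro ⟨e⟩
    exact iso_of_map (i.trans (e.trans j.symm))

end bridge

/-! ### The spider -/

section spid

variable {L N : ℕ} {c : ℕ → ℕ → ℕ} {C : ℕ}

/-- The embedding of the vertices of the spider. -/
def emb (hc : ∀ l i, c l i ≤ C) :
    SV L N c ↪ Option (Fin L × Fin N) ⊕ Option (Fin L × Fin N) × Fin C where
  toFun
    | .inl v => .inl v
    | .inr q => .inr (some q.1, ⟨q.2.1, q.2.2.trans_le (hc _ _)⟩)
  inj' := by
    rintro (u | ⟨p, j⟩) (v | ⟨q, j'⟩) h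
    · simpa using h
    · simp at h
    · simp at h
    · simp only [Sum.inr.injEq, Prod.mk.injEq, Option.some.injEq, Fin.mk.injEq] at h
      obtain ⟨h1, h2⟩ := h
      subst h1
      rw [Fin.ext h2]

theorem spider_adj_hubs {l l' : Fin L} {i i' : Fin N} :
    (spider L N c).Adj (.inl (some (l, i))) (.inl (some (l', i'))) ↔
      l = l' ∧ (i.1 + 1 = i'.1 ∨ i'.1 + 1 = i.1) := by
  have hp : ∀ (l l' : Fin L) (i i' : Fin N), (Sum.inl (some (l, i)) : SV L N c) =
      SV.parent (.inl (some (l', i'))) ↔ l = l' ∧ i.1 + 1 = i'.1 := by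
    intro l l' i i'
    unfold SV.parent
    dsimp only
    split_ifs with h0
    · constructor
      · intro h
        simp at h
      · rintro ⟨-, h⟩
        omega
    · rw [Sum.inl.injEq, Option.some.injEq, Prod.mk.injEq, Fin.ext_iff]
      refine and_congr_right fun _ => ?_
      rw [Fin.ext_iff]
      show i.1 = i'.1 - 1 ↔ _
      omega
  show ((Sum.inl (some (l, i)) : SV L N c) ≠ SV.root ∧ _ = _) ∨
    ((Sum.inl (some (l', i')) : SV L N c) ≠ SV.root ∧ _ = _) ↔ _
  have hne : ∀ (l : Fin L) (i : Fin N), (Sum.inl (some (l, i)) : SV L N c) ≠ SV.root := by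
    intro l i h
    simp [SV.root] at h
  simp only [hne, ne_eq, not_false_eq_true, true_and]
  rw [hp, hp]
  constructor
  · rintro (⟨h1, h2⟩ | ⟨h1, h2⟩)
    · exact ⟨h1.symm, Or.inr h2⟩
    · exact ⟨h1, Or.inl h2⟩
  · rintro ⟨h1, h2 | h2⟩
    · exact Or.inr ⟨h1, h2⟩
    · exact Or.inl ⟨h1.symm, h2⟩

theorem spider_adj_root {l : Fin L} {i : Fin N} :
    (spider L N c).Adj (.inl none) (.inl (some (l, i))) ↔ i.1 = 0 := by
  show (_ ≠ SV.root ∧ _) ∨ ((Sum.inl (some (l, i)) : SV L N c) ≠ SV.root ∧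
    (Sum.inl none : SV L N c) = SV.parent (.inl (some (l, i)))) ↔ _
  have h1 : ¬ ((Sum.inl none : SV L N c) ≠ SV.root) := fun h => h rfl
  have h2 : (Sum.inl (some (l, i)) : SV L N c) ≠ SV.root := by
    intro h
    simp [SV.root] at h
  simp only [h1, false_and, false_or, h2, ne_eq, not_false_eq_true, true_and]
  unfold SV.parent
  dsimp only
  split_ifs with h0
  · simp [h0]
  · simp [h0]

theorem spider_adj_leaf {v : Option (Fin L × Fin N)}
    {q : Σ p : Fin L × Fin N, Fin (c p.1 p.2)} :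
    (spider L N c).Adj (.inl v) (.inr q) ↔ v = some q.1 := by
  show ((Sum.inl v : SV L N c) ≠ SV.root ∧ (Sum.inr q : SV L N c) = SV.parent (.inl v)) ∨
    ((Sum.inr q : SV L N c) ≠ SV.root ∧ (Sum.inl v : SV L N c) = SV.parent (.inr q)) ↔ _
  have h1 : (Sum.inr q : SV L N c) ≠ SV.parent (.inl v) := by
    rcases v with _ | ⟨l, i⟩
    · simp [SV.parent]
    · unfold SV.parent
      dsimp only
      split_ifs <;> simp
  have h2 : (Sum.inr q : SV L N c) ≠ SV.root := by
    intro h
    simp [SV.root] at h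
  have h3 : SV.parent (.inr q : SV L N c) = .inl (some q.1) := rfl
  rw [h3]
  simp [h1, h2]

theorem spider_adj_leaves {q q' : Σ p : Fin L × Fin N, Fin (c p.1 p.2)} :
    ¬ (spider L N c).Adj (.inr q) (.inr q') := by
  rintro (⟨-, h⟩ | ⟨-, h⟩)
  · exact absurd h (by simp [SV.parent])
  · exact absurd h (by simp [SV.parent])

theorem spider_numSub (hc : ∀ l i, c l i ≤ C) (c' : Option (Fin L × Fin N) → ℕ)
    (h0 : c' none = 0) (h1 : ∀ p, c' (some p) = c p.1 p.2) :
    numSub (spider L N c) = cls (Om C (spi (adjP (Fin L) N) (headP (Fin L) N)) c') := by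
  refine numSub_eq_cls_Om ?_ (spider L N c) (emb hc) ?_ ?_ ?_
  · rintro (_ | p)
    · rw [h0]
      exact Nat.zero_le _
    · rw [h1]
      exact hc _ _
  · rintro ((_ | p) | q) ((_ | p') | q')
    · constructor
      · intro h
        exact absurd h (SimpleGraph.irrefl _)
      · intro h
        exact absurd h (fun h => h)
    · exact spider_adj_root
    · rw [spider_adj_leaf]
      constructor
      · intro h
        cases h
      · intro h
        have h2 := h.1
        cases h2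
    · rw [SimpleGraph.adj_comm, SimpleGraph.adj_comm (gam _ _ _)]
      exact spider_adj_root
    · exact spider_adj_hubs
    · rw [spider_adj_leaf]
      constructor
      · intro h
        refine ⟨h, ?_⟩
        show q'.2.1 < c' (some q'.1)
        rw [h1]
        exact q'.2.2
      · intro h
        exact h.1
    · rw [SimpleGraph.adj_comm, SimpleGraph.adj_comm (gam _ _ _), spider_adj_leaf]
      constructor
      · intro h
        cases h
      · intro h
        have h2 := h.1
        cases h2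
    · rw [SimpleGraph.adj_comm, SimpleGraph.adj_comm (gam _ _ _), spider_adj_leaf]
      constructor
      · intro h
        refine ⟨h, ?_⟩
        show q.2.1 < c' (some q.1)
        rw [h1]
        exact q.2.2
      · intro h
        exact h.1
    · constructor
      · intro h
        exact absurd h spider_adj_leaves
      · intro h
        exact absurd h (fun h => h)
  · intro v
    exact ⟨.inl v, rfl⟩
  · rintro ⟨_ | p, j⟩ h
    · rw [h0] at h
      exact absurd h (Nat.not_lt_zero _)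
    · have h2 : j.1 < c p.1 p.2 := by
        rw [← h1]
        exact h
      exact ⟨.inr ⟨p, ⟨j.1, h2⟩⟩, rfl⟩

end spid

end Pool.Agent.Forest17
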