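import Pool.Agent.Lib.MP_17af9c_lc.Core

/-!
# Graphs with leaves
-/

namespace Pool.Agent.Forest17

open Classical

variable {V : Type*}

/-- The graph `F` with `k v` leaves (out of `C` possible ones) attached at every vertex `v`. -/
def gam (C : ℕ) (F : SimpleGraph V) (k : V → ℕ) : SimpleGraph (V ⊕ V × Fin C) where
  Adj
    | .inl u, .inl v => F.Adj u v
    | .inl u, .inr p => u = p.1 ∧ p.2.1 < k p.1
    | .inr p, .inl u => u = p.1 ∧ p.2.1 < k p.1
    | .inr _, .inr _ => False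
  symm := ⟨by
    rintro (u | p) (v | p') h
    · exact F.adj_symm h
    · exact h
    · exact h
    · exact h⟩
  loopless := ⟨by
    rintro (u | p) h
    · exact F.loopless.irrefl u h
    · exact h⟩

variable {C : ℕ} {F F' : SimpleGraph V} {k k' : V → ℕ}

@[simp] theorem gam_ll {u v : V} : (gam C F k).Adj (.inl u) (.inl v) ↔ F.Adj u v := Iff.rfl
@[simp] theorem gam_lr {u : V} {p : V × Fin C} :
    (gam C F k).Adj (.inl u) (.inr p) ↔ u = p.1 ∧ p.2.1 < k p.1 := Iff.rfl
@[simp] theorem gam_rl {u : V} {p : V × Fin C} :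
    (gam C F k).Adj (.inr p) (.inl u) ↔ u = p.1 ∧ p.2.1 < k p.1 := Iff.rfl
@[simp] theorem gam_rr {p p' : V × Fin C} : ¬ (gam C F k).Adj (.inr p) (.inr p') := fun h => h

/-- Pendant neighbours of `v` inside `V`. -/
def pv (F : SimpleGraph V) (k : V → ℕ) (v : V) : Set V :=
  {y | F.Adj v y ∧ k y = 0 ∧ ∀ z, F.Adj y z → z = v}

/-- Number of pendant neighbours inside `V`. -/
noncomputable def av (F : SimpleGraph V) (k : V → ℕ) (v : V) : ℕ := (pv F k v).ncard

/-- Number of pendant neighbours. -/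
noncomputable def qv (F : SimpleGraph V) (k : V → ℕ) (v : V) : ℕ := av F k v + k v

theorem mem_pend_ll (hk : ∀ v, k v ≤ C) {v y : V} :
    Sum.inl y ∈ pend (gam C F k) (.inl v) ↔ y ∈ pv F k v := by
  constructor
  · rintro ⟨h1, h2⟩
    refine ⟨h1, ?_, fun z hz => ?_⟩
    · by_contra h
      have hC : 0 < C := lt_of_lt_of_le (Nat.pos_of_ne_zero h) (hk y)
      have := h2 (.inr (y, ⟨0, hC⟩)) (by simpa using Nat.pos_of_ne_zero h)
      simp at this
    · simpa using h2 (.inl z) hz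
  · rintro ⟨h1, h2, h3⟩
    refine ⟨h1, ?_⟩
    rintro (z | p) hz
    · rw [h3 z hz]
    · obtain ⟨h4, h5⟩ := hz
      rw [← h4, h2] at h5
      omega

theorem mem_pend_lr {v : V} {p : V × Fin C} :
    Sum.inr p ∈ pend (gam C F k) (.inl v) ↔ v = p.1 ∧ p.2.1 < k p.1 := by
  constructor
  · rintro ⟨h1, -⟩
    exact h1
  · intro h
    refine ⟨h, ?_⟩
    rintro (z | p') hz
    · rw [gam_rl] at hz
      rw [hz.1, h.1]
    · exact absurd hz gam_rr

theorem pend_r {p : V × Fin C} : pend (gam C F k) (.inr p) ⊆ {.inl p.1} := by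
  rintro (z | p') hz
  · have := hz.1
    rw [gam_rl] at this
    rw [this.1]
    rfl
  · exact absurd hz.1 gam_rr

theorem pq_r {p : V × Fin C} : pq (gam C F k) (.inr p) ≤ 1 := by
  unfold pq
  calc _ ≤ ({.inl p.1} : Set (V ⊕ V × Fin C)).ncard :=
        Set.ncard_le_ncard pend_r (Set.finite_singleton _)
    _ = 1 := Set.ncard_singleton _

variable [Finite V]

theorem pq_l (hk : ∀ v, k v ≤ C) (v : V) : pq (gam C F k) (.inl v) = qv F k v := by
  unfold pq qv av
  have h1 : pend (gam C F k) (.inl v) =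
      Sum.inl '' pv F k v ∪ (fun i : Fin C => Sum.inr (v, i)) '' {i | i.1 < k v} := by
    ext w
    rcases w with y | p
    · rw [mem_pend_ll hk]
      simp
    · rw [mem_pend_lr]
      simp only [Set.mem_union, Set.mem_image, reduceCtorEq, and_false, exists_false, false_or,
        Set.mem_ofPred_eq, Sum.inr.injEq]
      constructor
      · rintro ⟨h1, h2⟩
        exact ⟨p.2, by rw [h1]; exact h2, by rw [h1]⟩
      · rintro ⟨i, h1, rfl⟩
        exact ⟨rfl, h1⟩
  rw [h1, Set.ncard_union_eq ?_ (Set.toFinite _) (Set.toFinite _),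
    Set.ncard_image_of_injective _ Sum.inl_injective,
    Set.ncard_image_of_injective _ (fun i j h => by simpa using h)]
  · congr 1
    have : ({i | i.1 < k v} : Set (Fin C)) = ((Finset.univ.filter fun i : Fin C => i.1 < k v) :) := by
      ext i
      simp
    rw [this, Set.ncard_coe_finset]
    have h2 : (Finset.univ.filter fun i : Fin C => i.1 < k v).card = min C (k v) :=
      Fin.card_filter_val_lt
    have := hk v
    omega
  · rw [Set.disjoint_left]
    rintro w ⟨y, -, rfl⟩ ⟨i, -, h⟩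
    simp at h

theorem av_le (v : V) : av F k v ≤ Nat.card V := by
  unfold av
  rw [← Set.ncard_univ]
  exact Set.ncard_le_ncard (Set.subset_univ _)

variable {Λ : ℕ}

theorem not_big_r (hΛ : 1 ≤ Λ) {p : V × Fin C} : ¬ big Λ (gam C F k) (.inr p) := by
  have := pq_r (F := F) (k := k) (p := p)
  unfold big
  omega

theorem big_l (hk : ∀ v, k v ≤ C) {v : V} :
    big Λ (gam C F k) (.inl v) ↔ Λ < qv F k v := by
  unfold big
  rw [pq_l hk]

theorem color_r (hΛ : 1 ≤ Λ) {p : V × Fin C} : color Λ (gam C F k) (.inr p) = 0 := by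
  unfold color
  rw [if_neg (not_big_r hΛ)]

theorem color_l (hk : ∀ v, k v ≤ C) {v : V} :
    color Λ (gam C F k) (.inl v) = if Λ < qv F k v then qv F k v else 0 := by
  unfold color
  rw [pq_l hk, if_congr (big_l hk) rfl rfl]

/-- Recolouring: the number `q` of pendant neighbours of a big vertex is changed to `κ q`. -/
noncomputable def rec (Λ : ℕ) (κ : ℕ → ℕ) (F : SimpleGraph V) (k : V → ℕ) (v : V) : ℕ :=
  if Λ < qv F k v then κ (qv F k v) - av F k v else k v

section rec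

variable {κ : ℕ → ℕ} (hΛ : Nat.card V ≤ Λ) (hκ : ∀ q, Λ < q → Λ < κ q)
include hΛ

theorem k_pos {v : V} (h : Λ < qv F k v) : 0 < k v := by
  have := av_le (F := F) (k := k) v
  unfold qv at h
  omega

include hκ

theorem rec_eq_zero {v : V} : rec Λ κ F k v = 0 ↔ k v = 0 := by
  unfold rec
  split_ifs with h
  · have h1 := av_le (F := F) (k := k) v
    have h2 := hκ _ h
    have h3 := k_pos hΛ h
    omega
  · rfl

theorem pv_rec (v : V) : pv F (rec Λ κ F k) v = pv F k v := by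
  ext y
  simp only [pv, Set.mem_ofPred_eq, rec_eq_zero hΛ hκ]

theorem av_rec (v : V) : av F (rec Λ κ F k) v = av F k v := by
  unfold av
  rw [pv_rec hΛ hκ]

theorem qv_rec (v : V) :
    qv F (rec Λ κ F k) v = if Λ < qv F k v then κ (qv F k v) else qv F k v := by
  have h1 := av_le (F := F) (k := k) v
  unfold qv
  rw [av_rec hΛ hκ]
  unfold rec
  split_ifs with h h' h'
  · have h2 := hκ _ h
    unfold qv at h2 ⊢
    omega
  · exact absurd h h'
  · exact absurd h' h
  · rfl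

theorem lt_qv_rec (v : V) : Λ < qv F (rec Λ κ F k) v ↔ Λ < qv F k v := by
  rw [qv_rec hΛ hκ]
  split_ifs with h
  · exact ⟨fun _ => h, fun _ => hκ _ h⟩
  · rfl

theorem core_rec (hΛ1 : 1 ≤ Λ) (hk : ∀ v, k v ≤ C) (hk' : ∀ v, rec Λ κ F k v ≤ C) :
    core Λ (gam C F (rec Λ κ F k)) = core Λ (gam C F k) := by
  ext w w'
  have hll : ∀ x y : V, (core Λ (gam C F (rec Λ κ F k))).Adj (.inl x) (.inl y) ↔
      (core Λ (gam C F k)).Adj (.inl x) (.inl y) := by
    intro x y
    show (F.Adj x y ∧ ¬(_ ∈ pend _ _ ∧ big _ _ _) ∧ ¬(_ ∈ pend _ _ ∧ big _ _ _)) ↔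
      (F.Adj x y ∧ ¬(_ ∈ pend _ _ ∧ big _ _ _) ∧ ¬(_ ∈ pend _ _ ∧ big _ _ _))
    simp only [mem_pend_ll hk, mem_pend_ll hk', big_l hk, big_l hk', lt_qv_rec hΛ hκ,
      pv_rec hΛ hκ]
  have hlr : ∀ (x : V) (p : V × Fin C), (core Λ (gam C F (rec Λ κ F k))).Adj (.inl x) (.inr p) ↔
      (core Λ (gam C F k)).Adj (.inl x) (.inr p) := by
    intro x p
    show ((x = p.1 ∧ p.2.1 < _) ∧ ¬(_ ∈ pend _ _ ∧ big _ _ _) ∧ ¬(_ ∈ pend _ _ ∧ big _ _ _)) ↔
      ((x = p.1 ∧ p.2.1 < _) ∧ ¬(_ ∈ pend _ _ ∧ big _ _ _) ∧ ¬(_ ∈ pend _ _ ∧ big _ _ _))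
    simp only [mem_pend_lr, big_l hk, big_l hk', lt_qv_rec hΛ hκ, not_big_r hΛ1, and_false,
      not_false_eq_true, and_true]
    by_cases hx : Λ < qv F k x
    · simp only [hx, and_true, and_not_self]
    · simp only [hx, and_false, not_false_eq_true, and_true]
      refine and_congr_right fun h => ?_
      rw [← h]
      unfold rec
      rw [if_neg hx]
  rcases w with x | p <;> rcases w' with y | p'
  · exact hll x y
  · exact hlr x p'
  · rw [SimpleGraph.adj_comm, SimpleGraph.adj_comm (core Λ (gam C F k))]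
    exact hlr y p
  · exact ⟨fun h => absurd h.1 gam_rr, fun h => absurd h.1 gam_rr⟩

theorem color_rec (hΛ1 : 1 ≤ Λ) (hk : ∀ v, k v ≤ C) (hk' : ∀ v, rec Λ κ F k v ≤ C)
    (w : V ⊕ V × Fin C) :
    color Λ (gam C F (rec Λ κ F k)) w =
      if color Λ (gam C F k) w = 0 then 0 else κ (color Λ (gam C F k) w) := by
  rcases w with x | p
  · rw [color_l hk, color_l hk', if_congr (lt_qv_rec hΛ hκ x) rfl rfl, qv_rec hΛ hκ]
    by_cases h : Λ < qv F k x
    · simp only [if_pos h]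
      rw [if_neg (by omega)]
    · simp only [if_neg h, if_true]
  · rw [color_r hΛ1, color_r hΛ1, if_pos rfl]

/-- Recolouring preserves and reflects isomorphism. -/
theorem iso_rec (hΛ1 : 1 ≤ Λ) (hk : ∀ v, k v ≤ C) (hk' : ∀ v, rec Λ κ F k v ≤ C)
    (hl : ∀ v, k' v ≤ C) (hl' : ∀ v, rec Λ κ F' k' v ≤ C) {X : Set ℕ} (hX : Set.InjOn κ X)
    (hkX : ∀ v, Λ < qv F k v → qv F k v ∈ X) (hlX : ∀ v, Λ < qv F' k' v → qv F' k' v ∈ X) :
    Nonempty (gam C F k ≃g gam C F' k') ↔
      Nonempty (gam C F (rec Λ κ F k) ≃g gam C F' (rec Λ κ F' k')) := by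
  rw [iso_iff_coreIso hΛ1, iso_iff_coreIso hΛ1]
  unfold CoreIso
  rw [core_rec hΛ hκ hΛ1 hk hk', core_rec hΛ hκ hΛ1 hl hl']
  have hc : ∀ (k : V → ℕ) (F : SimpleGraph V), (∀ v, k v ≤ C) →
      (∀ v, Λ < qv F k v → qv F k v ∈ X) → ∀ w : V ⊕ V × Fin C, color Λ (gam C F k) w ≠ 0 →
      color Λ (gam C F k) w ∈ X ∧ Λ < color Λ (gam C F k) w := by
    intro k F hk hkX w hw
    rcases w with x | p
    · rw [color_l hk] at hw ⊢
      by_cases h : Λ < qv F k x
      · rw [if_pos h]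
        exact ⟨hkX x h, h⟩
      · exact absurd (if_neg h) hw
    · exact absurd (color_r hΛ1) hw
  refine exists_congr fun e => forall_congr' fun v => ?_
  rw [color_rec hΛ hκ hΛ1 hk hk', color_rec hΛ hκ hΛ1 hl hl']
  by_cases h1 : color Λ (gam C F k) v = 0
  · rw [if_pos h1, h1]
    by_cases h2 : color Λ (gam C F' k') (e v) = 0
    · rw [if_pos h2, h2]
    · rw [if_neg h2]
      have h3 := hκ _ (hc k' F' hl hlX _ h2).2
      exact ⟨fun h => absurd h h2, fun h => by omega⟩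
  · rw [if_neg h1]
    by_cases h2 : color Λ (gam C F' k') (e v) = 0
    · rw [if_pos h2, h2]
      have h3 := hκ _ (hc k F hk hkX _ h1).2
      exact ⟨fun h => absurd h.symm h1, fun h => by omega⟩
    · rw [if_neg h2]
      exact ⟨fun h => by rw [h], fun h => hX (hc k' F' hl hlX _ h2).1 (hc k F hk hkX _ h1).1 h⟩

end rec

end Pool.Agent.Forest17
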