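import Pool.Agent.Lib.MP_17af9c_lc.Diff
import Pool.Agent.Lib.PolyTime.NatBin

/-!
# Postprocessing of the answers
-/

namespace Pool.Agent.Lib.SubForests

open Function Pool.Agent.Lib.PolyTime

/-- Blocks of a concatenation of lists of equal length. -/
theorem take_drop_flatMap {γ δ : Type*} (f : γ → List δ) (w : ℕ) (l : List γ)
    (h : ∀ x ∈ l, (f x).length = w) (k : ℕ) (hk : k < l.length) :
    ((l.flatMap f).drop (k * w)).take w = f l[k] := by
  induction l generalizing k with
  | nil => simp at hk
  | cons x l ih =>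
    have hx := h x (by simp)
    cases k with
    | zero =>
      rw [zero_mul, List.drop_zero, List.flatMap_cons, List.take_left' hx]
      rfl
    | succ k =>
      rw [List.flatMap_cons, Nat.succ_mul, add_comm, ← hx, ← List.drop_drop, List.drop_left, hx]
      exact ih (fun y hy => h y (by simp [hy])) k (by simpa using hk)

/-- The mixed difference computed from the block number `c` of the list of answers. -/
def mixed (a b c : ℕ) (ans : List ℤ) : ℤ :=
  deltaL b ((List.range (b + 1)).map fun j =>
    deltaL a ((ans.drop ((c * (b + 1) + j) * (a + 1))).take (a + 1)))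

theorem mixed_eq (a b c n : ℕ) (hc : c < n) (F : ℕ → ℕ → ℕ → ℤ) :
    mixed a b c ((List.range (n * (b + 1))).flatMap fun p =>
      (List.range (a + 1)).map (F (p / (b + 1)) (p % (b + 1)))) =
        dOp^[b] (fun j => dOp^[a] (F c j) 0) 0 := by
  rw [mixed, ← deltaL_range]
  congr 1
  refine List.map_congr_left fun j hj => ?_
  have hj : j < b + 1 := List.mem_range.1 hj
  have hlt : c * (b + 1) + j < (List.range (n * (b + 1))).length := by
    rw [List.length_range]
    have : (c + 1) * (b + 1) ≤ n * (b + 1) := Nat.mul_le_mul_right _ hc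
    nlinarith
  rw [take_drop_flatMap _ (a + 1) _ (fun x _ => by simp) _ hlt, List.getElem_range]
  have e1 : (c * (b + 1) + j) / (b + 1) = c := by
    rw [mul_comm, Nat.mul_add_div (by omega), Nat.div_eq_of_lt hj, add_zero]
  have e2 : (c * (b + 1) + j) % (b + 1) = j := by
    rw [mul_comm, Nat.mul_add_mod, Nat.mod_eq_of_lt hj]
  rw [e1, e2, deltaL_range]

/-- Numbers as integers. -/
def toZ (l : List ℕ) : List ℤ := l.map (Nat.cast : ℕ → ℤ)

/-- The postprocessing. -/
def post (n a b : ℕ) (ans : List ℕ) : ℕ :=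
  ((2 ^ n * (mixed a b 0 (toZ ans) - mixed a b 1 (toZ ans))) /
    (mixed a b 0 (toZ ans) - mixed a b 2 (toZ ans))).toNat

theorem post_eq (n a b N : ℕ) (F : ℕ → ℕ → ℕ → ℕ) (D : ℕ → ℤ)
    (hD : ∀ c, D c = dOp^[b] (fun j => dOp^[a] (fun i => (F c j i : ℤ)) 0) 0)
    (h : (N : ℤ) * (D 0 - D 2) = 2 ^ n * (D 0 - D 1)) (h0 : D 0 - D 2 ≠ 0) :
    post n a b ((List.range (3 * (b + 1))).flatMap fun p =>
      (List.range (a + 1)).map (F (p / (b + 1)) (p % (b + 1)))) = N := by
  have e : toZ ((List.range (3 * (b + 1))).flatMap fun p =>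
      (List.range (a + 1)).map (F (p / (b + 1)) (p % (b + 1)))) =
      (List.range (3 * (b + 1))).flatMap fun p =>
        (List.range (a + 1)).map (fun i => (F (p / (b + 1)) (p % (b + 1)) i : ℤ)) := by
    rw [toZ, List.map_flatMap]
    refine List.flatMap_congr fun p _ => ?_
    rw [List.map_map]
    rfl
  have hm : ∀ c < 3, mixed a b c (toZ ((List.range (3 * (b + 1))).flatMap fun p =>
      (List.range (a + 1)).map (F (p / (b + 1)) (p % (b + 1))))) = D c := by
    intro c hc
    rw [e, hD]
    exact mixed_eq a b c 3 hc (fun c j i => (F c j i : ℤ))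
  rw [post, hm 0 (by norm_num), hm 1 (by norm_num), hm 2 (by norm_num), ← h,
    Int.mul_ediv_cancel _ h0, Int.toNat_natCast]

section

variable {α β : Type*} [TEnc α] [TEnc β]

theorem polyF_mixed {a b c : α → ℕ} {l : α → List ℤ} (ha : PolyF a) (hb : PolyF b) (hc : PolyF c)
    (hl : PolyF l) : PolyF (fun x => mixed (a x) (b x) (c x) (l x)) := by
  refine polyF_deltaL hb (hb.succ.range.map (h := fun x j =>
    deltaL (a x) (((l x).drop ((c x * (b x + 1) + j) * (a x + 1))).take (a x + 1))) ?_)
  refine polyF_deltaL (ha.comp PolyF.fst') (PolyF.take (ha.comp PolyF.fst').succ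
    (PolyF.drop ?_ (hl.comp PolyF.fst')))
  exact ((((hc.comp PolyF.fst').natMul (hb.comp PolyF.fst').succ).natAdd PolyF.snd').natMul
    (ha.comp PolyF.fst').succ)

theorem polyF_post {n a b : α → ℕ} (hn : PolyF n) (ha : PolyF a) (hb : PolyF b) :
    PolyF (α := α × List NBin) (β := NBin) (fun p => post (n p.1) (a p.1) (b p.1) p.2) := by
  have hl : PolyF (fun p : α × List NBin => toZ p.2) :=
    PolyF.snd'.map (h := fun _ (x : NBin) => (Nat.cast (show ℕ from x) : ℤ))
      ((PolyF.snd').toBin.intOfBin)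
  have ha' : PolyF (fun p : α × List NBin => a p.1) := ha.comp PolyF.fst'
  have hb' : PolyF (fun p : α × List NBin => b p.1) := hb.comp PolyF.fst'
  have hn' : PolyF (fun p : α × List NBin => n p.1) := hn.comp PolyF.fst'
  have h0 := polyF_mixed ha' hb' (PolyF.const 0) hl
  have h1 := polyF_mixed ha' hb' (PolyF.const 1) hl
  have h2 := polyF_mixed ha' hb' (PolyF.const 2) hl
  exact (((hn'.intTwoPow.intMul (h0.intSub h1)).intEdiv (h0.intSub h2)).intToNat).ofBin

end

end Pool.Agent.Lib.SubForests
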