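import Pool.Agent.Lib.MP_17af9c_lc.SpiderPoly
import Pool.Agent.Lib.MP_17af9c_lc.PostB
import Pool.Agent.Lib.MP_17af9c_lc.Trans

/-!
# The nonadaptive reduction, given the counting identity
-/

namespace Pool.Agent.Lib.SubForests

open Function Pool.Agent.Lib.PolyTime Pool.Agent.Lib.CookLevin

/-- The mixed difference of the numbers of subforests of spiders. -/
noncomputable def mixedDiff (bx : List (List Bool)) (N a b m₀ μ₀ : ℕ) : ℤ :=
  dOp^[b] (fun j => dOp^[a] (fun i =>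
    (numSub (spider bx.length N (leavesOf bx (m₀ + j) (μ₀ + i))) : ℤ)) 0) 0

/-- The list of queries. -/
def queries (bx : ℕ → List (List Bool)) (N a b m₀ μ₀ : ℕ) : List Tree :=
  (List.range (3 * (b + 1))).flatMap fun p =>
    (List.range (a + 1)).map fun i => boxTree (bx (p / (b + 1))) N (m₀ + p % (b + 1)) (μ₀ + i)

/-- The values at the queries. -/
noncomputable def numF (bx : ℕ → List (List Bool)) (N m₀ μ₀ c j i : ℕ) : ℕ :=
  numSub (spider (bx c).length N (leavesOf (bx c) (m₀ + j) (μ₀ + i)))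

theorem post_queries (bx : ℕ → List (List Bool)) (N n a b m₀ μ₀ c : ℕ)
    (h : (c : ℤ) * (mixedDiff (bx 0) N a b m₀ μ₀ - mixedDiff (bx 2) N a b m₀ μ₀) =
      2 ^ n * (mixedDiff (bx 0) N a b m₀ μ₀ - mixedDiff (bx 1) N a b m₀ μ₀))
    (h0 : mixedDiff (bx 0) N a b m₀ μ₀ - mixedDiff (bx 2) N a b m₀ μ₀ ≠ 0) :
    post n a b ((queries bx N a b m₀ μ₀).map numSubforests) = c := by
  have e : (queries bx N a b m₀ μ₀).map numSubforests =
      (List.range (3 * (b + 1))).flatMap fun p => (List.range (a + 1)).map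
        (numF bx N m₀ μ₀ (p / (b + 1)) (p % (b + 1))) := by
    rw [queries, List.map_flatMap]
    refine List.flatMap_congr fun p _ => ?_
    rw [List.map_map]
    refine List.map_congr_left fun i _ => ?_
    exact numSubforests_boxTree _ _ _ _
  have hD : ∀ c, mixedDiff (bx c) N a b m₀ μ₀ =
      dOp^[b] (fun j => dOp^[a] (fun i => (numF bx N m₀ μ₀ c j i : ℤ)) 0) 0 := fun c => by
    unfold mixedDiff numF
    rfl
  rw [e]
  exact post_eq n a b c (numF bx N m₀ μ₀) (fun c => mixedDiff (bx c) N a b m₀ μ₀) hD h h0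

theorem polyF_queries {α : Type*} [TEnc α] {bx : α → ℕ → List (List Bool)}
    {N a b m₀ μ₀ : α → ℕ} (hbx : PolyF (fun p : α × ℕ => bx p.1 p.2)) (hN : PolyF N)
    (ha : PolyF a) (hb : PolyF b) (hm : PolyF m₀) (hμ : PolyF μ₀) :
    PolyF (fun x => queries (bx x) (N x) (a x) (b x) (m₀ x) (μ₀ x)) := by
  refine ((PolyF.const 3).natMul hb.succ).range.flatMap (h := fun x p =>
    (List.range (a x + 1)).map fun i =>
      boxTree (bx x (p / (b x + 1))) (N x) (m₀ x + p % (b x + 1)) (μ₀ x + i)) ?_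
  refine (ha.comp PolyF.fst').succ.range.map (h := fun (q : α × ℕ) i =>
    boxTree (bx q.1 (q.2 / (b q.1 + 1))) (N q.1) (m₀ q.1 + q.2 % (b q.1 + 1)) (μ₀ q.1 + i)) ?_
  have hb' : PolyF (fun p : (α × ℕ) × ℕ => b p.1.1 + 1) := (hb.comp PolyF.fst'.fst).succ
  exact polyF_boxTree (hbx.comp (PolyF.fst'.fst.pair (PolyF.fst'.snd.natDiv hb')))
    (hN.comp PolyF.fst'.fst) ((hm.comp PolyF.fst'.fst).natAdd (PolyF.fst'.snd.natMod hb'))
    ((hμ.comp PolyF.fst'.fst).natAdd PolyF.snd')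

/-- The reduction, given the counting identity for well formed formulas. -/
theorem ttRed_of_identity (bx : CNF → ℕ → List (List Bool)) (N n a b m₀ μ₀ : CNF → ℕ)
    (hbx : PolyF (fun p : CNF × ℕ => bx p.1 p.2)) (hN : PolyF N) (hn : PolyF n)
    (ha : PolyF a) (hb : PolyF b) (hm : PolyF m₀) (hμ : PolyF μ₀)
    (h : ∀ φ : CNF, CNF.Wf φ →
      (count φ : ℤ) * (mixedDiff (bx φ 0) (N φ) (a φ) (b φ) (m₀ φ) (μ₀ φ) -
        mixedDiff (bx φ 2) (N φ) (a φ) (b φ) (m₀ φ) (μ₀ φ)) =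
      2 ^ n φ * (mixedDiff (bx φ 0) (N φ) (a φ) (b φ) (m₀ φ) (μ₀ φ) -
        mixedDiff (bx φ 1) (N φ) (a φ) (b φ) (m₀ φ) (μ₀ φ)) ∧
      mixedDiff (bx φ 0) (N φ) (a φ) (b φ) (m₀ φ) (μ₀ φ) -
        mixedDiff (bx φ 2) (N φ) (a φ) (b φ) (m₀ φ) (μ₀ φ) ≠ 0)
    {f : List Bool → ℕ} {g : List Bool → CNF} (hg : PolyF g) (hwf : ∀ x, CNF.Wf (g x))
    (hf : ∀ x, f x = count (g x)) {eb : Tree → List Bool} (hw : GoodWord eb) :
    TTRed (fun w => w) f eb numSubforests := by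
  have hq : PolyF (fun x => queries (bx (g x)) (N (g x)) (a (g x)) (b (g x)) (m₀ (g x))
      (μ₀ (g x))) := (polyF_queries hbx hN ha hb hm hμ).comp hg
  have hh : PolyF (α := List Bool × List NBin) (β := NBin)
      (fun p => post (n (g p.1)) (a (g p.1)) (b (g p.1)) p.2) :=
    polyF_post (n := fun x => n (g x)) (a := fun x => a (g x)) (b := fun x => b (g x))
      (hn.comp hg) (ha.comp hg) (hb.comp hg)
  have hx : ∀ x, f x = post (n (g x)) (a (g x)) (b (g x))
      ((queries (bx (g x)) (N (g x)) (a (g x)) (b (g x)) (m₀ (g x)) (μ₀ (g x))).map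
        numSubforests) := by
    intro x
    rw [hf]
    obtain ⟨h1, h2⟩ := h (g x) (hwf x)
    exact (post_queries _ _ _ _ _ _ _ _ h1 h2).symm
  exact ttRed_of_polyF goodWord_id hw _ _ hq hh hx

end Pool.Agent.Lib.SubForests
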