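import Pool.Agent.Lib.PolyTime.Sharp

/-!
# Polynomial hashing over `F_2[X]`

A set `S` of bit strings of length `q` is turned into the polynomial
`∑_{w ∈ S} ∏_{w_i = 1} r_i` with random `r_i ∈ F_2[X]` of degree `< t`. It vanishes for empty `S`,
and with probability at most `q / 2 ^ t` for nonempty `S`.
-/

namespace Pool.Agent.Lib.MP17af9c

open Pool.Agent.Lib.PolyTime Polynomial

/-! ### Sums over bit strings -/

theorem sumB_comm (m n : ℕ) (f : List Bool → List Bool → ℕ) :
    sumB m (fun a => sumB n (fun b => f a b)) = sumB n (fun b => sumB m (fun a => f a b)) := by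
  induction m generalizing f with
  | zero => rfl
  | succ m ih =>
    simp only [sumB]
    rw [sumB_add]
    rw [ih (fun a b => f (false :: a) b), ih (fun a b => f (true :: a) b)]

theorem sumB_le_one {t : ℕ} {P : List Bool → Bool}
    (h : ∀ a b, a.length = t → b.length = t → P a = true → P b = true → a = b) :
    sumB t (fun a => (P a).toNat) ≤ 1 := by
  rw [← card_eq_sumB]
  have hfin : Finite {w : List Bool // w.length = t ∧ P w = true} :=
    Finite.of_injective (β := List.Vector Bool t) (fun w => ⟨w.1, w.2.1⟩)
      fun a b h => Subtype.ext (congrArg (fun v : List.Vector Bool t => v.1) h)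
  rw [Finite.card_le_one_iff_subsingleton]
  exact ⟨fun a b => Subtype.ext (h a.1 b.1 a.2.1 b.2.1 a.2.2 b.2.2)⟩

/-! ### Polynomials over `F_2` as bit strings -/

/-- The coefficient of a bit. -/
def co (b : Bool) : ZMod 2 := if b then 1 else 0

theorem co_inj {a b : Bool} (h : co a = co b) : a = b := by
  cases a <;> cases b <;> simp_all [co]

theorem co_toNat (b : Bool) : ((b.toNat : ℕ) : ZMod 2) = co b := by cases b <;> simp [co]

/-- The polynomial of a bit string. -/
noncomputable def toP (a : List Bool) : (ZMod 2)[X] :=
  ∑ l ∈ Finset.range a.length, Polynomial.monomial l (co (a.getD l false))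

theorem coeff_toP (a : List Bool) (l : ℕ) : (toP a).coeff l = co (a.getD l false) := by
  unfold toP
  rw [Polynomial.finsetSum_coeff]
  simp only [Polynomial.coeff_monomial]
  rw [Finset.sum_ite_eq']
  split_ifs with h
  · rfl
  · simp only [Finset.mem_range, not_lt] at h
    rw [List.getD_eq_default _ _ h]
    rfl

theorem toP_inj {a b : List Bool} (hl : a.length = b.length) (h : toP a = toP b) : a = b := by
  refine List.ext_getElem hl fun i h1 h2 => ?_
  have h3 := congrArg (fun p => Polynomial.coeff p i) h
  simp only [coeff_toP] at h3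
  have h4 := co_inj h3
  rwa [List.getD_eq_getElem _ _ h1, List.getD_eq_getElem _ _ h2] at h4

theorem natDegree_toP_le (a : List Bool) : (toP a).natDegree ≤ a.length := by
  rw [Polynomial.natDegree_le_iff_coeff_eq_zero]
  intro N hN
  rw [coeff_toP, List.getD_eq_default _ _ hN.le]
  rfl

/-- The hash polynomial of the set of bit strings `w` of length `q` with `S w`. -/
noncomputable def PS (t : ℕ) : ℕ → (List Bool → Bool) → List Bool → (ZMod 2)[X]
  | 0, S, _ => if S [] = true then 1 else 0
  | q + 1, S, r => PS t q (fun w => S (false :: w)) (r.drop t) +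
      toP (r.take t) * PS t q (fun w => S (true :: w)) (r.drop t)

theorem PS_empty (t : ℕ) : ∀ (q : ℕ) (S : List Bool → Bool) (r : List Bool),
    (∀ w, w.length = q → S w = false) → PS t q S r = 0 := by
  intro q
  induction q with
  | zero => intro S r h; simp [PS, h [] rfl]
  | succ q ih =>
    intro S r h
    simp only [PS]
    rw [ih _ _ fun w hw => h _ (by simp [hw]), ih _ _ fun w hw => h _ (by simp [hw])]
    simp

theorem natDegree_PS_le (t : ℕ) : ∀ (q : ℕ) (S : List Bool → Bool) (r : List Bool),
    (PS t q S r).natDegree ≤ q * t := by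
  intro q
  induction q with
  | zero =>
    intro S r
    simp only [PS]
    split_ifs <;> simp
  | succ q ih =>
    intro S r
    simp only [PS]
    refine (Polynomial.natDegree_add_le _ _).trans (max_le ?_ ?_)
    · exact (ih _ _).trans (Nat.mul_le_mul_right t (Nat.le_succ q))
    · refine Polynomial.natDegree_mul_le.trans ?_
      have h1 := natDegree_toP_le (r.take t)
      have h2 := ih (fun w => S (true :: w)) (r.drop t)
      have h3 : (r.take t).length ≤ t := by simp
      rw [Nat.succ_mul]
      omega

/-- Schwartz–Zippel for hash polynomials. -/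
theorem card_PS_zero (t : ℕ) : ∀ (q : ℕ) (S : List Bool → Bool), (∃ w, w.length = q ∧ S w = true) →
    sumB (q * t) (fun r => (decide (PS t q S r = 0)).toNat) * 2 ^ t ≤ q * 2 ^ (q * t) := by
  intro q
  induction q with
  | zero =>
    rintro S ⟨w, hw, hS⟩
    have : w = [] := List.length_eq_zero_iff.1 hw
    subst this
    simp [sumB, PS, hS]
  | succ q ih =>
    intro S hS
    have e1 : (q + 1) * t = t + q * t := by ring
    have e2 : sumB ((q + 1) * t) (fun r => (decide (PS t (q + 1) S r = 0)).toNat) =
        sumB (q * t) (fun r => sumB t (fun a => (decide (PS t q (fun w => S (false :: w)) r +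
          toP a * PS t q (fun w => S (true :: w)) r = 0)).toNat)) := by
      rw [e1]
      have := sumB_split t (q * t) (fun a r => (decide (PS t q (fun w => S (false :: w)) r +
          toP a * PS t q (fun w => S (true :: w)) r = 0)).toNat)
      rw [sumB_comm] at this
      exact this
    rw [e2]
    have hpow : 2 ^ ((q + 1) * t) = 2 ^ t * 2 ^ (q * t) := by rw [e1, pow_add]
    by_cases h1 : ∃ w, w.length = q ∧ S (true :: w) = true
    · have hle : sumB (q * t) (fun r => sumB t (fun a => (decide (PS t q (fun w => S (false :: w)) r +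
          toP a * PS t q (fun w => S (true :: w)) r = 0)).toNat)) ≤
          2 ^ (q * t) + 2 ^ t * sumB (q * t)
            (fun r => (decide (PS t q (fun w => S (true :: w)) r = 0)).toNat) := by
        have : 2 ^ (q * t) + 2 ^ t * sumB (q * t)
            (fun r => (decide (PS t q (fun w => S (true :: w)) r = 0)).toNat) =
            sumB (q * t) (fun r => 1 + 2 ^ t *
              (decide (PS t q (fun w => S (true :: w)) r = 0)).toNat) := by
          rw [sumB_add, sumB_const, sumB_mul_left, mul_one]
        rw [this]
        refine sumB_le fun r _ => ?_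
        by_cases hz : PS t q (fun w => S (true :: w)) r = 0
        · have : sumB t (fun a => (decide (PS t q (fun w => S (false :: w)) r +
              toP a * PS t q (fun w => S (true :: w)) r = 0)).toNat) ≤ sumB t (fun _ => 1) :=
            sumB_le fun a _ => Bool.toNat_le _
          rw [sumB_const] at this
          simp only [hz, decide_true, Bool.toNat_true]
          simp only [hz] at this
          omega
        · have : sumB t (fun a => (decide (PS t q (fun w => S (false :: w)) r +
              toP a * PS t q (fun w => S (true :: w)) r = 0)).toNat) ≤ 1 := by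
            refine sumB_le_one fun a b ha hb h3 h4 => ?_
            simp only [decide_eq_true_eq] at h3 h4
            refine toP_inj (ha.trans hb.symm) ?_
            have h5 : toP a * PS t q (fun w => S (true :: w)) r =
                toP b * PS t q (fun w => S (true :: w)) r := by
              have := h3.trans h4.symm
              exact add_left_cancel this
            exact mul_right_cancel₀ hz h5
          omega
      have h2 := ih (fun w => S (true :: w)) h1
      calc _ ≤ (2 ^ (q * t) + 2 ^ t * sumB (q * t)
            (fun r => (decide (PS t q (fun w => S (true :: w)) r = 0)).toNat)) * 2 ^ t :=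
          Nat.mul_le_mul_right _ hle
        _ = 2 ^ t * 2 ^ (q * t) + 2 ^ t * (sumB (q * t)
            (fun r => (decide (PS t q (fun w => S (true :: w)) r = 0)).toNat) * 2 ^ t) := by ring
        _ ≤ 2 ^ t * 2 ^ (q * t) + 2 ^ t * (q * 2 ^ (q * t)) :=
          Nat.add_le_add_left (Nat.mul_le_mul_left _ h2) _
        _ = (q + 1) * 2 ^ ((q + 1) * t) := by rw [hpow]; ring
    · have h1' : ∀ w, w.length = q → S (true :: w) = false := fun w hw => by
        by_contra hc
        exact h1 ⟨w, hw, by simpa using hc⟩
      have h0 : ∃ w, w.length = q ∧ S (false :: w) = true := by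
        obtain ⟨w, hw, hS⟩ := hS
        match w, hw, hS with
        | [], hw, _ => simp at hw
        | false :: w, hw, hS => exact ⟨w, by simpa using hw, hS⟩
        | true :: w, hw, hS => exact absurd ⟨w, by simpa using hw, hS⟩ h1
      have h2 := ih (fun w => S (false :: w)) h0
      simp only [PS_empty t q (fun w => S (true :: w)) _ h1', mul_zero, add_zero]
      simp only [sumB_const, sumB_mul_left]
      calc _ = 2 ^ t * (sumB (q * t)
            (fun r => (decide (PS t q (fun w => S (false :: w)) r = 0)).toNat) * 2 ^ t) := by ring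
        _ ≤ 2 ^ t * (q * 2 ^ (q * t)) := Nat.mul_le_mul_left _ h2
        _ ≤ (q + 1) * 2 ^ ((q + 1) * t) := by rw [hpow]; nlinarith [Nat.zero_le (2 ^ t * 2 ^ (q * t))]

/-! ### Coefficients of products, as bit strings -/

/-- The first `L` coefficients of a product. -/
def mulT (L : ℕ) (a c : List Bool) : List Bool :=
  (List.range L).map fun l =>
    decide (((List.range (l + 1)).filter
      (fun j => a.getD j false && c.getD (l - j) false)).length % 2 = 1)

/-- The first `L` coefficients of `p` are given by `c`. -/
def Rep (L : ℕ) (c : List Bool) (p : (ZMod 2)[X]) : Prop :=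
  ∀ l < L, p.coeff l = co (c.getD l false)

theorem co_parity (n : ℕ) : co (decide (n % 2 = 1)) = (n : ZMod 2) := by
  rcases Nat.mod_two_eq_zero_or_one n with h | h
  · have : (n : ZMod 2) = 0 := (ZMod.natCast_eq_zero_iff n 2).2 (Nat.dvd_of_mod_eq_zero h)
    simp [h, co, this]
  · have : (n : ZMod 2) = 1 := by
      have h2 : n = 2 * (n / 2) + 1 := by omega
      rw [h2]
      push_cast
      have : (2 : ZMod 2) = 0 := rfl
      rw [this]
      simp
    simp [h, co, this]

theorem length_filter_range (n : ℕ) (f : ℕ → Bool) :
    (((List.range n).filter f).length : ZMod 2) = ∑ j ∈ Finset.range n, co (f j) := by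
  induction n with
  | zero => simp
  | succ n ih =>
    rw [List.range_succ, List.filter_append, List.length_append, Finset.sum_range_succ, ← ih]
    push_cast
    congr 1
    cases h : f n <;> simp [List.filter_cons, h, co]

theorem co_and (a b : Bool) : co (a && b) = co a * co b := by cases a <;> cases b <;> simp [co]

theorem Rep.mulT {L : ℕ} {c : List Bool} {p : (ZMod 2)[X]} (h : Rep L c p) (a : List Bool) :
    Rep L (mulT L a c) (toP a * p) := by
  intro l hl
  rw [Polynomial.coeff_mul, Finset.Nat.sum_antidiagonal_eq_sum_range_succ_mk]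
  have e : (MP17af9c.mulT L a c).getD l false = decide (((List.range (l + 1)).filter
      (fun j => a.getD j false && c.getD (l - j) false)).length % 2 = 1) := by
    unfold MP17af9c.mulT
    rw [List.getD_eq_getElem _ _ (by simpa using hl)]
    simp
  rw [e, co_parity, length_filter_range]
  refine Finset.sum_congr rfl fun j hj => ?_
  rw [Finset.mem_range] at hj
  rw [co_and, coeff_toP, h (l - j) (by omega)]

theorem rep_one (L : ℕ) : Rep L [true] 1 := by
  intro l _
  rw [Polynomial.coeff_one]
  cases l with
  | zero => simp [co]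
  | succ l => simp [co]

/-- The first `L` coefficients of the monomial of `w` (times `acc`). -/
def monoT (L t : ℕ) (w r acc : List Bool) : List Bool :=
  (w.foldl (fun (s : List Bool × List Bool) b =>
    (s.1.drop t, if b = true then mulT L (s.1.take t) s.2 else s.2)) (r, acc)).2

theorem monoT_nil (L t : ℕ) (r acc : List Bool) : monoT L t [] r acc = acc := rfl

theorem monoT_false (L t : ℕ) (w r acc : List Bool) :
    monoT L t (false :: w) r acc = monoT L t w (r.drop t) acc := rfl

theorem monoT_true (L t : ℕ) (w r acc : List Bool) :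
    monoT L t (true :: w) r acc = monoT L t w (r.drop t) (mulT L (r.take t) acc) := rfl

theorem coeff_PS_aux (L t l : ℕ) (hl : l < L) : ∀ (q : ℕ) (S : List Bool → Bool)
    (r acc : List Bool) (p : (ZMod 2)[X]), Rep L acc p →
    ((sumB q (fun w => (S w && (monoT L t w r acc).getD l false).toNat) : ℕ) : ZMod 2) =
      (PS t q S r * p).coeff l := by
  intro q
  induction q with
  | zero =>
    intro S r acc p h
    simp only [sumB, monoT_nil, PS]
    rw [co_toNat, co_and]
    cases hS : S [] with
    | false => simp [co]
    | true => simp [co, h l hl]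
  | succ q ih =>
    intro S r acc p h
    simp only [sumB, monoT_false, monoT_true, PS]
    push_cast
    rw [ih (fun w => S (false :: w)) (r.drop t) acc p h,
      ih (fun w => S (true :: w)) (r.drop t) _ _ (h.mulT (r.take t))]
    rw [add_mul, Polynomial.coeff_add]
    congr 2
    ring

/-- The parities of the coefficients of the hash polynomial. -/
theorem coeff_PS (L t q l : ℕ) (hl : l < L) (S : List Bool → Bool) (r : List Bool) :
    ((sumB q (fun w => (S w && (monoT L t w r [true]).getD l false).toNat) : ℕ) : ZMod 2) =
      (PS t q S r).coeff l := by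
  rw [coeff_PS_aux L t l hl q S r [true] 1 (rep_one L), mul_one]

/-- The product which is odd exactly if the hash polynomial vanishes. -/
def zProd (t q : ℕ) (S : List Bool → Bool) (r : List Bool) : ℕ :=
  ((List.range (q * t + 1)).map (fun l =>
    1 + sumB q (fun w => (S w && (monoT (q * t + 1) t w r [true]).getD l false).toNat))).prod

theorem prod_mod_two (l : List ℕ) : l.prod % 2 = 1 ↔ ∀ a ∈ l, a % 2 = 1 := by
  induction l with
  | nil => simp
  | cons a l ih =>
    rw [List.prod_cons, List.forall_mem_cons, ← ih, Nat.mul_mod]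
    rcases Nat.mod_two_eq_zero_or_one a with h | h <;>
      rcases Nat.mod_two_eq_zero_or_one l.prod with h' | h' <;> simp [h, h']

theorem zProd_odd (t q : ℕ) (S : List Bool → Bool) (r : List Bool) :
    zProd t q S r % 2 = 1 ↔ PS t q S r = 0 := by
  unfold zProd
  rw [prod_mod_two]
  constructor
  · intro h
    refine Polynomial.ext fun l => ?_
    rw [Polynomial.coeff_zero]
    by_cases hl : l < q * t + 1
    · rw [← coeff_PS (q * t + 1) t q l hl S r, ZMod.natCast_eq_zero_iff]
      have := h _ (List.mem_map.2 ⟨l, List.mem_range.2 hl, rfl⟩)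
      omega
    · exact Polynomial.coeff_eq_zero_of_natDegree_lt
        (lt_of_le_of_lt (natDegree_PS_le t q S r) (by omega))
  · intro h a ha
    obtain ⟨l, hl, rfl⟩ := List.mem_map.1 ha
    have := coeff_PS (q * t + 1) t q l (List.mem_range.1 hl) S r
    rw [h, Polynomial.coeff_zero, ZMod.natCast_eq_zero_iff] at this
    omega

/-! ### Modulus amplification -/

theorem amplify (K z : ℕ) (hK : 0 < K) :
    (1 + (2 ^ K - 1) * z ^ K) ^ K ≡ (if z % 2 = 1 then 0 else 1) [MOD 2 ^ K] := by
  have hone : 1 ≤ 2 ^ K := Nat.one_le_two_pow
  rcases Nat.mod_two_eq_zero_or_one z with hz | hz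
  · have h1 : 2 ^ K ∣ z ^ K := pow_dvd_pow_of_dvd (Nat.dvd_of_mod_eq_zero hz) K
    have h2 : 1 + (2 ^ K - 1) * z ^ K ≡ 1 [MOD 2 ^ K] := by
      have := Nat.modEq_zero_iff_dvd.2 (h1.mul_left (2 ^ K - 1))
      simpa only [add_zero] using (Nat.ModEq.refl 1).add this
    rw [if_neg (by omega)]
    simpa only [one_pow] using h2.pow K
  · rw [if_pos hz]
    have h1 : 2 ∣ 1 + (2 ^ K - 1) * z ^ K := by
      have e1 : (2 ^ K - 1) % 2 = 1 := by
        obtain ⟨e, he⟩ : 2 ∣ 2 ^ K := dvd_pow_self 2 (by omega)
        omega
      have e2 : z ^ K % 2 = 1 := by simp [Nat.pow_mod, hz]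
      have e3 : (2 ^ K - 1) * z ^ K % 2 = 1 := by rw [Nat.mul_mod, e1, e2]
      omega
    exact Nat.modEq_zero_iff_dvd.2 (pow_dvd_pow_of_dvd h1 K)

/-- A number that is `1` modulo `2 ^ K` if `z` is odd and `0` otherwise. -/
def amp (K z : ℕ) : ℕ := 1 + (2 ^ K - 1) * (1 + (2 ^ K - 1) * z ^ K) ^ K

theorem amp_mod (K z : ℕ) (hK : 0 < K) : amp K z ≡ (decide (z % 2 = 1)).toNat [MOD 2 ^ K] := by
  unfold amp
  have hone : 1 ≤ 2 ^ K := Nat.one_le_two_pow
  have h := (Nat.ModEq.refl 1).add ((Nat.ModEq.refl (2 ^ K - 1)).mul (amplify K z hK))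
  refine h.trans ?_
  by_cases hz : z % 2 = 1
  · rw [if_pos hz]; simp [hz, Nat.ModEq]
  · rw [if_neg hz]
    have : 1 + (2 ^ K - 1) * 1 = 2 ^ K := by omega
    rw [this]
    simp [hz, Nat.ModEq]

end Pool.Agent.Lib.MP17af9c
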