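import Pool.Agent.Lib.MP_17af9c_lc.Count

/-!
# Inclusion-exclusion over the optional colours
-/

namespace Pool.Agent.Forest17

open Classical

variable {W : Type*} [Finite W] {Λ : ℕ}

/-- The colours of a class. -/
noncomputable def colS (Λ : ℕ) (c : Quotient (isoSetoid W)) : Set ℕ :=
  Quotient.lift (fun A : SimpleGraph W => Set.range (color Λ A)) (by
    rintro A B ⟨e⟩
    obtain ⟨f, hf⟩ := coreIso_of_iso (Λ := Λ) e
    ext x
    constructor
    · rintro ⟨w, rfl⟩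
      exact ⟨f w, hf w⟩
    · rintro ⟨w, rfl⟩
      refine ⟨f.symm w, ?_⟩
      rw [← hf]
      simp) c

theorem colS_mk (A : SimpleGraph W) : colS Λ (Quotient.mk _ A) = Set.range (color Λ A) := rfl

theorem cls_filter (T : Set (SimpleGraph W)) (P : Set ℕ → Prop) :
    cls {A ∈ T | P (Set.range (color Λ A))} =
      ((Set.toFinite (Quotient.mk (isoSetoid W) '' T)).toFinset.filter
        fun c => P (colS Λ c)).card := by
  unfold cls
  rw [← Set.ncard_coe_finset]
  congr 1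
  ext c
  simp only [Set.mem_image, Finset.coe_filter, Set.Finite.mem_toFinset, Set.mem_ofPred_eq]
  constructor
  · rintro ⟨A, ⟨h1, h2⟩, rfl⟩
    exact ⟨⟨A, h1, rfl⟩, h2⟩
  · rintro ⟨⟨A, h1, rfl⟩, h2⟩
    exact ⟨A, ⟨h1, h2⟩, rfl⟩

theorem sum_powerset_disjoint (S : Set ℕ) (O : Finset ℕ) :
    (∑ X ∈ O.powerset, (-1 : ℤ) ^ X.card * (if Disjoint S (X : Set ℕ) then 1 else 0)) =
      if (O : Set ℕ) ⊆ S then 1 else 0 := by
  have h1 : (O.powerset.filter fun X : Finset ℕ => Disjoint S (X : Set ℕ)) =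
      (O.filter fun x => x ∉ S).powerset := by
    ext X
    simp only [Finset.mem_filter, Finset.mem_powerset, Finset.subset_iff, Set.disjoint_right,
      Finset.mem_coe]
    constructor
    · rintro ⟨h1, h2⟩ x hx
      exact ⟨h1 hx, h2 hx⟩
    · intro h
      exact ⟨fun x hx => (h hx).1, fun x hx => (h hx).2⟩
  simp only [mul_ite, mul_one, mul_zero]
  rw [← Finset.sum_filter, h1, Finset.sum_powerset_neg_one_pow_card]
  refine if_congr ?_ rfl rfl
  rw [Finset.filter_eq_empty_iff]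
  constructor
  · intro h x hx
    by_contra h2
    exact h (Finset.mem_coe.1 hx) h2
  · intro h x hx h2
    exact h2 (h (Finset.mem_coe.2 hx))

theorem incl_excl (T : Set (SimpleGraph W)) (O₁ O₂ : Finset ℕ) :
    (∑ X ∈ O₁.powerset, ∑ Y ∈ O₂.powerset, (-1 : ℤ) ^ (X.card + Y.card) *
      (cls {A ∈ T | ∀ w, color Λ A w ∉ X ∪ Y} : ℤ)) =
      (cls {A ∈ T | ∀ x ∈ O₁ ∪ O₂, ∃ w, color Λ A w = x} : ℤ) := by
  set Q := (Set.toFinite (Quotient.mk (isoSetoid W) '' T)).toFinset with hQ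
  have h1 : ∀ X Y : Finset ℕ, (cls {A ∈ T | ∀ w, color Λ A w ∉ X ∪ Y} : ℤ) =
      ∑ c ∈ Q, (if Disjoint (colS Λ c) (X : Set ℕ) then 1 else 0) *
        (if Disjoint (colS Λ c) (Y : Set ℕ) then 1 else 0) := by
    intro X Y
    have h := cls_filter (Λ := Λ) T (fun S => Disjoint S ((X : Set ℕ) ∪ Y))
    have h2 : {A ∈ T | ∀ w, color Λ A w ∉ X ∪ Y} =
        {A ∈ T | Disjoint (Set.range (color Λ A)) ((X : Set ℕ) ∪ Y)} := by
      ext A
      refine and_congr_right fun _ => ?_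
      rw [Set.disjoint_left]
      constructor
      · rintro h _ ⟨w, rfl⟩
        simpa using h w
      · intro h w
        simpa using h ⟨w, rfl⟩
    rw [h2, h, Finset.card_filter]
    push_cast
    refine Finset.sum_congr rfl fun c _ => ?_
    rw [if_congr (Set.disjoint_union_right) rfl rfl]
    by_cases h3 : Disjoint (colS Λ c) (X : Set ℕ) <;>
      by_cases h4 : Disjoint (colS Λ c) (Y : Set ℕ) <;> simp [h3, h4]
  have h3 : (cls {A ∈ T | ∀ x ∈ O₁ ∪ O₂, ∃ w, color Λ A w = x} : ℤ) =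
      ∑ c ∈ Q, (if (O₁ : Set ℕ) ⊆ colS Λ c then 1 else 0) *
        (if (O₂ : Set ℕ) ⊆ colS Λ c then 1 else 0) := by
    have h := cls_filter (Λ := Λ) T (fun S => (O₁ : Set ℕ) ∪ O₂ ⊆ S)
    have h2 : {A ∈ T | ∀ x ∈ O₁ ∪ O₂, ∃ w, color Λ A w = x} =
        {A ∈ T | (O₁ : Set ℕ) ∪ O₂ ⊆ Set.range (color Λ A)} := by
      ext A
      refine and_congr_right fun _ => ?_
      constructor
      · intro h x hx
        exact h x (by simpa using hx)
      · intro h x hx
        exact h (by simpa using hx)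
    rw [h2, h, Finset.card_filter]
    push_cast
    refine Finset.sum_congr rfl fun c _ => ?_
    rw [if_congr (Set.union_subset_iff) rfl rfl]
    by_cases h3 : (O₁ : Set ℕ) ⊆ colS Λ c <;>
      by_cases h4 : (O₂ : Set ℕ) ⊆ colS Λ c <;> simp [h3, h4]
  rw [h3]
  simp only [h1]
  have h4 : ∀ c : Quotient (isoSetoid W), (∑ X ∈ O₁.powerset, ∑ Y ∈ O₂.powerset, (-1 : ℤ) ^ (X.card + Y.card) *
      ((if Disjoint (colS Λ c) (X : Set ℕ) then 1 else 0) *
        (if Disjoint (colS Λ c) (Y : Set ℕ) then 1 else 0))) =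
      (if (O₁ : Set ℕ) ⊆ colS Λ c then 1 else 0) * (if (O₂ : Set ℕ) ⊆ colS Λ c then 1 else 0) := by
    intro c
    rw [← sum_powerset_disjoint (colS Λ c) O₁, ← sum_powerset_disjoint (colS Λ c) O₂,
      Finset.sum_mul_sum]
    refine Finset.sum_congr rfl fun X _ => Finset.sum_congr rfl fun Y _ => ?_
    rw [pow_add]
    ring
  rw [← Finset.sum_congr rfl fun c _ => h4 c]
  simp only [Finset.mul_sum]
  rw [Finset.sum_congr rfl fun X _ => Finset.sum_comm, Finset.sum_comm]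

section main

variable {V : Type*} [Finite V] {B a b m0 μ0 : ℕ}

/-- The mixed difference of the numbers of classes counts the classes with all optional colours. -/
theorem diff_eq (G : SimpleGraph V) (lev : V → ℕ) (hΛ1 : 1 ≤ Λ) (hΛ : Nat.card V ≤ Λ)
    (hB : Nat.card V ≤ B) (hm : Λ + a ≤ m0) (hμ : B + a + b ≤ μ0) {C : ℕ}
    (hC : m0 + a + μ0 + b ≤ C) :
    (∑ i ∈ Finset.range (a + 1), ∑ j ∈ Finset.range (b + 1),
      (-1 : ℤ) ^ (i + j) * (a.choose i * b.choose j : ℕ) *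
        (cls (Om C G (cap lev (m0 + a - i) (μ0 + b - j))) : ℤ)) =
      (cls {A ∈ Om C G (cap lev (m0 + a) (μ0 + b)) |
        ∀ x ∈ Finset.Ioc Λ (Λ + a) ∪ Finset.Ioc (m0 + a + B) (m0 + a + B + b),
          ∃ w, color Λ A w = x} : ℤ) := by
  rw [← incl_excl]
  have h1 : ∀ X ∈ (Finset.Ioc Λ (Λ + a)).powerset,
      ∀ Y ∈ (Finset.Ioc (m0 + a + B) (m0 + a + B + b)).powerset,
      (-1 : ℤ) ^ (X.card + Y.card) * (cls {A ∈ Om C G (cap lev (m0 + a) (μ0 + b)) |
        ∀ w, color Λ A w ∉ X ∪ Y} : ℤ) =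
      (-1 : ℤ) ^ (X.card + Y.card) *
        (cls (Om C G (cap lev (m0 + a - X.card) (μ0 + b - Y.card))) : ℤ) := by
    intro X hX Y hY
    rw [cls_skip G lev hΛ1 hΛ hB hm hμ hC (Finset.mem_powerset.1 hX) (Finset.mem_powerset.1 hY)]
  rw [Finset.sum_congr rfl fun X hX => Finset.sum_congr rfl fun Y hY => h1 X hX Y hY]
  have h2 : ∀ X : Finset ℕ, (∑ Y ∈ (Finset.Ioc (m0 + a + B) (m0 + a + B + b)).powerset,
      (-1 : ℤ) ^ (X.card + Y.card) *
        (cls (Om C G (cap lev (m0 + a - X.card) (μ0 + b - Y.card))) : ℤ)) =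
      ∑ j ∈ Finset.range (b + 1), (b.choose j) • ((-1 : ℤ) ^ (X.card + j) *
        (cls (Om C G (cap lev (m0 + a - X.card) (μ0 + b - j))) : ℤ)) := by
    intro X
    rw [Finset.sum_powerset_apply_card (fun j => (-1 : ℤ) ^ (X.card + j) *
        (cls (Om C G (cap lev (m0 + a - X.card) (μ0 + b - j))) : ℤ))]
    rw [Nat.card_Ioc, Nat.add_sub_cancel_left]
  simp only [h2]
  rw [Finset.sum_powerset_apply_card (fun i => ∑ j ∈ Finset.range (b + 1),
      (b.choose j) • ((-1 : ℤ) ^ (i + j) *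
        (cls (Om C G (cap lev (m0 + a - i) (μ0 + b - j))) : ℤ)))]
  rw [Nat.card_Ioc, Nat.add_sub_cancel_left]
  refine Finset.sum_congr rfl fun i _ => ?_
  rw [Finset.smul_sum]
  refine Finset.sum_congr rfl fun j _ => ?_
  simp only [nsmul_eq_mul]
  push_cast
  ring

end main

end Pool.Agent.Forest17
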