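import Pool.Agent.Lib.MP_17af9c_lc.InclExcl

/-!
# Labelled structures of graphs with one vertex without leaves
-/

namespace Pool.Agent.Forest17

open Classical

variable {W : Type*} {Λ : ℕ}

/-- The labelled structure of a graph: adjacency of the colours in `O` and the set of colours
adjacent to an uncoloured vertex, in the core. -/
def dat (Λ : ℕ) (O : Finset ℕ) (A : SimpleGraph W) :
    SimpleGraph {x // x ∈ O} × Set {x // x ∈ O} :=
  (⟨fun x y => x ≠ y ∧ ∃ w w', color Λ A w = x ∧ color Λ A w' = y ∧ (core Λ A).Adj w w',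
    ⟨fun _ _ ⟨h, w, w', h1, h2, h3⟩ => ⟨h.symm, w', w, h2, h1, h3.symm⟩⟩, ⟨fun _ h => h.1 rfl⟩⟩,
   {x | ∃ w w', color Λ A w = x ∧ color Λ A w' = 0 ∧ (core Λ A).Adj w w'})

theorem dat_iso {A B : SimpleGraph W} {O : Finset ℕ} (h : CoreIso Λ A B) :
    dat Λ O A = dat Λ O B := by
  obtain ⟨e, he⟩ := h
  have key : ∀ x y : ℕ, (∃ w w', color Λ A w = x ∧ color Λ A w' = y ∧ (core Λ A).Adj w w') ↔
      (∃ w w', color Λ B w = x ∧ color Λ B w' = y ∧ (core Λ B).Adj w w') := by
    intro x y
    constructor
    · rintro ⟨w, w', h1, h2, h3⟩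
      exact ⟨e w, e w', by rw [he, h1], by rw [he, h2], e.map_adj_iff.2 h3⟩
    · rintro ⟨w, w', h1, h2, h3⟩
      refine ⟨e.symm w, e.symm w', ?_, ?_, ?_⟩
      · rw [← he, ← h1]; simp
      · rw [← he, ← h2]; simp
      · rw [← e.map_adj_iff]; simpa using h3
  refine Prod.ext ?_ ?_
  · ext x y
    exact and_congr_right fun _ => key x y
  · ext x
    exact key x 0

theorem cls_eq_ncard {γ : Type*} {T : Set (SimpleGraph W)} (D : SimpleGraph W → γ)
    (h : ∀ A ∈ T, ∀ B ∈ T, Nonempty (A ≃g B) ↔ D A = D B) :
    cls T = (D '' T).ncard := by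
  let Q : Set (Quotient (isoSetoid W) × γ) := (fun A => (Quotient.mk _ A, D A)) '' T
  have h1 : Quotient.mk (isoSetoid W) '' T = Prod.fst '' Q := by
    ext c
    simp only [Q, Set.mem_image, exists_exists_and_eq_and]
  have h2 : D '' T = Prod.snd '' Q := by
    ext c
    simp only [Q, Set.mem_image, exists_exists_and_eq_and]
  unfold cls
  have e1 : (Prod.fst '' Q).ncard = Q.ncard := by
    refine Set.InjOn.ncard_image ?_
    rintro _ ⟨A, hA, rfl⟩ _ ⟨B, hB, rfl⟩ hq
    have h3 : Nonempty (A ≃g B) := Quotient.exact (s := isoSetoid W) hq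
    exact Prod.ext hq ((h A hA B hB).1 h3)
  have e2 : (Prod.snd '' Q).ncard = Q.ncard := by
    refine Set.InjOn.ncard_image ?_
    rintro _ ⟨A, hA, rfl⟩ _ ⟨B, hB, rfl⟩ hq
    exact Prod.ext (Quotient.sound (s := isoSetoid W) ((h A hA B hB).2 hq)) hq
  rw [h1, h2, e1, e2]

variable {P : Type*}

/-- The graph on `Option P`: `adjP` on `P`, and `none` is adjacent to the heads. -/
def spi (adjP : SimpleGraph P) (head : Set P) : SimpleGraph (Option P) where
  Adj
    | none, none => False
    | none, some p => p ∈ head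
    | some p, none => p ∈ head
    | some p, some p' => adjP.Adj p p'
  symm := ⟨by
    rintro (_ | p) (_ | p') h
    · exact h
    · exact h
    · exact h
    · exact adjP.adj_symm h⟩
  loopless := ⟨by
    rintro (_ | p) h
    · exact h
    · exact adjP.loopless.irrefl p h⟩

@[simp] theorem spi_nn {adjP : SimpleGraph P} {head : Set P} : ¬ (spi adjP head).Adj none none :=
  fun h => h
@[simp] theorem spi_ns {adjP : SimpleGraph P} {head : Set P} {p : P} :
    (spi adjP head).Adj none (some p) ↔ p ∈ head := Iff.rfl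
@[simp] theorem spi_sn {adjP : SimpleGraph P} {head : Set P} {p : P} :
    (spi adjP head).Adj (some p) none ↔ p ∈ head := Iff.rfl
@[simp] theorem spi_ss {adjP : SimpleGraph P} {head : Set P} {p p' : P} :
    (spi adjP head).Adj (some p) (some p') ↔ adjP.Adj p p' := Iff.rfl

/-- Levels: `none` has no leaves, the vertices in `S` are token-capable. -/
noncomputable def levS (S : Set P) : Option P → ℕ
  | none => 0
  | some p => if p ∈ S then 2 else 1

/-- The labelled structures realised by a placement of the labels on `P`, with the labels in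
`tok` placed in `S`. -/
def LabSet (adjP : SimpleGraph P) (head S : Set P) {R : Type*} (tok : Set R) :
    Set (SimpleGraph R × Set R) :=
  {d | d.2.ncard ≠ 1 ∧ ∃ π : R ≃ P, (∀ x y, d.1.Adj x y → adjP.Adj (π x) (π y)) ∧
    (∀ x ∈ d.2, π x ∈ head) ∧ ∀ x ∈ tok, π x ∈ S}

section main

variable [Finite P] {B a b m0 μ0 C : ℕ} {adjP : SimpleGraph P} {head S : Set P}
  {F : SimpleGraph (Option P)} {l : Option P → ℕ} {O : Finset ℕ}

/-- Every vertex of `P` carries exactly one of the optional colours. -/
theorem exists_pi (hΛ : Nat.card (Option P) ≤ Λ) (hΛ1 : 1 ≤ Λ) (hlC : ∀ v, l v ≤ C)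
    (hl0 : l none = 0) (hO0 : 0 ∉ O) (hO : O.card = Nat.card P)
    (hcol : ∀ x ∈ O, ∃ w, color Λ (gam C F l) w = x) :
    ∃ π : {x // x ∈ O} ≃ P, (∀ x, qv F l (some (π x)) = x.1) ∧ ∀ p, Λ < qv F l (some p) := by
  have h1 : ∀ x : {x // x ∈ O}, ∃ p : P, Λ < qv F l (some p) ∧ qv F l (some p) = x.1 := by
    rintro ⟨x, hx⟩
    obtain ⟨w, hw⟩ := hcol x hx
    have hx0 : x ≠ 0 := fun h => hO0 (h ▸ hx)
    rcases w with (_ | p) | p
    · rw [color_l hlC] at hw
      have := av_le (F := F) (k := l) none
      rw [if_neg (by unfold qv; omega)] at hw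
      exact absurd hw.symm hx0
    · rw [color_l hlC] at hw
      split_ifs at hw with h
      · exact ⟨p, h, hw⟩
      · exact absurd hw.symm hx0
    · rw [color_r hΛ1] at hw
      exact absurd hw.symm hx0
  choose f hf1 hf2 using h1
  have hinj : Function.Injective f := fun x y h => by
    apply Subtype.ext
    rw [← hf2, ← hf2, h]
  have : Fintype P := Fintype.ofFinite P
  have hbij : Function.Bijective f := by
    rw [Fintype.bijective_iff_injective_and_card]
    refine ⟨hinj, ?_⟩
    rw [Fintype.card_coe, hO, Nat.card_eq_fintype_card]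
  refine ⟨Equiv.ofBijective f hbij, hf2, fun p => ?_⟩
  obtain ⟨x, rfl⟩ := hbij.2 p
  exact hf1 x

section core

variable (hΛ : Nat.card (Option P) ≤ Λ) (hΛ1 : 1 ≤ Λ) (hlC : ∀ v, l v ≤ C)
  (hl0 : l none = 0) (hbig : ∀ p, Λ < qv F l (some p))
include hΛ hbig

theorem l_pos (p : P) : 0 < l (some p) := k_pos hΛ (hbig p)

theorem not_pv (v : Option P) (p : P) : some p ∉ pv F l v := fun h => by
  have := l_pos hΛ hbig p
  have := h.2.1
  omega

include hlC

theorem core_ss {p p' : P} :
    (core Λ (gam C F l)).Adj (.inl (some p)) (.inl (some p')) ↔ F.Adj (some p) (some p') := by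
  show (F.Adj _ _ ∧ ¬(_ ∈ pend _ _ ∧ big _ _ _) ∧ ¬(_ ∈ pend _ _ ∧ big _ _ _)) ↔ _
  simp only [mem_pend_ll hlC, not_pv hΛ hbig, false_and, not_false_eq_true, and_true]

include hl0

theorem mem_pv_none (p : P) :
    none ∈ pv F l (some p) ↔ F.Adj (some p) none ∧ ∀ z, F.Adj none z → z = some p := by
  unfold pv
  constructor
  · rintro ⟨h1, -, h3⟩
    exact ⟨h1, h3⟩
  · rintro ⟨h1, h3⟩
    exact ⟨h1, hl0, h3⟩

theorem core_sn {p : P} :
    (core Λ (gam C F l)).Adj (.inl (some p)) (.inl none) ↔
      F.Adj (some p) none ∧ ∃ z, F.Adj none z ∧ z ≠ some p := by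
  show (F.Adj _ _ ∧ ¬(_ ∈ pend _ _ ∧ big _ _ _) ∧ ¬(_ ∈ pend _ _ ∧ big _ _ _)) ↔ _
  simp only [mem_pend_ll hlC, not_pv hΛ hbig, false_and, not_false_eq_true, and_true,
    mem_pv_none hΛ hlC hl0 hbig, big_l hlC, hbig p]
  refine and_congr_right fun h => ?_
  simp only [h, true_and]
  push Not
  rfl

include hΛ1

theorem core_nr {w : Option P ⊕ Option P × Fin C} {p : Option P × Fin C} :
    ¬ (core Λ (gam C F l)).Adj w (.inr p) := by
  rcases w with (_ | q) | q
  · rintro ⟨h, -⟩
    rw [gam_lr, ← h.1, hl0] at h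
    omega
  · rintro ⟨h, h1, -⟩
    exact h1 ⟨mem_pend_lr.2 h, (big_l hlC).2 (hbig q)⟩
  · exact fun h => gam_rr h.1

end core

theorem av_eq_zero (hlpos : ∀ p, 0 < l (some p)) {p : P}
    (h : ¬ (F.Adj (some p) none ∧ ∀ z, F.Adj none z → z = some p)) : av F l (some p) = 0 := by
  unfold av
  rw [Set.ncard_eq_zero]
  ext y
  simp only [Set.mem_empty_iff_false, iff_false]
  rcases y with _ | q
  · exact fun hy => h ⟨hy.1, hy.2.2⟩
  · intro hy
    have := hy.2.1
    have := hlpos q
    omega

theorem lab_count (hΛ : Nat.card (Option P) ≤ Λ) (hΛ1 : 1 ≤ Λ) (hB : Nat.card (Option P) ≤ B)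
    (hm : Λ + a ≤ m0) (hμ : B + a + b ≤ μ0) (hC : m0 + a + μ0 + b ≤ C)
    (hP : Nat.card P = a + b) :
    cls {A ∈ Om C (spi adjP head) (cap (levS S) (m0 + a) (μ0 + b)) |
        ∀ x ∈ Finset.Ioc Λ (Λ + a) ∪ Finset.Ioc (m0 + a + B) (m0 + a + B + b),
          ∃ w, color Λ A w = x} =
      (LabSet adjP head S (R := {x // x ∈ Finset.Ioc Λ (Λ + a) ∪
        Finset.Ioc (m0 + a + B) (m0 + a + B + b)}) {x | m0 + a + B < x.1}).ncard := by
  set O := Finset.Ioc Λ (Λ + a) ∪ Finset.Ioc (m0 + a + B) (m0 + a + B + b) with hOdef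
  have hO0 : 0 ∉ O := by
    rw [hOdef, Finset.mem_union, Finset.mem_Ioc, Finset.mem_Ioc]
    omega
  have hOc : O.card = Nat.card P := by
    rw [hOdef, Finset.card_union_of_disjoint, Nat.card_Ioc, Nat.card_Ioc, hP]
    · omega
    · rw [Finset.disjoint_left]
      intro x h1 h2
      rw [Finset.mem_Ioc] at h1 h2
      omega
  have hcap0 : cap (levS S) (m0 + a) (μ0 + b) none = 0 := rfl
  have hcapC : ∀ v, cap (levS S) (m0 + a) (μ0 + b) v ≤ C := by
    intro v
    unfold cap
    split_ifs <;> omega
  set T := {A ∈ Om C (spi adjP head) (cap (levS S) (m0 + a) (μ0 + b)) |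
    ∀ x ∈ O, ∃ w, color Λ A w = x} with hT
  -- description of the elements of `T`
  have hst : ∀ A ∈ T, ∃ F l, F ≤ spi adjP head ∧ (∀ v, l v ≤ cap (levS S) (m0 + a) (μ0 + b) v) ∧
      A = gam C F l ∧ l none = 0 ∧ (∀ v, l v ≤ C) ∧ (∀ p, Λ < qv F l (some p)) ∧
      ∃ π : {x // x ∈ O} ≃ P, (∀ x, qv F l (some (π x)) = x.1) ∧
      (∀ x w, color Λ A w = x.1 ↔ w = .inl (some (π x))) ∧
      (∀ x y, (dat Λ O A).1.Adj x y ↔ F.Adj (some (π x)) (some (π y))) ∧
      (∀ x, x ∈ (dat Λ O A).2 ↔ F.Adj (some (π x)) none ∧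
        ∃ z, F.Adj none z ∧ z ≠ some (π x)) := by
    rintro A ⟨⟨F, l, hF, hl, rfl⟩, hcol⟩
    have hlC : ∀ v, l v ≤ C := fun v => (hl v).trans (hcapC v)
    have hl0 : l none = 0 := Nat.le_zero.1 (hcap0 ▸ hl none)
    obtain ⟨π, hπ, hbig⟩ := exists_pi hΛ hΛ1 hlC hl0 hO0 hOc hcol
    have hcolor : ∀ (x : {x // x ∈ O}) w, color Λ (gam C F l) w = x.1 ↔
        w = .inl (some (π x)) := by
      intro x w
      have hx0 : x.1 ≠ 0 := fun h => hO0 (h ▸ x.2)
      constructor
      · intro hw
        rcases w with (_ | p) | p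
        · rw [color_l hlC] at hw
          have := av_le (F := F) (k := l) none
          rw [if_neg (by unfold qv; omega)] at hw
          exact absurd hw.symm hx0
        · rw [color_l hlC, if_pos (hbig p)] at hw
          obtain ⟨y, rfl⟩ := π.surjective p
          rw [hπ] at hw
          rw [Subtype.ext hw]
        · rw [color_r hΛ1] at hw
          exact absurd hw.symm hx0
      · rintro rfl
        rw [color_l hlC, if_pos (hbig _), hπ]
    refine ⟨F, l, hF, hl, rfl, hl0, hlC, hbig, π, hπ, hcolor, ?_, ?_⟩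
    · intro x y
      show (x ≠ y ∧ ∃ w w', color Λ (gam C F l) w = x ∧ color Λ (gam C F l) w' = y ∧
        (core Λ (gam C F l)).Adj w w') ↔ _
      constructor
      · rintro ⟨-, w, w', h1, h2, h3⟩
        rw [(hcolor x w).1 h1, (hcolor y w').1 h2] at h3
        exact (core_ss hΛ hlC hbig).1 h3
      · intro h
        refine ⟨?_, _, _, (hcolor x _).2 rfl, (hcolor y _).2 rfl, (core_ss hΛ hlC hbig).2 h⟩
        rintro rfl
        exact F.loopless.irrefl _ h
    · intro x
      show (∃ w w', color Λ (gam C F l) w = x ∧ color Λ (gam C F l) w' = 0 ∧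
        (core Λ (gam C F l)).Adj w w') ↔ _
      rw [← core_sn (C := C) hΛ hlC hl0 hbig]
      constructor
      · rintro ⟨w, w', h1, h2, h3⟩
        rw [(hcolor x w).1 h1] at h3
        rcases w' with (_ | p) | p
        · exact h3
        · rw [color_l hlC, if_pos (hbig p)] at h2
          have := hbig p
          omega
        · exact absurd h3 (core_nr hΛ hΛ1 hlC hl0 hbig)
      · intro h
        refine ⟨_, _, (hcolor x _).2 rfl, ?_, h⟩
        rw [color_l hlC]
        have := av_le (F := F) (k := l) none
        rw [if_neg (by unfold qv; omega)]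
  rw [cls_eq_ncard (dat Λ O)]
  · congr 1
    ext d
    constructor
    · rintro ⟨A, hA, rfl⟩
      obtain ⟨F, l, hF, hl, rfl, hl0, hlC, hbig, π, hπ, hcolor, hg, hAset⟩ := hst A hA
      refine ⟨?_, π, ?_, ?_, ?_⟩
      · intro h1
        rw [Set.ncard_eq_one] at h1
        obtain ⟨x, hx⟩ := h1
        have h2 : x ∈ (dat Λ O (gam C F l)).2 := by rw [hx]; rfl
        obtain ⟨h3, z, h4, h5⟩ := (hAset x).1 h2
        rcases z with _ | q
        · exact F.loopless.irrefl _ h4
        · obtain ⟨y, rfl⟩ := π.surjective q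
          have h6 : y ∈ (dat Λ O (gam C F l)).2 :=
            (hAset y).2 ⟨h4.symm, _, h3.symm, fun h => h5 h.symm⟩
          rw [hx] at h6
          exact h5 (by rw [Set.mem_singleton_iff.1 h6])
      · intro x y hxy
        exact hF ((hg x y).1 hxy)
      · intro x hx
        exact hF ((hAset x).1 hx).1
      · intro x hx
        have h1 := hπ x
        have h2 := hl (some (π x))
        have h3 := av_le (F := F) (k := l) (some (π x))
        have h4 : m0 + a + B < x.1 := hx
        unfold qv at h1
        unfold cap levS at h2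
        by_contra hS
        simp only [if_neg hS] at h2
        norm_num at h2
        omega
    · rintro ⟨hd1, π, hd2, hd3, hd4⟩
      let F : SimpleGraph (Option P) := spi
        ⟨fun p p' => d.1.Adj (π.symm p) (π.symm p'), ⟨fun _ _ h => d.1.adj_symm h⟩,
          ⟨fun _ h => d.1.loopless.irrefl _ h⟩⟩ {p | π.symm p ∈ d.2}
      let l : Option P → ℕ := fun v => match v with
        | none => 0
        | some p => (π.symm p).1
      have hF : F ≤ spi adjP head := by
        rintro (_ | p) (_ | p') h
        · exact h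
        · have := hd3 _ h
          simpa using this
        · have := hd3 _ h
          simpa using this
        · have := hd2 _ _ h
          simpa using this
      have hOmem' : ∀ y ∈ O, (Λ < y ∧ y ≤ Λ + a) ∨
          (m0 + a + B < y ∧ y ≤ m0 + a + B + b) := fun y hy => by
        rwa [hOdef, Finset.mem_union, Finset.mem_Ioc, Finset.mem_Ioc] at hy
      have hOmem : ∀ x : {x // x ∈ O}, (Λ < x.1 ∧ x.1 ≤ Λ + a) ∨
          (m0 + a + B < x.1 ∧ x.1 ≤ m0 + a + B + b) := fun x => hOmem' x.1 x.2
      have hl : ∀ v, l v ≤ cap (levS S) (m0 + a) (μ0 + b) v := by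
        rintro (_ | p)
        · exact le_rfl
        · show (π.symm p).1 ≤ _
          rcases hOmem (π.symm p) with h | h
          · have h1 : m0 + a ≤ cap (levS S) (m0 + a) (μ0 + b) (some p) := by
              by_cases hS : p ∈ S <;> simp [cap, levS, hS]
            omega
          · have h1 := hd4 (π.symm p) h.1
            rw [Equiv.apply_symm_apply] at h1
            have h2 : cap (levS S) (m0 + a) (μ0 + b) (some p) = m0 + a + (μ0 + b) := by
              simp [cap, levS, h1]
            omega
      have hlC : ∀ v, l v ≤ C := fun v => (hl v).trans (hcapC v)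
      have hlpos : ∀ p, Λ < l (some p) := by
        intro p
        show Λ < (π.symm p).1
        rcases hOmem (π.symm p) with h | h <;> omega
      have hAd : ∀ x : {x // x ∈ O}, F.Adj none (some (π x)) ↔ x ∈ d.2 := by
        intro x
        show π.symm (π x) ∈ d.2 ↔ _
        rw [Equiv.symm_apply_apply]
      have hnotone : ∀ p, ¬ (F.Adj (some p) none ∧ ∀ z, F.Adj none z → z = some p) := by
        rintro p ⟨h1, h2⟩
        apply hd1
        rw [Set.ncard_eq_one]
        refine ⟨π.symm p, ?_⟩
        ext x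
        rw [Set.mem_singleton_iff]
        constructor
        · intro hx
          have := h2 _ ((hAd x).2 hx)
          rw [Option.some.injEq] at this
          rw [← this, Equiv.symm_apply_apply]
        · rintro rfl
          exact (hAd _).1 (by rw [Equiv.apply_symm_apply]; exact h1.symm)
      have hq : ∀ p, qv F l (some p) = (π.symm p).1 := by
        intro p
        unfold qv
        rw [av_eq_zero (fun p => lt_of_le_of_lt (Nat.zero_le _) (hlpos p)) (hnotone p)]
        simp [l]
      have hAT : gam C F l ∈ T := by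
        refine ⟨⟨F, l, hF, hl, rfl⟩, fun x hx => ⟨.inl (some (π ⟨x, hx⟩)), ?_⟩⟩
        rw [color_l hlC, hq, Equiv.symm_apply_apply, if_pos]
        have := hlpos (π ⟨x, hx⟩)
        simpa [l] using this
      refine ⟨gam C F l, hAT, ?_⟩
      obtain ⟨F', l', hF', hl', heq, hl0, hlC', hbig, π', hπ', hcolor, hg, hAset⟩ := hst _ hAT
      -- the data can be recomputed from `F`
      have hππ : ∀ x, π' x = π x := by
        intro x
        have h1 : color Λ (gam C F l) (.inl (some (π x))) = x.1 := by
          rw [color_l hlC, hq, Equiv.symm_apply_apply, if_pos]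
          have := hlpos (π x)
          simpa [l] using this
        have h2 := (hcolor x _).1 h1
        simp only [Sum.inl.injEq, Option.some.injEq] at h2
        exact h2.symm
      have hFF : ∀ u v, F'.Adj u v ↔ F.Adj u v := by
        intro u v
        have h1 : (gam C F l).Adj (.inl u) (.inl v) ↔ (gam C F' l').Adj (.inl u) (.inl v) := by
          rw [heq]
        exact h1.symm
      refine Prod.ext ?_ ?_
      · ext x y
        rw [hg, hFF, hππ, hππ]
        show d.1.Adj (π.symm (π x)) (π.symm (π y)) ↔ _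
        rw [Equiv.symm_apply_apply, Equiv.symm_apply_apply]
      · ext x
        rw [hAset, hππ]
        simp only [hFF]
        constructor
        · rintro ⟨h1, -⟩
          exact (hAd x).1 h1.symm
        · intro h1
          have h2 := (hAd x).2 h1
          refine ⟨h2.symm, ?_⟩
          by_contra hcon
          push Not at hcon
          exact hnotone (π x) ⟨h2.symm, hcon⟩
  · intro A hA A' hA'
    rw [iso_iff_coreIso hΛ1]
    constructor
    · intro h
      exact dat_iso h
    · intro h
      obtain ⟨F, l, hF, hl, rfl, hl0, hlC, hbig, π, hπ, hcolor, hg, hAset⟩ := hst A hA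
      obtain ⟨F', l', hF', hl', rfl, hl0', hlC', hbig', π', hπ', hcolor', hg', hAset'⟩ := hst A' hA'
      let f : Option P ⊕ Option P × Fin C ≃ Option P ⊕ Option P × Fin C :=
        Equiv.sumCongr (Equiv.optionCongr (π.symm.trans π')) (Equiv.refl _)
      have hss : ∀ p p', (core Λ (gam C F' l')).Adj (f (.inl (some p))) (f (.inl (some p'))) ↔
          (core Λ (gam C F l)).Adj (.inl (some p)) (.inl (some p')) := by
        intro p p'
        obtain ⟨x, rfl⟩ := π.surjective p
        obtain ⟨y, rfl⟩ := π.surjective p'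
        simp only [f, Equiv.sumCongr_apply, Sum.map_inl, Equiv.optionCongr_apply, Option.map_some,
          Equiv.trans_apply, Equiv.symm_apply_apply]
        rw [core_ss hΛ hlC hbig, core_ss hΛ hlC' hbig', ← hg, ← hg', h]
      have hsn : ∀ p, (core Λ (gam C F' l')).Adj (f (.inl (some p))) (f (.inl none)) ↔
          (core Λ (gam C F l)).Adj (.inl (some p)) (.inl none) := by
        intro p
        obtain ⟨x, rfl⟩ := π.surjective p
        simp only [f, Equiv.sumCongr_apply, Sum.map_inl, Equiv.optionCongr_apply, Option.map_some,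
          Equiv.trans_apply, Equiv.symm_apply_apply, Option.map_none]
        rw [core_sn (C := C) hΛ hlC hl0 hbig, core_sn (C := C) hΛ hlC' hl0' hbig', ← hAset,
          ← hAset', h]
      refine ⟨⟨f, ?_⟩, ?_⟩
      · rintro ((_ | p) | p) ((_ | p') | p')
        · constructor <;> intro h <;> exact absurd h (SimpleGraph.irrefl _)
        · rw [SimpleGraph.adj_comm, hsn, SimpleGraph.adj_comm]
        · constructor
          · intro h
            exact absurd h (core_nr hΛ hΛ1 hlC' hl0' hbig')
          · intro h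
            exact absurd h (core_nr hΛ hΛ1 hlC hl0 hbig)
        · exact hsn p
        · exact hss p p'
        · constructor
          · intro h
            exact absurd h (core_nr hΛ hΛ1 hlC' hl0' hbig')
          · intro h
            exact absurd h (core_nr hΛ hΛ1 hlC hl0 hbig)
        · constructor
          · intro h
            exact absurd h.symm (core_nr hΛ hΛ1 hlC' hl0' hbig')
          · intro h
            exact absurd h.symm (core_nr hΛ hΛ1 hlC hl0 hbig)
        · constructor
          · intro h
            exact absurd h.symm (core_nr hΛ hΛ1 hlC' hl0' hbig')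
          · intro h
            exact absurd h.symm (core_nr hΛ hΛ1 hlC hl0 hbig)
        · constructor
          · intro h
            exact absurd h (core_nr hΛ hΛ1 hlC' hl0' hbig')
          · intro h
            exact absurd h (core_nr hΛ hΛ1 hlC hl0 hbig)
      · rintro ((_ | p) | p)
        · show color Λ (gam C F' l') (.inl none) = color Λ (gam C F l) (.inl none)
          rw [color_l hlC, color_l hlC']
          have h1 := av_le (F := F) (k := l) none
          have h2 := av_le (F := F') (k := l') none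
          rw [if_neg (by unfold qv; omega), if_neg (by unfold qv; omega)]
        · obtain ⟨x, rfl⟩ := π.surjective p
          have e1 : color Λ (gam C F l) (.inl (some (π x))) = x.1 := (hcolor x _).2 rfl
          have e2 : color Λ (gam C F' l') (.inl (some (π' x))) = x.1 := (hcolor' x _).2 rfl
          rw [e1]
          show color Λ (gam C F' l') (.inl (some (π' (π.symm (π x))))) = x.1
          rw [Equiv.symm_apply_apply]
          exact e2
        · show color Λ (gam C F' l') (.inr p) = color Λ (gam C F l) (.inr p)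
          rw [color_r hΛ1, color_r hΛ1]

end main

end Pool.Agent.Forest17
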