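import Pool.Agent.Lib.MP_17af9c_lc.Convert
import Pool.Agent.Lib.MP_17af9c_lc.Codes

/-!
# The number of unlabelled subforests is computed with one query to a #P function
-/

set_option linter.unusedSimpArgs false

namespace Pool.Agent.Lib.MP17af9c

open Turing Pool.Agent.Lib.PolyTime Pool.Agent.Lib.SubForests Pool.Agent.Lib.CookLevin

/-! ### Classes and minimal elements -/

/-- The number of classes is the number of minimal elements of classes. -/
theorem card_quotient_eq {X : Type*} (s : Setoid X) (key : X → ℕ)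
    (hkey : Function.Injective key) :
    Nat.card (Quotient s) = Nat.card {x : X // ∀ y, s.r y x → key x ≤ key y} := by
  classical
  symm
  refine Nat.card_congr (Equiv.ofBijective (fun x => Quotient.mk s x.1) ⟨?_, ?_⟩)
  · rintro ⟨x, hx⟩ ⟨y, hy⟩ h
    have h' : s.r x y := Quotient.exact h
    exact Subtype.ext (hkey (le_antisymm (hx y (s.symm h')) (hy x h')))
  · intro c
    induction c using Quotient.ind with
    | _ x =>
      have hex : ∃ k, ∃ y, s.r y x ∧ key y = k := ⟨key x, x, s.refl x, rfl⟩
      obtain ⟨y, hy, hk⟩ := Nat.find_spec hex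
      refine ⟨⟨y, fun z hz => ?_⟩, Quotient.sound hy⟩
      rw [hk]
      exact Nat.find_min' hex ⟨z, s.trans hz hy, rfl⟩

theorem bval_inj : ∀ {a b : List Bool}, a.length = b.length → bval a = bval b → a = b := by
  intro a
  induction a with
  | nil => intro b h _; exact (List.length_eq_zero_iff.1 h.symm).symm
  | cons x a ih =>
    intro b h hv
    match b, h, hv with
    | [], h, _ => simp at h
    | y :: b, h, hv =>
      rw [bval_cons, bval_cons] at hv
      have hxy : x = y := by
        cases x <;> cases y <;> simp at hv ⊢ <;> omega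
      subst hxy
      rw [ih (by simpa using h) (by omega)]

/-! ### Graphs given by lists of edges -/

/-- The graph on `Fin n` with the edges of a list. -/
def gr (n : ℕ) (L : List (ℕ × ℕ)) : SimpleGraph (Fin n) :=
  SimpleGraph.fromRel fun a b => (a.1, b.1) ∈ L

/-- The edges selected by a mask. -/
def sel (es : List (ℕ × ℕ)) (y : List Bool) : List (ℕ × ℕ) :=
  ((es.zip y).filter (fun p => p.2)).map Prod.fst

theorem sel_subset (es : List (ℕ × ℕ)) (y : List Bool) : sel es y ⊆ es := by
  intro e he
  simp only [sel, List.mem_map, List.mem_filter] at he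
  obtain ⟨p, ⟨hp, _⟩, rfl⟩ := he
  exact (List.of_mem_zip hp).1

theorem sel_map (es : List (ℕ × ℕ)) (f : ℕ × ℕ → Bool) : sel es (es.map f) = es.filter f := by
  induction es with
  | nil => rfl
  | cons e es ih =>
    simp only [sel, List.map_cons, List.zip_cons_cons, List.filter_cons] at ih ⊢
    cases h : f e <;> simp [ih]

theorem gr_mono {n : ℕ} {L L' : List (ℕ × ℕ)} (h : L ⊆ L') : gr n L ≤ gr n L' := by
  intro a b hab
  rw [gr, SimpleGraph.fromRel_adj] at hab ⊢
  exact ⟨hab.1, hab.2.imp (fun h' => h h') (fun h' => h h')⟩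

theorem exists_mask {n : ℕ} {es : List (ℕ × ℕ)} {H : SimpleGraph (Fin n)} (hH : H ≤ gr n es) :
    ∃ y : List Bool, y.length = es.length ∧ gr n (sel es y) = H := by
  classical
  refine ⟨es.map fun e => decide (∃ a b : Fin n, e = (a.1, b.1) ∧ H.Adj a b), by simp, ?_⟩
  rw [sel_map]
  ext a b
  rw [gr, SimpleGraph.fromRel_adj]
  simp only [List.mem_filter, decide_eq_true_eq]
  constructor
  · rintro ⟨_, ⟨_, c, d, h, hcd⟩ | ⟨_, c, d, h, hcd⟩⟩
    · simp only [Prod.mk.injEq] at h
      rwa [Fin.ext h.1, Fin.ext h.2]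
    · simp only [Prod.mk.injEq] at h
      rw [Fin.ext h.1, Fin.ext h.2]
      exact hcd.symm
  · intro h
    have h1 := hH h
    rw [gr, SimpleGraph.fromRel_adj] at h1
    refine ⟨h1.1, h1.2.imp (fun h2 => ⟨h2, a, b, rfl, h⟩) fun h2 => ⟨h2, b, a, rfl, h.symm⟩⟩

/-- Masks, up to isomorphism of the graphs. -/
def maskSetoid (n : ℕ) (es : List (ℕ × ℕ)) : Setoid {y : List Bool // y.length = es.length} where
  r y z := Nonempty (gr n (sel es y.1) ≃g gr n (sel es z.1))
  iseqv := ⟨fun _ => ⟨RelIso.refl _⟩, fun ⟨e⟩ => ⟨e.symm⟩, fun ⟨e⟩ ⟨e'⟩ => ⟨e.trans e'⟩⟩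

theorem numSub_gr (n : ℕ) (es : List (ℕ × ℕ)) :
    numSub (gr n es) = Nat.card (Quotient (maskSetoid n es)) := by
  symm
  let F : {y : List Bool // y.length = es.length} → {H : SimpleGraph (Fin n) // H ≤ gr n es} :=
    fun y => ⟨gr n (sel es y.1), gr_mono (sel_subset es y.1)⟩
  let Q : Quotient (maskSetoid n es) → Quotient (isoSetoid (gr n es)) :=
    Quotient.map' F fun a b h => h
  refine Nat.card_congr (Equiv.ofBijective Q ⟨?_, ?_⟩)
  · intro a b
    induction a using Quotient.ind with
    | _ a =>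
      induction b using Quotient.ind with
      | _ b =>
        intro h
        exact Quotient.sound (s := maskSetoid n es) (Quotient.exact h : _)
  · intro c
    induction c using Quotient.ind with
    | _ H =>
      obtain ⟨y, hy, h⟩ := exists_mask H.2
      refine ⟨Quotient.mk _ ⟨y, hy⟩, ?_⟩
      show Quotient.mk (isoSetoid (gr n es)) (F ⟨y, hy⟩) = _
      congr 1
      exact Subtype.ext h

/-! ### Witnesses -/

/-- Adjacency. -/
def adjL (L : List (ℕ × ℕ)) (a b : ℕ) : Bool :=
  !decide (a = b) && (decide ((a, b) ∈ L) || decide ((b, a) ∈ L))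

theorem gr_adj {n : ℕ} {L : List (ℕ × ℕ)} {a b : Fin n} :
    (gr n L).Adj a b ↔ adjL L a.1 b.1 = true := by
  rw [gr, SimpleGraph.fromRel_adj, adjL]
  simp [Fin.ext_iff]

/-- The function of a witness. -/
def piL (n k : ℕ) (w : List Bool) (i : ℕ) : ℕ :=
  ((List.range n).filter (fun j => w.getD (k + (i * n + j)) false)).length

/-- The witness consists of a smaller mask and of an isomorphism. -/
def RX (p : ((ℕ × List (ℕ × ℕ)) × List Bool) × List Bool) : Bool :=
  (decide (bval (p.2.take p.1.1.2.length) < bval p.1.2) &&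
    decide (((List.range p.1.1.1).map (piL p.1.1.1 p.1.1.2.length p.2)).Nodup)) &&
  (((List.range p.1.1.1).map (piL p.1.1.1 p.1.1.2.length p.2)).all
      (fun a => decide (a < p.1.1.1)) &&
    (List.range p.1.1.1).all fun a => (List.range p.1.1.1).all fun b =>
      adjL (sel p.1.1.2 (p.2.take p.1.1.2.length)) a b ==
        adjL (sel p.1.1.2 p.1.2) (piL p.1.1.1 p.1.1.2.length p.2 a)
          (piL p.1.1.1 p.1.1.2.length p.2 b))

theorem iso_of_fun {n : ℕ} {L L' : List (ℕ × ℕ)} {f : ℕ → ℕ}
    (h1 : ((List.range n).map f).Nodup) (h2 : ∀ a < n, f a < n)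
    (h3 : ∀ a < n, ∀ b < n, adjL L a b = adjL L' (f a) (f b)) :
    Nonempty (gr n L ≃g gr n L') := by
  let F : Fin n → Fin n := fun a => ⟨f a.1, h2 a.1 a.2⟩
  have hF : Function.Injective F := by
    intro a b h
    have h' : f a.1 = f b.1 := congrArg Fin.val h
    exact Fin.ext ((List.nodup_map_iff_inj_on List.nodup_range).1 h1 a.1
      (List.mem_range.2 a.2) b.1 (List.mem_range.2 b.2) h')
  refine ⟨⟨Equiv.ofBijective F (Finite.injective_iff_bijective.1 hF), fun {a b} => ?_⟩⟩
  show (gr n L').Adj (F a) (F b) ↔ (gr n L).Adj a b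
  rw [gr_adj, gr_adj, h3 a.1 a.2 b.1 b.2]

theorem length_filter_lt (n k : ℕ) :
    ((List.range n).filter (fun j => decide (j < k))).length = min k n := by
  induction n with
  | zero => simp
  | succ n ih =>
    rw [List.range_succ, List.filter_append, List.length_append, ih]
    by_cases h : n < k
    · simp [h]
      omega
    · simp [h]
      omega

theorem piL_word {n : ℕ} (y : List Bool) (f : ℕ → ℕ) {i : ℕ} (hi : i < n) (hf : f i ≤ n) :
    piL n y.length (y ++ (List.range (n * n)).map fun k => decide (k % n < f (k / n))) i = f i := by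
  unfold piL
  have : (List.range n).filter (fun j => (y ++ (List.range (n * n)).map
      fun k => decide (k % n < f (k / n))).getD (y.length + (i * n + j)) false) =
      (List.range n).filter (fun j => decide (j < f i)) := by
    refine List.filter_congr fun j hj => ?_
    rw [List.mem_range] at hj
    have hk : i * n + j < n * n := by nlinarith
    rw [List.getD_append_right _ _ _ _ (by omega), Nat.add_sub_cancel_left,
      List.getD_eq_getElem _ _ (by simpa using hk)]
    simp only [List.getElem_map, List.getElem_range]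
    have e1 : (i * n + j) % n = j := by
      rw [Nat.add_comm, Nat.add_mul_mod_self_right, Nat.mod_eq_of_lt hj]
    have e2 : (i * n + j) / n = i := by
      rw [Nat.add_comm, Nat.add_mul_div_right _ _ (by omega), Nat.div_eq_of_lt hj, zero_add]
    rw [e1, e2]
  rw [this, length_filter_lt]
  omega

theorem exists_RX_iff (n : ℕ) (es : List (ℕ × ℕ)) (y : List Bool) :
    (∃ w, w.length = es.length + n * n ∧ RX (((n, es), y), w) = true) ↔
      ∃ z : List Bool, z.length = es.length ∧ bval z < bval y ∧
        Nonempty (gr n (sel es z) ≃g gr n (sel es y)) := by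
  constructor
  · rintro ⟨w, hw, h⟩
    simp only [RX, Bool.and_eq_true, decide_eq_true_eq, List.all_eq_true, List.mem_map,
      List.mem_range, beq_iff_eq] at h
    obtain ⟨⟨h1, h2⟩, h3, h4⟩ := h
    exact ⟨w.take es.length, by simp [hw], h1,
      iso_of_fun h2 (fun a ha => h3 _ ⟨a, ha, rfl⟩) fun a ha b hb => h4 a ha b hb⟩
  · rintro ⟨z, hz, h, ⟨e⟩⟩
    let f : ℕ → ℕ := fun i => if h : i < n then (e ⟨i, h⟩).1 else 0
    have hf : ∀ i (h : i < n), f i = (e ⟨i, h⟩).1 := fun i h => dif_pos h
    refine ⟨z ++ (List.range (n * n)).map fun k => decide (k % n < f (k / n)), by simp [hz], ?_⟩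
    have hp : ∀ i (hi : i < n), piL n es.length
        (z ++ (List.range (n * n)).map fun k => decide (k % n < f (k / n))) i = (e ⟨i, hi⟩).1 := by
      intro i hi
      rw [← hz, piL_word z f hi (by rw [hf i hi]; exact (e ⟨i, hi⟩).2.le), hf i hi]
    have ht : (z ++ (List.range (n * n)).map fun k => decide (k % n < f (k / n))).take es.length =
        z := by
      rw [← hz, List.take_left]
    simp only [RX, Bool.and_eq_true, decide_eq_true_eq, List.all_eq_true, List.mem_map,
      List.mem_range, beq_iff_eq]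
    rw [ht]
    refine ⟨⟨h, ?_⟩, ?_, ?_⟩
    · rw [List.nodup_map_iff_inj_on List.nodup_range]
      intro a ha b hb hab
      rw [List.mem_range] at ha hb
      rw [hp a ha, hp b hb] at hab
      exact congrArg Fin.val (e.injective (Fin.ext hab))
    · rintro _ ⟨a, ha, rfl⟩
      rw [hp a ha]
      exact (e ⟨a, ha⟩).2
    · intro a ha b hb
      rw [hp a ha, hp b hb]
      have h1 := e.map_rel_iff (a := ⟨a, ha⟩) (b := ⟨b, hb⟩)
      rw [gr_adj, gr_adj] at h1
      exact Bool.eq_iff_iff.2 h1.symm

theorem numSub_eq_card (n : ℕ) (es : List (ℕ × ℕ)) :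
    numSub (gr n es) = Nat.card {y : List Bool // y.length = es.length ∧
      ∀ w, w.length = es.length + n * n → RX (((n, es), y), w) = false} := by
  rw [numSub_gr, card_quotient_eq (maskSetoid n es) (fun y => bval y.1)
    (fun a b h => Subtype.ext (bval_inj (a.2.trans b.2.symm) h))]
  refine Nat.card_congr ((Equiv.subtypeSubtypeEquivSubtypeInter _ (fun y : List Bool =>
    ∀ w, w.length = es.length + n * n → RX (((n, es), y), w) = false)).symm.trans ?_).symm
  refine Equiv.subtypeEquivRight fun y => ?_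
  have h := exists_RX_iff n es y.1
  constructor
  · intro h1 z hz
    by_contra hc
    obtain ⟨w, hw, hR⟩ := h.2 ⟨z.1, z.2, not_le.1 hc, hz⟩
    rw [h1 w hw] at hR
    exact absurd hR (by simp)
  · intro h1 w hw
    cases hR : RX (((n, es), y.1), w) with
    | false => rfl
    | true =>
      obtain ⟨z, hz, hlt, hiso⟩ := h.1 ⟨w, hw, hR⟩
      exact absurd (h1 ⟨z, hz⟩ hiso) (not_le.2 hlt)

/-! ### Polynomial time -/

section

variable {α : Type*} [TEnc α]

theorem polyF_sel {es : α → List (ℕ × ℕ)} {y : α → List Bool} (hes : PolyF es) (hy : PolyF y) :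
    PolyF (fun x => sel (es x) (y x)) :=
  (((hes.zip hy).filter (p := fun _ p => p.2) PolyF.snd'.snd).map (h := fun _ p => p.1)
    PolyF.snd'.fst).congr fun _ => rfl

theorem polyF_adjL {L : α → List (ℕ × ℕ)} {a b : α → ℕ} (hL : PolyF L) (ha : PolyF a)
    (hb : PolyF b) : PolyF (fun x => adjL (L x) (a x) (b x)) :=
  (ha.natEq hb).not.and (((ha.pair hb).mem hL).or ((hb.pair ha).mem hL))

theorem polyF_piL {n k i : α → ℕ} {w : α → List Bool} (hn : PolyF n) (hk : PolyF k)
    (hw : PolyF w) (hi : PolyF i) : PolyF (fun x => piL (n x) (k x) (w x) (i x)) := by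
  refine (hn.range.filter (p := fun x j => (w x).getD (k x + (i x * n x + j)) false) ?_).length
  exact polyF_getD (hw.comp PolyF.fst') ((hk.comp PolyF.fst').natAdd
    (((hi.comp PolyF.fst').natMul (hn.comp PolyF.fst')).natAdd PolyF.snd'))

end

theorem polyF_RX : PolyF RX := by
  have hn : PolyF (fun p : ((ℕ × List (ℕ × ℕ)) × List Bool) × List Bool => p.1.1.1) :=
    PolyF.fst'.fst.fst
  have hes : PolyF (fun p : ((ℕ × List (ℕ × ℕ)) × List Bool) × List Bool => p.1.1.2) :=
    PolyF.fst'.fst.snd
  have hy : PolyF (fun p : ((ℕ × List (ℕ × ℕ)) × List Bool) × List Bool => p.1.2) :=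
    PolyF.fst'.snd
  have hw : PolyF (fun p : ((ℕ × List (ℕ × ℕ)) × List Bool) × List Bool => p.2) := PolyF.snd'
  have hz := hes.length.take hw
  have hp : PolyF (fun p : ((ℕ × List (ℕ × ℕ)) × List Bool) × List Bool =>
      (List.range p.1.1.1).map (piL p.1.1.1 p.1.1.2.length p.2)) :=
    hn.range.map (h := fun p i => piL p.1.1.1 p.1.1.2.length p.2 i)
      (polyF_piL (hn.comp PolyF.fst') (hes.length.comp PolyF.fst') (hw.comp PolyF.fst')
        PolyF.snd')
  refine PolyF.and (PolyF.and (hz.ofBits.binLt hy.ofBits) hp.nodup) (PolyF.and ?_ ?_)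
  · exact hp.all (p := fun p a => decide (a < p.1.1.1)) (PolyF.snd'.natLt (hn.comp PolyF.fst'))
  · refine hn.range.all (p := fun p a => (List.range p.1.1.1).all fun b =>
      adjL (sel p.1.1.2 (p.2.take p.1.1.2.length)) a b ==
        adjL (sel p.1.1.2 p.1.2) (piL p.1.1.1 p.1.1.2.length p.2 a)
          (piL p.1.1.1 p.1.1.2.length p.2 b)) ?_
    refine (hn.comp PolyF.fst').range.all (p := fun r b =>
      adjL (sel r.1.1.1.2 (r.1.2.take r.1.1.1.2.length)) r.2 b ==
        adjL (sel r.1.1.1.2 r.1.1.2) (piL r.1.1.1.1 r.1.1.1.2.length r.1.2 r.2)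
          (piL r.1.1.1.1 r.1.1.1.2.length r.1.2 b)) ?_
    have h1 := (hes.comp PolyF.fst').comp (PolyF.fst' (α := (((ℕ × List (ℕ × ℕ)) × List Bool) ×
      List Bool) × ℕ) (β := ℕ))
    have h2 := (hn.comp PolyF.fst').comp (PolyF.fst' (α := (((ℕ × List (ℕ × ℕ)) × List Bool) ×
      List Bool) × ℕ) (β := ℕ))
    have h3 := (hw.comp PolyF.fst').comp (PolyF.fst' (α := (((ℕ × List (ℕ × ℕ)) × List Bool) ×
      List Bool) × ℕ) (β := ℕ))
    have h4 := (hy.comp PolyF.fst').comp (PolyF.fst' (α := (((ℕ × List (ℕ × ℕ)) × List Bool) ×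
      List Bool) × ℕ) (β := ℕ))
    exact (polyF_adjL (polyF_sel h1 (h1.length.take h3)) PolyF.fst'.snd PolyF.snd').beq
      (polyF_adjL (polyF_sel h1 h4) (polyF_piL h2 h1.length h3 PolyF.fst'.snd)
        (polyF_piL h2 h1.length h3 PolyF.snd'))

/-! ### Trees -/

/-- The number of vertices and the edges of a graph, with the vertices replaced by their
positions. -/
def toX (t : Code) : ℕ × List (ℕ × ℕ) :=
  (t.1.length, t.2.map fun e => (t.1.idxOf e.1, t.1.idxOf e.2))

theorem numSub_toX {t : Code} (ht : t.1.Nodup) (he : ∀ e ∈ t.2, e.1 ∈ t.1 ∧ e.2 ∈ t.1) :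
    numSub t.graph = numSub (gr (toX t).1 (toX t).2) := by
  have key : ∀ i j : Fin t.1.length, (t.1.get i, t.1.get j) ∈ t.2 ↔ (i.1, j.1) ∈ (toX t).2 := by
    intro i j
    have hidx : ∀ k : Fin t.1.length, t.1.idxOf (t.1.get k) = k.1 := fun k =>
      ht.idxOf_getElem k.1 k.2
    simp only [toX, List.mem_map, Prod.mk.injEq]
    constructor
    · intro h
      exact ⟨_, h, hidx i, hidx j⟩
    · rintro ⟨e, he', h1, h2⟩
      have e1 : t.1.get i = e.1 := by
        have := List.getElem_idxOf (List.idxOf_lt_length_iff.2 (he e he').1)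
        simp only [h1] at this
        exact this
      have e2 : t.1.get j = e.2 := by
        have := List.getElem_idxOf (List.idxOf_lt_length_iff.2 (he e he').2)
        simp only [h2] at this
        exact this
      rw [e1, e2]
      exact he'
  refine (numSub_congr (G := gr (toX t).1 (toX t).2) (H := t.graph)
    ⟨ht.getEquiv t.1, fun {i j} => ?_⟩).symm
  rw [Code.graph, SimpleGraph.fromRel_adj, gr, SimpleGraph.fromRel_adj]
  exact and_congr (ht.getEquiv t.1).injective.ne_iff (or_congr (key i j) (key j i))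

theorem polyF_toX : PolyF (fun t : Tree => toX t.1) := by
  have hv : PolyF (fun t : Tree => t.1.1) := PolyF.id.val.fst
  have he : PolyF (fun t : Tree => t.1.2) := PolyF.id.val.snd
  refine hv.length.pair (he.map (h := fun t e => (t.1.1.idxOf e.1, t.1.1.idxOf e.2)) ?_)
  exact (PolyF.snd'.fst.idxOf (hv.comp PolyF.fst')).pair
    (PolyF.snd'.snd.idxOf (hv.comp PolyF.fst'))

/-- **Membership**: the number of unlabelled subforests of a tree is computed in polynomial time
from one value of a function in the class #P. -/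
theorem numSubforests_le_sharpP {ea : Tree → List Bool} (ha : GoodWord ea) :
    ∃ g : List Bool → ℕ, SharpP g ∧ TTRed ea numSubforests id g := by
  obtain ⟨G, h, hG, hh, hf⟩ := exists_query (α := ℕ × List (ℕ × ℕ)) (m := fun x => x.2.length)
    (q := fun x => x.2.length + x.1 * x.1) (R := RX) PolyF.snd'.length
    (PolyF.snd'.length.natAdd (PolyF.fst'.natMul PolyF.fst')) polyF_RX
  refine exists_ttRed (α := Tree) (ea := ea) ha polyF_toX hG hh fun t => ?_
  rw [hf (toX t.1)]
  exact (numSub_toX t.2.vertices t.2.ends).trans (numSub_eq_card _ _)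

end Pool.Agent.Lib.MP17af9c
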