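import Pool.Agent.Lib.MP_17af9c_lc.Hash
import Pool.Agent.Lib.PolyTime.NatBin

/-!
# Counting the complement of an NP set with one query to a #P function

For a polynomial-time predicate `R` the number of `y` of length `m x` such that no `w` of length
`q x` satisfies `R ((x, y), w)` is computed in polynomial time from one value of a function
in `#P`.
-/

set_option linter.unusedSimpArgs false

namespace Pool.Agent.Lib.MP17af9c

open Pool.Agent.Lib.PolyTime Polynomial

section poly

variable {α β : Type*} [TEnc α] [TEnc β]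

theorem polyF_getD {l : α → List Bool} {n : α → ℕ} (hl : PolyF l) (hn : PolyF n) :
    PolyF (fun x => (l x).getD (n x) false) :=
  ((hn.getElem? hl).getD (PolyF.const false)).congr fun x => by
    rw [List.getD_eq_getElem?_getD]

theorem length_mulT (L : ℕ) (a c : List Bool) : (mulT L a c).length = L := by simp [mulT]

theorem polyF_mulT {L : α → ℕ} {a c : α → List Bool} (hL : PolyF L) (ha : PolyF a)
    (hc : PolyF c) : PolyF (fun x => mulT (L x) (a x) (c x)) := by
  unfold mulT
  refine hL.range.map (h := fun x l => decide (((List.range (l + 1)).filter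
      (fun j => (a x).getD j false && (c x).getD (l - j) false)).length % 2 = 1)) ?_
  have h1 : PolyF (fun p : α × ℕ => ((List.range (p.2 + 1)).filter
      (fun j => (a p.1).getD j false && (c p.1).getD (p.2 - j) false)).length) := by
    refine (PolyF.filter (l := fun p : α × ℕ => List.range (p.2 + 1))
      (p := fun p j => (a p.1).getD j false && (c p.1).getD (p.2 - j) false)
      PolyF.snd'.succ.range ?_).length
    exact (polyF_getD (ha.comp PolyF.fst'.fst) PolyF.snd').and
      (polyF_getD (hc.comp PolyF.fst'.fst) (PolyF.fst'.snd.natSub PolyF.snd'))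
  refine h1.natEven.not.congr fun p => ?_
  have : ∀ n : ℕ, (!decide (n % 2 = 0)) = decide (n % 2 = 1) := fun n => by
    rcases Nat.mod_two_eq_zero_or_one n with h | h <;> simp [h]
  exact this _

theorem polyF_monoT {L t : α → ℕ} {w r acc : α → List Bool} (hL : PolyF L) (ht : PolyF t)
    (hw : PolyF w) (hr : PolyF r) (hacc : PolyF acc) :
    PolyF (fun x => monoT (L x) (t x) (w x) (r x) (acc x)) := by
  unfold monoT
  refine (PolyF.foldl_inv (l := w) (i := fun x => (r x, acc x))
    (f := fun x (s : List Bool × List Bool) b =>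
      (s.1.drop (t x), if b = true then mulT (L x) (s.1.take (t x)) s.2 else s.2))
    hw (hr.pair hacc) ?_
    (fun x s => s.1.length ≤ (r x).length ∧ s.2.length ≤ L x + (acc x).length)
    (fun x => 1 + 2 * (r x).length + 2 * (L x + (acc x).length)) ?_ ?_ ?_ ?_).snd
  · refine ((ht.comp PolyF.fst').drop PolyF.snd'.fst.fst).pair
      (PolyF.iteBool PolyF.snd'.snd ?_ PolyF.snd'.fst.snd)
    exact polyF_mulT (hL.comp PolyF.fst') ((ht.comp PolyF.fst').take PolyF.snd'.fst.fst)
      PolyF.snd'.fst.snd
  · exact (((PBd.const 1).add ((PBd.const 2).mul hr.pbdLength))).add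
      ((PBd.const 2).mul (hL.pbdNat.add hacc.pbdLength))
  · intro x
    exact ⟨le_rfl, Nat.le_add_left _ _⟩
  · intro x c b _ h
    refine ⟨?_, ?_⟩
    · simp only [List.length_drop]
      exact (Nat.sub_le _ _).trans h.1
    · dsimp only
      split_ifs
      · rw [length_mulT]
        exact Nat.le_add_right _ _
      · exact h.2
  · intro x c h
    rw [sz_prod]
    have h1 := sz_bits_le c.1
    have h2 := sz_bits_le c.2
    have h3 := h.1
    have h4 := h.2
    omega

theorem sharpF_zProd {t q : α → ℕ} {S : α × List Bool → Bool} {r : α → List Bool} (ht : PolyF t)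
    (hq : PolyF q) (hS : PolyF S) (hr : PolyF r) :
    SharpF (fun x => zProd (t x) (q x) (fun w => S (x, w)) (r x)) := by
  unfold zProd
  have hqt : PolyF (fun x => q x * t x + 1) := (hq.natMul ht).succ
  refine SharpF.listProd (l := fun x => List.range (q x * t x + 1))
    (f := fun p => 1 + sumB (q p.1) (fun w => (S (p.1, w) &&
      (monoT (q p.1 * t p.1 + 1) (t p.1) w (r p.1) [true]).getD p.2 false).toNat))
    hqt.range ((SharpF.const 1).add ?_)
  refine SharpF.sumBits (m := fun p : α × ℕ => q p.1) (f := fun p => (S (p.1.1, p.2) &&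
      (monoT (q p.1.1 * t p.1.1 + 1) (t p.1.1) p.2 (r p.1.1) [true]).getD p.1.2 false).toNat)
    (hq.comp PolyF.fst') (SharpF.pred ?_)
  refine (hS.comp (PolyF.fst'.fst.pair PolyF.snd')).and (polyF_getD ?_ PolyF.fst'.snd)
  exact polyF_monoT (hqt.comp PolyF.fst'.fst) (ht.comp PolyF.fst'.fst) PolyF.snd'
    (hr.comp PolyF.fst'.fst) (PolyF.const _)

theorem polyF_twoPow {K : α → ℕ} (hK : PolyF K) : PolyF (fun x => (⟨2 ^ K x⟩ : Bin)) :=
  (PolyF.intTwoPow hK).intNatAbs.congr fun x => by
    rw [Int.natAbs_pow]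
    rfl

theorem sharpF_amp {K z : α → ℕ} (hK : PolyF K) (hz : SharpF z) :
    SharpF (fun x => amp (K x) (z x)) := by
  unfold amp
  have h1 : SharpF (fun x => 2 ^ K x - 1) :=
    SharpF.bin ((polyF_twoPow hK).binSub (PolyF.const (⟨1⟩ : Bin)))
  exact (SharpF.const 1).add (h1.mul (((SharpF.const 1).add (h1.mul (hz.pow hK))).pow hK))

end poly

/-! ### The count -/

theorem sumB_modEq {n M : ℕ} {f g : List Bool → ℕ} (h : ∀ w, f w ≡ g w [MOD M]) :
    sumB n f ≡ sumB n g [MOD M] := by
  induction n generalizing f g with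
  | zero => exact h []
  | succ n ih => exact (ih fun w => h _).add (ih fun w => h _)

theorem count_div (m q : ℕ) (R : List Bool → List Bool → Bool) :
    sumB m (fun y => sumB (q * (m + q)) (fun r =>
      amp (m + q * (m + q) + 1) (zProd (m + q) q (R y) r))) % 2 ^ (m + q * (m + q) + 1) /
        2 ^ (q * (m + q)) =
      Nat.card {y : List Bool // y.length = m ∧ ∀ w, w.length = q → R y w = false} := by
  classical
  set t := m + q with ht
  set K := m + q * t + 1 with hK
  have hF : Nat.card {y : List Bool // y.length = m ∧ ∀ w, w.length = q → R y w = false} =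
      sumB m (fun y => (decide (∀ w, w.length = q → R y w = false)).toNat) := by
    rw [← card_eq_sumB]
    refine Nat.card_congr (Equiv.subtypeEquivRight fun y => ?_)
    simp
  rw [hF]
  set F := sumB m (fun y => (decide (∀ w, w.length = q → R y w = false)).toNat) with hFdef
  let C := sumB m (fun y => sumB (q * t) (fun r => (decide (zProd t q (R y) r % 2 = 1)).toNat))
  have hmod : sumB m (fun y => sumB (q * t) (fun r => amp K (zProd t q (R y) r))) ≡ C
      [MOD 2 ^ K] :=
    sumB_modEq fun y => sumB_modEq fun r => amp_mod K _ (by omega)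
  have hCle : C < 2 ^ K := by
    have : C ≤ sumB m (fun _ => sumB (q * t) (fun _ => 1)) :=
      sumB_le fun y _ => sumB_le fun r _ => Bool.toNat_le _
    rw [sumB_const, sumB_const, mul_one, ← pow_add] at this
    exact lt_of_le_of_lt this (Nat.pow_lt_pow_right (by norm_num) (by omega))
  have hGC : sumB m (fun y => sumB (q * t) (fun r => amp K (zProd t q (R y) r))) % 2 ^ K = C := by
    rw [hmod, Nat.mod_eq_of_lt hCle]
  rw [hGC]
  have hpos : 0 < 2 ^ (q * t) := by positivity
  have hlow : F * 2 ^ (q * t) ≤ C := by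
    rw [hFdef, ← sumB_mul_right]
    refine sumB_le fun y _ => ?_
    by_cases h : ∀ w, w.length = q → R y w = false
    · have : sumB (q * t) (fun r => (decide (zProd t q (R y) r % 2 = 1)).toNat) =
          sumB (q * t) (fun _ => 1) := by
        refine sumB_congr fun r _ => ?_
        rw [decide_eq_true ((zProd_odd t q (R y) r).2 (PS_empty t q (R y) r h))]
        rfl
      rw [this, sumB_const, mul_one, decide_eq_true h, Bool.toNat_true, one_mul]
    · rw [decide_eq_false h]
      simp
  have hup : C * 2 ^ t ≤ F * 2 ^ (q * t) * 2 ^ t + 2 ^ m * (q * 2 ^ (q * t)) := by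
    have e1 : C * 2 ^ t = sumB m (fun y => sumB (q * t)
        (fun r => (decide (zProd t q (R y) r % 2 = 1)).toNat) * 2 ^ t) := by
      rw [sumB_mul_right]
    have e2 : F * 2 ^ (q * t) * 2 ^ t + 2 ^ m * (q * 2 ^ (q * t)) =
        sumB m (fun y => (decide (∀ w, w.length = q → R y w = false)).toNat *
          (2 ^ (q * t) * 2 ^ t) + q * 2 ^ (q * t)) := by
      rw [sumB_add, sumB_mul_right, sumB_const, mul_assoc]
    rw [e1, e2]
    refine sumB_le fun y _ => ?_
    by_cases h : ∀ w, w.length = q → R y w = false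
    · have h1 : sumB (q * t) (fun r => (decide (zProd t q (R y) r % 2 = 1)).toNat) ≤
          sumB (q * t) (fun _ => 1) := sumB_le fun r _ => Bool.toNat_le _
      rw [sumB_const, mul_one] at h1
      rw [decide_eq_true h, Bool.toNat_true, one_mul]
      exact (Nat.mul_le_mul_right _ h1).trans (Nat.le_add_right _ _)
    · have h1 : sumB (q * t) (fun r => (decide (zProd t q (R y) r % 2 = 1)).toNat) =
          sumB (q * t) (fun r => (decide (PS t q (R y) r = 0)).toNat) := by
        refine sumB_congr fun r _ => ?_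
        congr 1
        rw [decide_eq_decide]
        exact zProd_odd t q (R y) r
      rw [h1, decide_eq_false h, Bool.toNat_false, zero_mul, zero_add]
      refine card_PS_zero t q (R y) ?_
      by_contra hc
      refine h fun w hw => ?_
      cases hb : R y w with
      | false => rfl
      | true => exact absurd ⟨w, hw, hb⟩ hc
  have hq2 : q < 2 ^ q := Nat.lt_two_pow_self
  have hlt : C < (F + 1) * 2 ^ (q * t) := by
    have h2t : 2 ^ t = 2 ^ m * 2 ^ q := by rw [ht, pow_add]
    have h3 : C * 2 ^ t < (F + 1) * 2 ^ (q * t) * 2 ^ t := by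
      refine lt_of_le_of_lt hup ?_
      have h4 : 2 ^ m * (q * 2 ^ (q * t)) < 2 ^ (q * t) * 2 ^ t := by
        rw [h2t]
        have : 2 ^ (q * t) * (2 ^ m * 2 ^ q) = 2 ^ m * (2 ^ q * 2 ^ (q * t)) := by ring
        rw [this]
        exact Nat.mul_lt_mul_of_pos_left (Nat.mul_lt_mul_of_pos_right hq2 hpos) (by positivity)
      have h5 : (F + 1) * 2 ^ (q * t) * 2 ^ t = F * 2 ^ (q * t) * 2 ^ t +
          2 ^ (q * t) * 2 ^ t := by ring
      rw [h5]
      omega
    exact lt_of_mul_lt_mul_right h3 (Nat.zero_le _)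
  exact Nat.div_eq_of_lt_le hlow hlt

/-- One query to a counting function suffices to count the strings without witnesses. -/
theorem exists_query {α : Type*} [TEnc α] {m q : α → ℕ}
    {R : (α × List Bool) × List Bool → Bool} (hm : PolyF m) (hq : PolyF q) (hR : PolyF R) :
    ∃ (G : α → ℕ) (h : α × NBin → NBin), SharpF G ∧ PolyF h ∧
      ∀ x, h (x, G x) = Nat.card {y : List Bool // y.length = m x ∧
        ∀ w, w.length = q x → R ((x, y), w) = false} := by
  have ht : PolyF (fun x => m x + q x) := hm.natAdd hq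
  have hqt : PolyF (fun x => q x * (m x + q x)) := hq.natMul ht
  have hK : PolyF (fun x => m x + q x * (m x + q x) + 1) := (hm.natAdd hqt).succ
  refine ⟨fun x => sumB (m x) (fun y => sumB (q x * (m x + q x)) (fun r =>
      amp (m x + q x * (m x + q x) + 1) (zProd (m x + q x) (q x) (fun w => R ((x, y), w)) r))),
    fun p => (⟨(⟨(⟨p.2⟩ : Bin).val % (⟨2 ^ (m p.1 + q p.1 * (m p.1 + q p.1) + 1)⟩ : Bin).val⟩ :
      Bin).val / (⟨2 ^ (q p.1 * (m p.1 + q p.1))⟩ : Bin).val⟩ : Bin).val, ?_, ?_, fun x => ?_⟩
  · refine SharpF.sumBits (f := fun p : α × List Bool => sumB (q p.1 * (m p.1 + q p.1)) (fun r =>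
      amp (m p.1 + q p.1 * (m p.1 + q p.1) + 1) (zProd (m p.1 + q p.1) (q p.1)
        (fun w => R ((p.1, p.2), w)) r))) hm ?_
    refine SharpF.sumBits (m := fun p : α × List Bool => q p.1 * (m p.1 + q p.1))
      (f := fun p => amp (m p.1.1 + q p.1.1 * (m p.1.1 + q p.1.1) + 1)
        (zProd (m p.1.1 + q p.1.1) (q p.1.1) (fun w => R ((p.1.1, p.1.2), w)) p.2))
      (hqt.comp PolyF.fst') ?_
    refine sharpF_amp (hK.comp PolyF.fst'.fst) ?_
    exact sharpF_zProd (S := fun r : ((α × List Bool) × List Bool) × List Bool =>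
      R ((r.1.1.1, r.1.1.2), r.2)) (ht.comp PolyF.fst'.fst) (hq.comp PolyF.fst'.fst)
      (hR.comp ((PolyF.fst'.fst.fst.pair PolyF.fst'.fst.snd).pair PolyF.snd')) PolyF.snd'
  · refine PolyF.ofBin (PolyF.binDiv ?_ (polyF_twoPow (hqt.comp PolyF.fst')))
    exact (PolyF.snd'.toBin).binMod (polyF_twoPow (hK.comp PolyF.fst'))
  · exact count_div (m x) (q x) (fun y w => R ((x, y), w))

end Pool.Agent.Lib.MP17af9c
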