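import Pool.Agent.Lib.MP_17af9c_lc.Hard
import Pool.Agent.Lib.MP_17af9c_lc.A

/-!
# The reduction from the number of satisfying assignments to the number of subforests
-/

namespace Pool.Agent.Lib.SubForests

open Function Pool.Agent.Lib.PolyTime Pool.Agent.Lib.CookLevin Pool.Agent.Forest17

/-- The two forms of the spider. -/
theorem spider_iso {L N : ℕ} {c lv : ℕ → ℕ → ℕ} (h : ∀ l < L, ∀ i < N, c l i = lv l i) :
    Nonempty (Forest17.spider L N c ≃g spider L N lv) := by
  have h1 : ∀ p : Fin L × Fin N, c p.1 p.2 = lv p.1 p.2 := fun p => h _ p.1.2 _ p.2.2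
  let f : Forest17.SV L N c ≃ SV L N lv :=
    { toFun := fun v => match v with
        | .inl none => none
        | .inl (some p) => some ⟨p, none⟩
        | .inr ⟨p, j⟩ => some ⟨p, some (Fin.cast (h1 p) j)⟩
      invFun := fun v => match v with
        | none => .inl none
        | some ⟨p, none⟩ => .inl (some p)
        | some ⟨p, some j⟩ => .inr ⟨p, Fin.cast (h1 p).symm j⟩
      left_inv := by rintro ((_ | p) | ⟨p, j⟩) <;> rfl
      right_inv := by rintro (_ | ⟨p, _ | j⟩) <;> rfl }
  have h0 : ∀ v, f v = none ↔ v = Forest17.SV.root := by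
    rintro ((_ | p) | ⟨p, j⟩)
    · exact iff_of_true rfl rfl
    · exact iff_of_false (by simp [f]) (by simp [Forest17.SV.root])
    · exact iff_of_false (by simp [f]) (by simp [Forest17.SV.root])
  have hp : ∀ v, f v.parent = (f v).parent := by
    rintro ((_ | ⟨l, i⟩) | ⟨⟨l, i⟩, j⟩)
    · rfl
    · show f (Forest17.SV.parent (.inl (some (l, i)))) = SV.parent (some ⟨(l, i), none⟩)
      unfold Forest17.SV.parent SV.parent
      dsimp only
      split_ifs
      · rfl
      · rfl
    · rfl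
  refine ⟨⟨f, fun {a b} => ?_⟩⟩
  show ((f a ≠ none ∧ f b = (f a).parent) ∨ (f b ≠ none ∧ f a = (f b).parent)) ↔
    ((a ≠ Forest17.SV.root ∧ b = a.parent) ∨ (b ≠ Forest17.SV.root ∧ a = b.parent))
  rw [← hp, ← hp, f.injective.eq_iff, f.injective.eq_iff, ne_eq, ne_eq, h0, h0]

/-- The boxes as lists. -/
def boxList (n k : ℕ) (B : ℕ → ℕ → Bool) : List (List Bool) :=
  (List.range (legs n k)).map fun l => (List.range (len n)).map fun i => boxes n B l i

theorem length_boxList (n k : ℕ) (B : ℕ → ℕ → Bool) : (boxList n k B).length = legs n k := by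
  simp [boxList]

theorem leavesOf_boxList (n k : ℕ) (B : ℕ → ℕ → Bool) (x y : ℕ) {l i : ℕ} (hl : l < legs n k)
    (hi : i < len n) : caps n k B x y l i =
      leavesOf (boxList n k B) (2 * hubs n k + 1 + x) (2 * hubs n k + 1 + y) l i := by
  have e : ((boxList n k B).getD l []).getD i false = boxes n B l i := by
    simp [boxList, List.getD_eq_getElem?_getD, List.getElem?_map, List.getElem?_range hl,
      List.getElem?_range hi]
  rw [leavesOf, caps, e]
  cases boxes n B l i <;> rfl

theorem mixed_eq_mixedDiff (n k : ℕ) (B : ℕ → ℕ → Bool) : Forest17.mixed n k B =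
    mixedDiff (boxList n k B) (len n) (n + 1) (hubs n k - (n + 1)) (2 * hubs n k + 1)
      (2 * hubs n k + 1) := by
  have e : ∀ f : ℕ → ℤ, dOp f = fwdDiff 1 f := fun f => rfl
  have e' : dOp = fwdDiff 1 := funext e
  have key : ∀ x y, numSub (Forest17.spider (legs n k) (len n) (caps n k B x y)) =
      numSub (spider (boxList n k B).length (len n)
        (leavesOf (boxList n k B) (2 * hubs n k + 1 + x) (2 * hubs n k + 1 + y))) := by
    intro x y
    obtain ⟨i⟩ := spider_iso (L := legs n k) (N := len n) (c := caps n k B x y)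
      (lv := leavesOf (boxList n k B) (2 * hubs n k + 1 + x) (2 * hubs n k + 1 + y))
      (fun l hl i hi => leavesOf_boxList n k B x y hl hi)
    rw [numSub_congr i, length_boxList]
  rw [Forest17.mixed, mixedDiff, e']
  simp only [key]

/-- The three box functions. -/
def boxFun (φ : CNF) (c : ℕ) : ℕ → ℕ → Bool :=
  if c = 0 then fun _ _ => true else if c = 1 then clauseBox φ else fun _ _ => false

theorem clauseBox_eq (φ : CNF) (c i : ℕ) : clauseBox φ c i =
    bif decide (c < φ.2.length) then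
      (φ.2.getD c []).all fun l => !(decide (i = 2 * l.1 + l.2.toNat)) else false := by
  unfold clauseBox
  by_cases h : c < φ.2.length
  · have e : (φ.2.getD c []) = φ.2[c] := by
      simp [List.getD_eq_getElem?_getD, List.getElem?_eq_getElem h]
    rw [dif_pos h, e]
    simp [h]
  · rw [dif_neg h]
    simp [h]

theorem polyF_clauseBox : PolyF (fun p : CNF × ℕ × ℕ => clauseBox p.1 p.2.1 p.2.2) := by
  have h1 : PolyF (fun p : CNF × ℕ × ℕ => p.1.2.getD p.2.1 []) :=
    PolyF.listGetD PolyF.snd'.fst PolyF.fst'.snd (PolyF.const _)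
  refine (PolyF.cond (PolyF.snd'.fst.natLt PolyF.fst'.snd.length)
    (h1.all (p := fun (q : CNF × ℕ × ℕ) l => !(decide (q.2.2 = 2 * l.1 + l.2.toNat))) ?_)
    (PolyF.const false)).congr fun p => (clauseBox_eq _ _ _).symm
  exact (PolyF.fst'.snd.snd.natEq (((PolyF.const 2).natMul PolyF.snd'.fst).natAdd
    (PolyF.snd'.snd.finComp (fun b : Bool => b.toNat)))).not

theorem polyF_boxes : PolyF (fun p : (CNF × ℕ) × ℕ × ℕ =>
    boxes p.1.1.1 (boxFun p.1.1 p.1.2) p.2.1 p.2.2) := by
  have hn : PolyF (fun p : (CNF × ℕ) × ℕ × ℕ => p.1.1.1 + 1) := PolyF.fst'.fst.fst.succ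
  have hl : PolyF (fun p : (CNF × ℕ) × ℕ × ℕ => p.2.1) := PolyF.snd'.fst
  have hi : PolyF (fun p : (CNF × ℕ) × ℕ × ℕ => p.2.2) := PolyF.snd'.snd
  have hd : PolyF (fun p : (CNF × ℕ) × ℕ × ℕ => p.2.1 - (p.1.1.1 + 1) * (p.1.1.1 + 1)) :=
    hl.natSub (hn.natMul hn)
  refine (PolyF.cond (hl.natLt (hn.natMul hn))
    (((hi.natDiv (PolyF.const 2)).natEq (hl.natDiv hn)).and
      (hi.natLe ((PolyF.const 2).natMul PolyF.fst'.fst.fst))).not
    (PolyF.cond (PolyF.fst'.snd.natEq (PolyF.const 0)) (PolyF.const true)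
      (PolyF.cond (PolyF.fst'.snd.natEq (PolyF.const 1))
        (polyF_clauseBox.comp (PolyF.fst'.fst.pair (hd.pair hi))) (PolyF.const false)))).congr
    fun p => ?_
  simp only [boxes, boxFun]
  by_cases h : p.2.1 < (p.1.1.1 + 1) * (p.1.1.1 + 1)
  · simp [h]
  · by_cases h0 : p.1.2 = 0
    · simp [h, h0]
    · by_cases h1 : p.1.2 = 1
      · simp [h, h1]
      · simp [h, h0, h1]

theorem polyF_boxList : PolyF (fun p : CNF × ℕ => boxList p.1.1 p.1.2.length (boxFun p.1 p.2)) := by
  have hn : PolyF (fun p : CNF × ℕ => p.1.1 + 1) := PolyF.fst'.fst.succ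
  have hL : PolyF (fun p : CNF × ℕ => legs p.1.1 p.1.2.length) :=
    (hn.natMul hn).natAdd PolyF.fst'.snd.length.succ
  refine hL.range.map (h := fun (p : CNF × ℕ) l =>
    (List.range (len p.1.1)).map fun i => boxes p.1.1 (boxFun p.1 p.2) l i) ?_
  refine PolyF.map (h := fun (q : (CNF × ℕ) × ℕ) i => boxes q.1.1.1 (boxFun q.1.1 q.1.2) q.2 i)
    (PolyF.range (((PolyF.const 2).natMul PolyF.fst'.fst.fst).natAdd (PolyF.const 4))) ?_
  exact polyF_boxes.comp (PolyF.fst'.fst.pair (PolyF.fst'.snd.pair PolyF.snd'))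

/-- Counting problems which count the satisfying assignments of a formula computed in polynomial
time reduce to counting subforests. -/
theorem ttRed_of_count {f : List Bool → ℕ} {g : List Bool → CNF} (hg : PolyF g)
    (hwf : ∀ x, CNF.Wf (g x)) (hf : ∀ x, f x = count (g x)) {eb : Tree → List Bool}
    (hw : GoodWord eb) : TTRed (fun w => w) f eb numSubforests := by
  have hn : PolyF (fun φ : CNF => φ.1) := PolyF.fst'
  have hL : PolyF (fun φ : CNF => legs φ.1 φ.2.length) :=
    (hn.succ.natMul hn.succ).natAdd PolyF.snd'.length.succ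
  have hlen : PolyF (fun φ : CNF => len φ.1) :=
    ((PolyF.const 2).natMul hn).natAdd (PolyF.const 4)
  have hh : PolyF (fun φ : CNF => hubs φ.1 φ.2.length) := hL.natMul hlen
  have hm : PolyF (fun φ : CNF => 2 * hubs φ.1 φ.2.length + 1) :=
    ((PolyF.const 2).natMul hh).succ
  refine ttRed_of_identity (fun φ c => boxList φ.1 φ.2.length (boxFun φ c)) (fun φ => len φ.1)
    (fun φ => φ.1) (fun φ => φ.1 + 1) (fun φ => hubs φ.1 φ.2.length - (φ.1 + 1))
    (fun φ => 2 * hubs φ.1 φ.2.length + 1) (fun φ => 2 * hubs φ.1 φ.2.length + 1)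
    polyF_boxList hlen hn hn.succ (hh.natSub hn.succ) hm hm (fun φ hφ => ?_) hg hwf hf hw
  have h := main_identity φ hφ
  rw [mixed_eq_mixedDiff, mixed_eq_mixedDiff, mixed_eq_mixedDiff] at h
  exact ⟨h.2, h.1.ne'⟩

end Pool.Agent.Lib.SubForests
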