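import Pool.Agent.Lib.MP_17af9c_lc.Lab

/-!
# Code words and rows: the combinatorial core of the reduction
-/

namespace Pool.Agent.Forest17

open Classical

/-! ### Code words -/

/-- The position `i` belongs to the element number `e`. -/
def elem (n e i : ℕ) : Prop := i / 2 = e ∧ i ≤ 2 * n

/-- The code word of an assignment. -/
def code {n : ℕ} (α : Fin n → Bool) : Set ℕ :=
  {i | i = 2 * n ∨ ∃ v : Fin n, i = 2 * v.1 + (α v).toNat}

variable {n k : ℕ}

theorem code_le {α : Fin n → Bool} {i : ℕ} (h : i ∈ code α) : i ≤ 2 * n := by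
  rcases h with rfl | ⟨v, rfl⟩
  · exact le_rfl
  · have := v.2
    have := Bool.toNat_le (α v)
    omega

theorem code_meets (α : Fin n → Bool) (e : Fin (n + 1)) : ∃ i ∈ code α, elem n e i := by
  by_cases h : e.1 = n
  · exact ⟨2 * n, Or.inl rfl, by unfold elem; omega⟩
  · have h2 : e.1 < n := by have := e.2; omega
    have := Bool.toNat_le (α ⟨e.1, h2⟩)
    exact ⟨2 * e.1 + (α ⟨e.1, h2⟩).toNat, Or.inr ⟨⟨e.1, h2⟩, rfl⟩, by unfold elem; omega⟩

theorem code_inj {α β : Fin n → Bool} (h : code α = code β) : α = β := by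
  funext v
  have h1 : 2 * v.1 + (α v).toNat ∈ code β := h ▸ Or.inr ⟨v, rfl⟩
  have hv := v.2
  have h2 := Bool.toNat_le (α v)
  rcases h1 with h1 | ⟨w, h1⟩
  · omega
  · have h3 := Bool.toNat_le (β w)
    have : v = w := Fin.ext (by omega)
    subst this
    have h4 : (α v).toNat = (β v).toNat := by omega
    revert h4
    cases α v <;> cases β v <;> simp

theorem exists_code (i : Fin (n + 1) → ℕ) (hi : ∀ e : Fin (n + 1), elem n e (i e)) :
    ∃ α : Fin n → Bool, code α = Set.range i := by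
  refine ⟨fun v => decide (i v.castSucc % 2 = 1), ?_⟩
  have key : ∀ v : Fin n, 2 * v.1 + (decide (i v.castSucc % 2 = 1)).toNat = i v.castSucc := by
    intro v
    have := (hi v.castSucc).1
    have h2 : (v.castSucc : Fin (n + 1)).1 = v.1 := rfl
    rw [h2] at this
    by_cases h : i v.castSucc % 2 = 1
    · simp only [h, decide_true, Bool.toNat_true]
      omega
    · simp only [h, decide_false, Bool.toNat_false]
      omega
  have key2 : i (Fin.last n) = 2 * n := by
    have := hi (Fin.last n)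
    unfold elem at this
    simp only [Fin.val_last] at this
    omega
  ext x
  constructor
  · rintro (rfl | ⟨v, rfl⟩)
    · exact ⟨Fin.last n, key2⟩
    · exact ⟨v.castSucc, (key v).symm⟩
  · rintro ⟨e, rfl⟩
    refine Fin.lastCases ?_ (fun v => ?_) e
    · exact Or.inl key2
    · exact Or.inr ⟨v, (key v).symm⟩

/-! ### Rows -/

/-- The paths. -/
def adjP (J : Type*) (N : ℕ) : SimpleGraph (J × Fin N) where
  Adj p q := p.1 = q.1 ∧ (p.2.1 + 1 = q.2.1 ∨ q.2.1 + 1 = p.2.1)
  symm := ⟨fun _ _ h => ⟨h.1.symm, h.2.symm⟩⟩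
  loopless := ⟨fun p h => by have := h.2; omega⟩

/-- The heads of the paths. -/
def headP (J : Type*) (N : ℕ) : Set (J × Fin N) := {p | p.2.1 = 0}

/-- The legs. -/
abbrev Leg (n k : ℕ) : Type := (Fin (n + 1) × Fin (n + 1)) ⊕ Fin k

/-- The token-capable positions. -/
def boxS (n k : ℕ) (K : Fin k → Set ℕ) : Set (Leg n k × Fin (2 * n + 4)) :=
  {p | match p.1 with
    | .inl e => ¬ elem n e.1 p.2
    | .inr c => p.2.1 ∈ K c}

/-- The satisfying assignments. -/
def SatK (n : ℕ) (K : Fin k → Set ℕ) : Set (Fin n → Bool) := {α | ∀ c, ¬ code α ⊆ K c}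

section struct

variable {R : Type*}

/-- Placement of a structure. -/
def IsPl {J : Type*} {N : ℕ} (z : SimpleGraph R × Set R) (π : R ≃ J × Fin N) : Prop :=
  (∀ x y, z.1.Adj x y → (adjP J N).Adj (π x) (π y)) ∧ ∀ x ∈ z.2, π x ∈ headP J N

/-- Chains. -/
def IsChain (n : ℕ) (z : SimpleGraph R × Set R) (x : Fin (2 * n + 1) ↪ R) : Prop :=
  x 0 ∈ z.2 ∧ ∀ i (h : i + 1 < 2 * n + 1), z.1.Adj (x ⟨i, by omega⟩) (x ⟨i + 1, h⟩)

theorem chain_pos {J : Type*} {N : ℕ} {z : SimpleGraph R × Set R} {π : R ≃ J × Fin N}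
    (hπ : IsPl z π) {x : Fin (2 * n + 1) ↪ R} (hx : IsChain n z x) :
    ∃ j, ∀ i, (π (x i)).1 = j ∧ (π (x i)).2.1 = i.1 := by
  refine ⟨(π (x 0)).1, ?_⟩
  have h0 : (π (x 0)).2.1 = 0 := hπ.2 _ hx.1
  have key : ∀ i (h : i < 2 * n + 1), ((π (x ⟨i, h⟩)).1 = (π (x 0)).1 ∧
      (π (x ⟨i, h⟩)).2.1 = i) ∧ ∀ (h' : i + 1 < 2 * n + 1),
      ((π (x ⟨i + 1, h'⟩)).1 = (π (x 0)).1 ∧ (π (x ⟨i + 1, h'⟩)).2.1 = i + 1) := by
    intro i
    induction i with
    | zero =>
      intro h
      refine ⟨⟨rfl, h0⟩, fun h' => ?_⟩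
      obtain ⟨h1, h2⟩ := hπ.1 _ _ (hx.2 0 h')
      have h3 : (π (x ⟨0, h⟩)).2.1 = 0 := h0
      refine ⟨h1.symm, ?_⟩
      omega
    | succ i ih =>
      intro h
      obtain ⟨h1, h2⟩ := ih (by omega)
      refine ⟨h2 h, fun h' => ?_⟩
      obtain ⟨h3, h4⟩ := hπ.1 _ _ (hx.2 (i + 1) h')
      obtain ⟨h5, h6⟩ := h2 h
      refine ⟨h3.symm.trans h5, ?_⟩
      rcases h4 with h4 | h4
      · omega
      · exfalso
        have h7 : π (x ⟨i + 1 + 1, h'⟩) = π (x ⟨i, by omega⟩) := by
          refine Prod.ext (h3.symm.trans (h5.trans h1.1.symm)) (Fin.ext ?_)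
          rw [h1.2]
          omega
        have h8 := congrArg Fin.val (x.injective (π.injective h7))
        simp only at h8
        omega
  intro i
  exact (key i.1 i.2).1

end struct

/-! ### Bad structures -/

section bad

variable {R : Type*} {tok : Set R}

/-- The bad structures of the assignment `α`. -/
def Zset (k : ℕ) (tok : Set R) (α : Fin n → Bool) : Set (SimpleGraph R × Set R) :=
  {z | z.2.ncard ≠ 1 ∧ (∃ π : R ≃ Leg n k × Fin (2 * n + 4), IsPl z π) ∧
    ∃ x, IsChain n z x ∧ x '' {i | i.1 ∈ code α} = tok}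

theorem mem_LabSet {J : Type*} {N : ℕ} {S : Set (J × Fin N)} {z : SimpleGraph R × Set R} :
    z ∈ LabSet (adjP J N) (headP J N) S tok ↔
      z.2.ncard ≠ 1 ∧ ∃ π : R ≃ J × Fin N, IsPl z π ∧ ∀ x ∈ tok, π x ∈ S := by
  unfold LabSet IsPl
  simp only [Set.mem_ofPred_eq, and_assoc]

/-- Permutations of the legs. -/
theorem IsPl.perm {J : Type*} {N : ℕ} {z : SimpleGraph R × Set R} {π : R ≃ J × Fin N}
    (h : IsPl z π) (σ : Equiv.Perm J) : IsPl z (π.trans (Equiv.prodCongr σ (Equiv.refl _))) :=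
  ⟨fun x y hxy => ⟨congrArg σ (h.1 x y hxy).1, (h.1 x y hxy).2⟩, fun x hx => h.2 x hx⟩

theorem exists_perm_extend {J : Type*} [Finite J] {p : J → Prop} (f : {j // p j} → J)
    (hf : Function.Injective f) : ∃ σ : Equiv.Perm J, ∀ j (h : p j), σ j = f ⟨j, h⟩ := by
  have e : {j // p j} ≃ {j // j ∈ Set.range f} := Equiv.ofInjective f hf
  refine ⟨(Equiv.ofInjective f hf).extendSubtype, fun j h => ?_⟩
  exact Equiv.extendSubtype_apply_of_mem _ _ h

theorem bad_sub {K : Fin k → Set ℕ} (htok : tok.ncard = n + 1)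
    {z : SimpleGraph R × Set R} (hz : z.2.ncard ≠ 1)
    {π : R ≃ Leg n k × Fin (2 * n + 4)} (hπ : IsPl z π)
    (hno : ∀ π' : R ≃ Leg n k × Fin (2 * n + 4), IsPl z π' → ∃ x ∈ tok, π' x ∉ boxS n k K) :
    ∃ α ∈ SatK n K, z ∈ Zset k tok α := by
  have htf : tok.Finite := Set.finite_of_ncard_pos (by omega)
  -- a row which meets all the elements
  have h1 : ∃ j, ∀ e : Fin (n + 1), ∃ i, ∃ h : i < 2 * n + 4,
      π.symm (j, ⟨i, h⟩) ∈ tok ∧ elem n e i := by
    by_contra hcon
    push Not at hcon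
    choose e he using hcon
    have : Finite tok := htf
    obtain ⟨idx⟩ : Nonempty (tok ≃ Fin (n + 1)) :=
      ⟨Finite.equivFinOfCardEq (show Nat.card tok = n + 1 from htok)⟩
    have hch : ∀ j : {j : Leg n k // ∃ i, π.symm (j, i) ∈ tok}, ∃ i, π.symm (j.1, i) ∈ tok :=
      fun j => j.2
    choose i hi using hch
    obtain ⟨σ, hσ⟩ := exists_perm_extend
      (p := fun j : Leg n k => ∃ i, π.symm (j, i) ∈ tok)
      (fun j => Sum.inl (e j.1, idx ⟨π.symm (j.1, i j), hi j⟩)) (by
        intro j j' h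
        simp only [Sum.inl.injEq, Prod.mk.injEq] at h
        have h2 := congrArg Subtype.val (idx.injective h.2)
        have h3 := π.symm.injective h2
        exact Subtype.ext (congrArg Prod.fst h3))
    obtain ⟨x, hx, hx2⟩ := hno _ (hπ.perm σ)
    apply hx2
    have hx3 : π.symm ((π x).1, (π x).2) ∈ tok := by
      rw [Prod.mk.eta, Equiv.symm_apply_apply]
      exact hx
    show (σ (π x).1, (π x).2) ∈ boxS n k K
    rw [hσ _ ⟨_, hx3⟩]
    exact he (π x).1 (π x).2.1 (π x).2.2 hx3
  obtain ⟨j, hj⟩ := h1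
  choose i hi hi1 hi2 using hj
  have htr : tok = Set.range (fun e => π.symm (j, ⟨i e, hi e⟩)) := by
    symm
    refine Set.eq_of_subset_of_ncard_le ?_ ?_ htf
    · rintro _ ⟨e, rfl⟩
      exact hi1 e
    · rw [htok, ← Set.image_univ, Set.ncard_image_of_injective, Set.ncard_univ,
        Nat.card_eq_fintype_card, Fintype.card_fin]
      intro e e' h
      have h2 := π.symm.injective h
      simp only [Prod.mk.injEq, Fin.mk.injEq, true_and] at h2
      have h3 := (hi2 e).1
      have h4 := (hi2 e').1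
      exact Fin.ext (by rw [← h3, ← h4, h2])
  obtain ⟨α, hα⟩ := exists_code i hi2
  have htok2 : ∀ x ∈ tok, (π x).1 = j ∧ (π x).2.1 ∈ code α := by
    intro x hx
    rw [htr] at hx
    obtain ⟨e, rfl⟩ := hx
    rw [hα]
    simp only [Equiv.apply_symm_apply, true_and]
    exact ⟨e, rfl⟩
  have htok3 : ∀ i (h : i < 2 * n + 4), i ∈ code α → π.symm (j, ⟨i, h⟩) ∈ tok := by
    intro i' h' hi'
    rw [hα] at hi'
    obtain ⟨e, rfl⟩ := hi'
    exact hi1 e
  refine ⟨α, ?_, hz, ⟨π, hπ⟩, ?_⟩
  · intro c hc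
    obtain ⟨x, hx, hx2⟩ := hno _ (hπ.perm (Equiv.swap j (Sum.inr c)))
    apply hx2
    show (Equiv.swap j (Sum.inr c) (π x).1, (π x).2) ∈ boxS n k K
    rw [(htok2 x hx).1, Equiv.swap_apply_left]
    exact hc (htok2 x hx).2
  · let x : Fin (2 * n + 1) ↪ R := ⟨fun i => π.symm (j, ⟨i.1, by have := i.2; omega⟩), by
      intro a b h
      have h2 := π.symm.injective h
      simp only [Prod.mk.injEq, Fin.mk.injEq, true_and] at h2
      exact Fin.ext h2⟩
    have hxd : ∀ i : Fin (2 * n + 1), x i = π.symm (j, ⟨i.1, by have := i.2; omega⟩) :=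
      fun _ => rfl
    refine ⟨x, ?_, ?_⟩
    · by_contra hcon
      -- the missing edge
      have hs : ∃ s, ∃ h : s < 2 * n + 1, (s = 0 ∧ x 0 ∉ z.2) ∨
          (∃ h2 : 0 < s, ¬ z.1.Adj (x ⟨s - 1, by omega⟩) (x ⟨s, h⟩)) := by
        by_cases h0 : x 0 ∈ z.2
        · unfold IsChain at hcon
          push Not at hcon
          obtain ⟨i, h, hi⟩ := hcon h0
          exact ⟨i + 1, h, Or.inr ⟨Nat.succ_pos i, hi⟩⟩
        · exact ⟨0, by omega, Or.inl ⟨rfl, h0⟩⟩
      obtain ⟨s, hs, hmiss⟩ := hs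
      let rv : ℕ → ℕ := fun p => if s ≤ p then s + (2 * n + 3) - p else p
      have hrv : ∀ p, p < 2 * n + 4 → rv p < 2 * n + 4 := by
        intro p hp
        simp only [rv]
        split_ifs <;> omega
      have hrv2 : ∀ p, p < 2 * n + 4 → rv (rv p) = p := by
        intro p hp
        simp only [rv]
        split_ifs <;> omega
      let rF : Leg n k × Fin (2 * n + 4) → Leg n k × Fin (2 * n + 4) := fun p =>
        if p.1 = j then (p.1, ⟨rv p.2.1, hrv _ p.2.2⟩) else p
      have hrF : Function.Involutive rF := by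
        rintro ⟨j', p⟩
        by_cases h : j' = j
        · simp only [rF, if_pos h]
          exact Prod.ext rfl (Fin.ext (hrv2 _ p.2))
        · simp only [rF, if_neg h]
      have hpl : IsPl z (π.trans hrF.toPerm) := by
        have hadj : ∀ a b, z.1.Adj a b → (π a).2.1 + 1 = (π b).2.1 →
            (adjP (Leg n k) (2 * n + 4)).Adj (rF (π a)) (rF (π b)) := by
          intro a b hab hp
          obtain ⟨h1, -⟩ := hπ.1 a b hab
          by_cases h : (π a).1 = j
          · have h' : (π b).1 = j := h1 ▸ h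
            simp only [rF, if_pos h, if_pos h']
            refine ⟨h1, ?_⟩
            show rv (π a).2.1 + 1 = rv (π b).2.1 ∨ rv (π b).2.1 + 1 = rv (π a).2.1
            have hb := (π b).2.2
            by_cases hps : (π b).2.1 = s
            · exfalso
              rcases hmiss with ⟨h2, -⟩ | ⟨h2, h3⟩
              · omega
              · apply h3
                rw [hxd, hxd]
                have e1 : π.symm (j, ⟨s - 1, by omega⟩) = a := by
                  rw [Equiv.symm_apply_eq]
                  refine (Prod.ext h (Fin.ext ?_)).symm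
                  show (π a).2.1 = s - 1
                  omega
                have e2 : π.symm (j, ⟨s, by omega⟩) = b := by
                  rw [Equiv.symm_apply_eq]
                  exact (Prod.ext h' (Fin.ext hps)).symm
                rw [e1, e2]
                exact hab
            · simp only [rv]
              split_ifs <;> omega
          · have h' : (π b).1 ≠ j := fun h'' => h (h1 ▸ h'')
            simp only [rF, if_neg h, if_neg h']
            exact hπ.1 a b hab
        constructor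
        · intro a b hab
          rcases (hπ.1 a b hab).2 with h | h
          · exact hadj a b hab h
          · exact ((adjP (Leg n k) (2 * n + 4)).adj_symm (hadj b a hab.symm h))
        · intro a ha
          have h0 : (π a).2.1 = 0 := hπ.2 a ha
          show rF (π a) ∈ headP _ _
          by_cases h : (π a).1 = j
          · simp only [rF, if_pos h]
            show rv (π a).2.1 = 0
            rw [h0]
            have hs0 : 0 < s := by
              rcases hmiss with ⟨h2, h3⟩ | ⟨h2, -⟩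
              · exfalso
                apply h3
                have e1 : x 0 = a := by
                  rw [hxd, Equiv.symm_apply_eq]
                  exact (Prod.ext h (Fin.ext h0)).symm
                rw [e1]
                exact ha
              · exact h2
            simp only [rv]
            rw [if_neg (by omega)]
          · simp only [rF, if_neg h]
            exact h0
      obtain ⟨a, ha, ha2⟩ := hno _ (hpl.perm
        (Equiv.swap j (Sum.inl (⟨(s + 1) / 2, by omega⟩, ⟨0, by omega⟩))))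
      apply ha2
      obtain ⟨h1, h2⟩ := htok2 a ha
      show (Equiv.swap j (Sum.inl (⟨(s + 1) / 2, by omega⟩, ⟨0, by omega⟩)) (rF (π a)).1,
        (rF (π a)).2) ∈ boxS n k K
      simp only [rF, if_pos h1]
      rw [h1, Equiv.swap_apply_left]
      show ¬ elem n ((s + 1) / 2) (rv (π a).2.1)
      have h3 := code_le h2
      unfold elem
      simp only [rv]
      split_ifs <;> omega
    · ext y
      constructor
      · rintro ⟨i, hi, rfl⟩
        exact htok3 _ _ hi
      · intro hy
        obtain ⟨h1, h2⟩ := htok2 y hy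
        refine ⟨⟨(π y).2.1, by have := code_le h2; omega⟩, h2, ?_⟩
        rw [hxd, Equiv.symm_apply_eq]
        exact (Prod.ext h1 rfl : π y = (j, (π y).2)).symm

theorem Zset_spec {α : Fin n → Bool} {z : SimpleGraph R × Set R}
    {x : Fin (2 * n + 1) ↪ R} (hx : IsChain n z x) (hx2 : x '' {i | i.1 ∈ code α} = tok)
    {J : Type*} {π : R ≃ J × Fin (2 * n + 4)} (hπ : IsPl z π) :
    ∃ j, (∀ i, x i = π.symm (j, ⟨i.1, by have := i.2; omega⟩)) ∧
      ∀ y, y ∈ tok ↔ (π y).1 = j ∧ (π y).2.1 ∈ code α := by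
  obtain ⟨j, hj⟩ := chain_pos hπ hx
  refine ⟨j, fun i => ?_, fun y => ?_⟩
  · rw [Equiv.eq_symm_apply]
    exact Prod.ext (hj i).1 (Fin.ext (hj i).2)
  · rw [← hx2]
    constructor
    · rintro ⟨i, hi, rfl⟩
      refine ⟨(hj i).1, ?_⟩
      rw [(hj i).2]
      exact hi
    · rintro ⟨h1, h2⟩
      have h3 := code_le h2
      refine ⟨⟨(π y).2.1, by omega⟩, h2, ?_⟩
      apply π.injective
      exact Prod.ext ((hj _).1.trans h1.symm) (Fin.ext (hj _).2)

theorem sub_bad {K : Fin k → Set ℕ} {α : Fin n → Bool} (hα : α ∈ SatK n K)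
    {z : SimpleGraph R × Set R} (hz : z ∈ Zset k tok α) :
    z ∉ LabSet (adjP _ _) (headP _ _) (boxS n k K) tok := by
  rw [mem_LabSet]
  rintro ⟨-, π, hπ, hS⟩
  obtain ⟨-, -, x, hx, hx2⟩ := hz
  obtain ⟨j, h1, h2⟩ := Zset_spec hx hx2 hπ
  have h3 : ∀ i (h : i < 2 * n + 4), i ∈ code α → (j, ⟨i, h⟩) ∈ boxS n k K := by
    intro i h hi
    have h4 := hS (π.symm (j, ⟨i, h⟩)) ((h2 _).2 (by
      rw [Equiv.apply_symm_apply]
      exact ⟨rfl, hi⟩))
    rwa [Equiv.apply_symm_apply] at h4
  rcases j with e | c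
  · obtain ⟨i, hi, he⟩ := code_meets α e.1
    exact h3 i (by have := code_le hi; omega) hi he
  · exact hα c fun i hi => h3 i (by have := code_le hi; omega) hi

theorem Zset_disj {α β : Fin n → Bool} {z : SimpleGraph R × Set R}
    {x y : Fin (2 * n + 1) ↪ R} (hx : IsChain n z x) (hx2 : x '' {i | i.1 ∈ code α} = tok)
    (hy : IsChain n z y) (hy2 : y '' {i | i.1 ∈ code β} = tok)
    {J : Type*} {π : R ≃ J × Fin (2 * n + 4)} (hπ : IsPl z π) : α = β ∧ x = y := by
  obtain ⟨j, h1, h2⟩ := Zset_spec hx hx2 hπ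
  obtain ⟨j', h1', h2'⟩ := Zset_spec hy hy2 hπ
  have hj : j = j' := by
    have h3 : π.symm (j, ⟨2 * n, by omega⟩) ∈ tok := (h2 _).2 (by
      rw [Equiv.apply_symm_apply]
      exact ⟨rfl, Or.inl rfl⟩)
    have h4 := ((h2' _).1 h3).1
    rwa [Equiv.apply_symm_apply] at h4
  subst hj
  refine ⟨?_, ?_⟩
  · apply code_inj
    ext i
    by_cases hi : i < 2 * n + 4
    · have h3 := h2 (π.symm (j, ⟨i, hi⟩))
      have h4 := h2' (π.symm (j, ⟨i, hi⟩))
      rw [Equiv.apply_symm_apply] at h3 h4
      simp only [true_and] at h3 h4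
      exact h3.symm.trans h4
    · constructor
      · intro h
        have := code_le h
        omega
      · intro h
        have := code_le h
        omega
  · ext i
    rw [h1, h1']

end bad

end Pool.Agent.Forest17
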