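import Pool.Agent.Lib.MP_17af9c_lc.Codes
import Pool.Agent.Lib.PolyTime.IntBin

/-!
# Codes of spiders whose legs are paths of hubs with pendant leaves
-/

namespace Pool.Agent.Lib.SubForests

open Pool.Agent.Lib.PolyTime

/-- Vertices of a spider with `L` legs of length `N`, where the hub `(ℓ, j)` has `lv ℓ j` leaves:
`none` is the centre, `some ⟨(ℓ, j), none⟩` the hub, `some ⟨(ℓ, j), some i⟩` a leaf. -/
abbrev SV (L N : ℕ) (lv : ℕ → ℕ → ℕ) : Type :=
  Option (Σ h : Fin L × Fin N, Option (Fin (lv h.1 h.2)))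

variable {L N M : ℕ} {lv : ℕ → ℕ → ℕ}

/-- The hub at position `j` of leg `ℓ`. -/
def SV.hub (ℓ : Fin L) (j : Fin N) : SV L N lv := some ⟨(ℓ, j), none⟩

/-- The leaf number `i` of the hub at position `j` of leg `ℓ`. -/
def SV.leaf (ℓ : Fin L) (j : Fin N) (i : Fin (lv ℓ j)) : SV L N lv := some ⟨(ℓ, j), some i⟩

/-- The parent. -/
def SV.parent : SV L N lv → SV L N lv
  | none => none
  | some ⟨(ℓ, j), none⟩ =>
    if j.1 = 0 then none else SV.hub ℓ ⟨j.1 - 1, lt_of_le_of_lt (Nat.sub_le _ _) j.2⟩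
  | some ⟨(ℓ, j), some _⟩ => SV.hub ℓ j

/-- The rank. -/
def SV.rank : SV L N lv → ℕ
  | none => 0
  | some ⟨(_, j), none⟩ => j.1 + 1
  | some ⟨(_, _), some _⟩ => N + 1

theorem SV.rank_parent (v : SV L N lv) (hv : v ≠ none) : v.parent.rank < v.rank := by
  match v, hv with
  | some ⟨(ℓ, j), none⟩, _ =>
    by_cases h : j.1 = 0
    · simp [SV.parent, SV.rank, h]
    · simp only [SV.parent, h, if_false, SV.hub, SV.rank]
      omega
  | some ⟨(ℓ, j), some i⟩, _ =>
    simp only [SV.parent, SV.hub, SV.rank]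
    have := j.2
    omega

/-- The spider. -/
def spider (L N : ℕ) (lv : ℕ → ℕ → ℕ) : SimpleGraph (SV L N lv) where
  Adj a b := (a ≠ none ∧ b = a.parent) ∨ (b ≠ none ∧ a = b.parent)
  symm := ⟨fun _ _ h => h.symm⟩
  loopless := ⟨fun a h => by
    rcases h with ⟨h, h'⟩ | ⟨h, h'⟩
    · have := SV.rank_parent a h
      rw [← h'] at this
      omega
    · have := SV.rank_parent a h
      rw [← h'] at this
      omega⟩

/-- Number of a hub. -/
def hubN (N ℓ j : ℕ) : ℕ := 1 + (ℓ * N + j)

/-- Number of a leaf. -/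
def leafN (L N M ℓ j i : ℕ) : ℕ := 1 + (L * N + ((ℓ * N + j) * M + i))

/-- Names of the vertices. -/
def SV.name (M : ℕ) : SV L N lv → ℕ
  | none => 0
  | some ⟨(ℓ, j), none⟩ => hubN N ℓ j
  | some ⟨(ℓ, j), some i⟩ => leafN L N M ℓ j i

theorem pair_inj {N a b c d : ℕ} (hb : b < N) (hd : d < N) (h : a * N + b = c * N + d) :
    a = c ∧ b = d := by
  have hN : 0 < N := by omega
  have h1 : (a * N + b) / N = a := by
    rw [mul_comm, Nat.mul_add_div hN, Nat.div_eq_of_lt hb, add_zero]
  have h2 : (c * N + d) / N = c := by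
    rw [mul_comm, Nat.mul_add_div hN, Nat.div_eq_of_lt hd, add_zero]
  have h3 : a = c := by rw [← h1, ← h2, h]
  subst h3
  exact ⟨rfl, by omega⟩

theorem SV.name_injective (hM : ∀ ℓ j, lv ℓ j ≤ M) :
    Function.Injective (SV.name M : SV L N lv → ℕ) := by
  have hlt : ∀ (ℓ : Fin L) (j : Fin N), ℓ.1 * N + j.1 < L * N := fun ℓ j => by
    have h1 := j.2
    have h2 : (ℓ.1 + 1) * N ≤ L * N := Nat.mul_le_mul_right _ ℓ.2
    nlinarith
  intro a b h
  match a, b with
  | none, none => rfl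
  | none, some ⟨(ℓ, j), none⟩ => simp only [SV.name, hubN] at h; omega
  | none, some ⟨(ℓ, j), some i⟩ => simp only [SV.name, leafN] at h; omega
  | some ⟨(ℓ, j), none⟩, none => simp only [SV.name, hubN] at h; omega
  | some ⟨(ℓ, j), some i⟩, none => simp only [SV.name, leafN] at h; omega
  | some ⟨(ℓ, j), none⟩, some ⟨(ℓ', j'), none⟩ =>
    simp only [SV.name, hubN, add_right_inj] at h
    obtain ⟨h1, h2⟩ := pair_inj j.2 j'.2 h
    rw [Fin.ext h1, Fin.ext h2]
  | some ⟨(ℓ, j), none⟩, some ⟨(ℓ', j'), some i⟩ =>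
    simp only [SV.name, hubN, leafN, add_right_inj] at h
    have := hlt ℓ j
    omega
  | some ⟨(ℓ, j), some i⟩, some ⟨(ℓ', j'), none⟩ =>
    simp only [SV.name, hubN, leafN, add_right_inj] at h
    have := hlt ℓ' j'
    omega
  | some ⟨(ℓ, j), some i⟩, some ⟨(ℓ', j'), some i'⟩ =>
    simp only [SV.name, leafN, add_right_inj] at h
    obtain ⟨h1, h2⟩ := pair_inj (lt_of_lt_of_le i.2 (hM _ _)) (lt_of_lt_of_le i'.2 (hM _ _)) h
    obtain ⟨h3, h4⟩ := pair_inj j.2 j'.2 h1
    obtain rfl := Fin.ext h3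
    obtain rfl := Fin.ext h4
    obtain rfl := Fin.ext h2
    rfl

/-- All vertices except the centre. -/
def SV.list (L N : ℕ) (lv : ℕ → ℕ → ℕ) : List (SV L N lv) :=
  (List.finRange L).flatMap fun ℓ => (List.finRange N).flatMap fun j =>
    SV.hub ℓ j :: (List.finRange (lv ℓ j)).map fun i => SV.leaf ℓ j i

theorem SV.mem_list (v : SV L N lv) : v ∈ SV.list L N lv ↔ v ≠ none := by
  match v with
  | none => simp [SV.list, SV.hub, SV.leaf]
  | some ⟨(ℓ, j), none⟩ =>
    simp only [SV.list, List.mem_flatMap, List.mem_finRange, true_and, ne_eq, reduceCtorEq,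
      not_false_eq_true, iff_true]
    exact ⟨ℓ, j, by simp [SV.hub]⟩
  | some ⟨(ℓ, j), some i⟩ =>
    simp only [SV.list, List.mem_flatMap, List.mem_finRange, true_and, ne_eq, reduceCtorEq,
      not_false_eq_true, iff_true]
    exact ⟨ℓ, j, by simp [SV.leaf]⟩

theorem SV.nodup_list : (SV.list L N lv).Nodup := by
  have h2 : ∀ (ℓ : Fin L) (j : Fin N) (v : SV L N lv),
      (v ∈ (SV.hub ℓ j : SV L N lv) :: (List.finRange (lv ℓ j)).map fun i => SV.leaf ℓ j i) →
        ∃ o, v = some ⟨(ℓ, j), o⟩ := by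
    intro ℓ j v hv
    rcases List.mem_cons.1 hv with rfl | hv
    · exact ⟨_, rfl⟩
    · obtain ⟨i, _, rfl⟩ := List.mem_map.1 hv
      exact ⟨_, rfl⟩
  rw [SV.list, List.nodup_flatMap]
  refine ⟨fun ℓ _ => ?_, ?_⟩
  · rw [List.nodup_flatMap]
    refine ⟨fun j _ => ?_, ?_⟩
    · rw [List.nodup_cons]
      constructor
      · simp [SV.hub, SV.leaf]
      · refine (List.nodup_finRange _).map fun i i' h => ?_
        simpa [SV.leaf] using h
    · refine (List.nodup_finRange _).imp fun {j j'} hjj' => ?_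
      intro v h h'
      obtain ⟨o, rfl⟩ := h2 ℓ j v h
      obtain ⟨o', h3⟩ := h2 ℓ j' _ h'
      simp only [Option.some.injEq, Sigma.mk.injEq, Prod.mk.injEq] at h3
      exact hjj' h3.1.2
  · refine (List.nodup_finRange _).imp fun {ℓ ℓ'} hll' => ?_
    intro v h h'
    obtain ⟨j, _, hj⟩ := List.mem_flatMap.1 h
    obtain ⟨j', _, hj'⟩ := List.mem_flatMap.1 h'
    obtain ⟨o, rfl⟩ := h2 ℓ j v hj
    obtain ⟨o', h3⟩ := h2 ℓ' j' _ hj'
    simp only [Option.some.injEq, Sigma.mk.injEq, Prod.mk.injEq] at h3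
    exact hll' h3.1.1

/-- The list of the names of the vertices. -/
def vertsN (L N M : ℕ) (lv : ℕ → ℕ → ℕ) : List ℕ :=
  0 :: (List.range L).flatMap fun ℓ => (List.range N).flatMap fun j =>
    hubN N ℓ j :: (List.range (lv ℓ j)).map fun i => leafN L N M ℓ j i

/-- The list of the edges. -/
def edgesN (L N M : ℕ) (lv : ℕ → ℕ → ℕ) : List (ℕ × ℕ) :=
  (List.range L).flatMap fun ℓ => (List.range N).flatMap fun j =>
    (hubN N ℓ j, if j = 0 then 0 else hubN N ℓ (j - 1)) ::
      (List.range (lv ℓ j)).map fun i => (leafN L N M ℓ j i, hubN N ℓ j)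

/-- Change of type. -/
def nb (n : ℕ) : NBin := n

/-- Change of type. -/
def nb2 (e : ℕ × ℕ) : NBin × NBin := (nb e.1, nb e.2)

/-- The code of the spider. -/
def spiderCode (L N M : ℕ) (lv : ℕ → ℕ → ℕ) : Code :=
  ((vertsN L N M lv).map nb, (edgesN L N M lv).map nb2)

theorem flatMap_finRange {γ : Type*} (n : ℕ) (f : ℕ → List γ) :
    (List.finRange n).flatMap (fun i : Fin n => f i.1) = (List.range n).flatMap f := by
  rw [← List.map_coe_finRange_eq_range, List.flatMap_map]

theorem map_finRange {γ : Type*} (n : ℕ) (f : ℕ → γ) :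
    (List.finRange n).map (fun i : Fin n => f i.1) = (List.range n).map f := by
  rw [← List.map_coe_finRange_eq_range, List.map_map]
  rfl

theorem spiderCode_eq : spiderCode L N M lv =
    mkCode (fun v => nb (SV.name M v)) (none :: SV.list L N lv)
      ((SV.list L N lv).map fun v => (v, v.parent)) := by
  refine Prod.ext ?_ ?_
  · show (vertsN L N M lv).map nb = (none :: SV.list L N lv).map (nb ∘ SV.name M)
    rw [← List.map_map]
    refine congrArg (List.map nb) ?_
    rw [List.map_cons, SV.list, List.map_flatMap, vertsN]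
    refine congrArg (fun l => (0 : ℕ) :: l) ?_
    rw [← flatMap_finRange]
    refine List.flatMap_congr fun ℓ _ => ?_
    rw [List.map_flatMap, ← flatMap_finRange]
    refine List.flatMap_congr fun j _ => ?_
    rw [List.map_cons, List.map_map, ← map_finRange]
    rfl
  · show (edgesN L N M lv).map nb2 = ((SV.list L N lv).map fun v => (v, v.parent)).map
      (nb2 ∘ fun e => (SV.name M e.1, SV.name M e.2))
    rw [← List.map_map]
    refine congrArg (List.map nb2) ?_
    rw [List.map_map, SV.list, List.map_flatMap, edgesN]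
    rw [← flatMap_finRange]
    refine List.flatMap_congr fun ℓ _ => ?_
    rw [List.map_flatMap, ← flatMap_finRange]
    refine List.flatMap_congr fun j _ => ?_
    rw [List.map_cons, List.map_map, ← map_finRange]
    congr 1
    simp only [Function.comp_apply, SV.parent, SV.hub, SV.name]
    by_cases h : j.1 = 0
    · rw [if_pos h, if_pos h]
    · rw [if_neg h, if_neg h]

theorem spiderCode_spec (hM : ∀ ℓ j, lv ℓ j ≤ M) : (spiderCode L N M lv).IsTree ∧
    Nonempty (spider L N lv ≃g (spiderCode L N M lv).graph) := by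
  rw [spiderCode_eq]
  exact isTree_mkCode (spider L N lv) none SV.parent SV.rank (fun v hv => SV.rank_parent v hv)
    (fun _ _ => Iff.rfl) (fun v => nb (SV.name M v)) (SV.name_injective hM) _
    (fun v => by
      rw [List.mem_cons, SV.mem_list]
      exact em _)
    (List.nodup_cons.2 ⟨fun h => (SV.mem_list _).1 h rfl, SV.nodup_list⟩) _
    SV.mem_list SV.nodup_list

/-- The spider as an instance. -/
def spiderTree (L N M : ℕ) (lv : ℕ → ℕ → ℕ) (hM : ∀ ℓ j, lv ℓ j ≤ M) : Tree :=
  ⟨spiderCode L N M lv, (spiderCode_spec hM).1⟩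

theorem numSubforests_spiderTree (hM : ∀ ℓ j, lv ℓ j ≤ M) :
    numSubforests (spiderTree L N M lv hM) = numSub (spider L N lv) := by
  obtain ⟨e⟩ := (spiderCode_spec (L := L) (N := N) hM).2
  exact (numSub_congr e).symm

end Pool.Agent.Lib.SubForests
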