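import Pool.Agent.Lib.MP_17af9c_lc.Spider
import Pool.Agent.Lib.PolyTime.Matching

/-!
# The codes of spiders are computed in polynomial time
-/

namespace Pool.Agent.Lib.SubForests

open Pool.Agent.Lib.PolyTime

/-- Number of leaves prescribed by the boxes. -/
def leavesOf (bx : List (List Bool)) (m μ : ℕ) (ℓ j : ℕ) : ℕ :=
  m + bif (bx.getD ℓ []).getD j false then μ else 0

theorem leavesOf_le (bx : List (List Bool)) (m μ : ℕ) (ℓ j : ℕ) : leavesOf bx m μ ℓ j ≤ m + μ := by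
  unfold leavesOf
  cases (bx.getD ℓ []).getD j false <;> simp

/-- The spider of a list of boxes. -/
def boxTree (bx : List (List Bool)) (N m μ : ℕ) : Tree :=
  spiderTree bx.length N (m + μ) (leavesOf bx m μ) (leavesOf_le bx m μ)

theorem numSubforests_boxTree (bx : List (List Bool)) (N m μ : ℕ) :
    numSubforests (boxTree bx N m μ) = numSub (spider bx.length N (leavesOf bx m μ)) :=
  numSubforests_spiderTree _

variable {α β γ : Type*} [TEnc α] [TEnc β] [TEnc γ]

theorem polyF_leavesOf {bx : α → List (List Bool)} {m μ ℓ j : α → ℕ} (hbx : PolyF bx)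
    (hm : PolyF m) (hμ : PolyF μ) (hℓ : PolyF ℓ) (hj : PolyF j) :
    PolyF (fun x => leavesOf (bx x) (m x) (μ x) (ℓ x) (j x)) :=
  hm.natAdd ((PolyF.listGetD hj (PolyF.listGetD hℓ hbx (PolyF.const [])) (PolyF.const false)).cond
    hμ (PolyF.const 0))

theorem polyF_hubN {N ℓ j : α → ℕ} (hN : PolyF N) (hℓ : PolyF ℓ) (hj : PolyF j) :
    PolyF (fun x => hubN (N x) (ℓ x) (j x)) :=
  (PolyF.const 1).natAdd ((hℓ.natMul hN).natAdd hj)

theorem polyF_leafN {L N M ℓ j i : α → ℕ} (hL : PolyF L) (hN : PolyF N) (hM : PolyF M)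
    (hℓ : PolyF ℓ) (hj : PolyF j) (hi : PolyF i) :
    PolyF (fun x => leafN (L x) (N x) (M x) (ℓ x) (j x) (i x)) :=
  (PolyF.const 1).natAdd ((hL.natMul hN).natAdd
    (((((hℓ.natMul hN).natAdd hj)).natMul hM).natAdd hi))

theorem polyF_nb {f : α → ℕ} (hf : PolyF f) : PolyF (fun x => nb (f x)) := hf.nbOfNat

theorem polyF_nb2 {f : α → ℕ × ℕ} (hf : PolyF f) : PolyF (fun x => nb2 (f x)) :=
  (polyF_nb hf.fst).pair (polyF_nb hf.snd)

theorem polyF_boxTree {bx : α → List (List Bool)} {N m μ : α → ℕ} (hbx : PolyF bx)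
    (hN : PolyF N) (hm : PolyF m) (hμ : PolyF μ) :
    PolyF (fun x => boxTree (bx x) (N x) (m x) (μ x)) := by
  have hL : PolyF (fun x => (bx x).length) := hbx.length
  have hM : PolyF (fun x => m x + μ x) := hm.natAdd hμ
  -- the inner parameters
  have e1 : PolyF (fun p : (α × ℕ) × ℕ => hubN (N p.1.1) p.1.2 p.2) :=
    polyF_hubN (hN.comp PolyF.fst'.fst) PolyF.fst'.snd PolyF.snd'
  have e2 : PolyF (fun p : (α × ℕ) × ℕ => leavesOf (bx p.1.1) (m p.1.1) (μ p.1.1) p.1.2 p.2) :=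
    polyF_leavesOf (hbx.comp PolyF.fst'.fst) (hm.comp PolyF.fst'.fst) (hμ.comp PolyF.fst'.fst)
      PolyF.fst'.snd PolyF.snd'
  have e3 : PolyF (fun p : ((α × ℕ) × ℕ) × ℕ =>
      leafN (bx p.1.1.1).length (N p.1.1.1) (m p.1.1.1 + μ p.1.1.1) p.1.1.2 p.1.2 p.2) :=
    polyF_leafN (hL.comp PolyF.fst'.fst.fst) (hN.comp PolyF.fst'.fst.fst)
      (hM.comp PolyF.fst'.fst.fst) PolyF.fst'.fst.snd PolyF.fst'.snd PolyF.snd'
  have hv : PolyF (fun x => vertsN (bx x).length (N x) (m x + μ x)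
      (leavesOf (bx x) (m x) (μ x))) := by
    refine (PolyF.const 0).cons (hL.range.flatMap (h := fun x ℓ =>
      (List.range (N x)).flatMap fun j => hubN (N x) ℓ j ::
        (List.range (leavesOf (bx x) (m x) (μ x) ℓ j)).map fun i =>
          leafN (bx x).length (N x) (m x + μ x) ℓ j i) ?_)
    refine (hN.comp PolyF.fst').range.flatMap (h := fun (p : α × ℕ) j => hubN (N p.1) p.2 j ::
        (List.range (leavesOf (bx p.1) (m p.1) (μ p.1) p.2 j)).map fun i =>
          leafN (bx p.1).length (N p.1) (m p.1 + μ p.1) p.2 j i) ?_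
    exact e1.cons (e2.range.map (h := fun (p : (α × ℕ) × ℕ) i =>
      leafN (bx p.1.1).length (N p.1.1) (m p.1.1 + μ p.1.1) p.1.2 p.2 i) e3)
  have he : PolyF (fun x => edgesN (bx x).length (N x) (m x + μ x)
      (leavesOf (bx x) (m x) (μ x))) := by
    refine hL.range.flatMap (h := fun x ℓ => (List.range (N x)).flatMap fun j =>
      (hubN (N x) ℓ j, if j = 0 then 0 else hubN (N x) ℓ (j - 1)) ::
        (List.range (leavesOf (bx x) (m x) (μ x) ℓ j)).map fun i =>
          (leafN (bx x).length (N x) (m x + μ x) ℓ j i, hubN (N x) ℓ j)) ?_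
    refine (hN.comp PolyF.fst').range.flatMap (h := fun (p : α × ℕ) j =>
      (hubN (N p.1) p.2 j, if j = 0 then 0 else hubN (N p.1) p.2 (j - 1)) ::
        (List.range (leavesOf (bx p.1) (m p.1) (μ p.1) p.2 j)).map fun i =>
          (leafN (bx p.1).length (N p.1) (m p.1 + μ p.1) p.2 j i, hubN (N p.1) p.2 j)) ?_
    refine (e1.pair (PolyF.ite PolyF.snd'.natIsZero (PolyF.const 0)
      (polyF_hubN (hN.comp PolyF.fst'.fst) PolyF.fst'.snd PolyF.snd'.pred))).cons
        (e2.range.map (h := fun (p : (α × ℕ) × ℕ) i =>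
          (leafN (bx p.1.1).length (N p.1.1) (m p.1.1 + μ p.1.1) p.1.2 p.2 i,
            hubN (N p.1.1) p.1.2 p.2)) (e3.pair (e1.comp PolyF.fst')))
  exact PolyF.mk ((hv.map (h := fun _ n => nb n) (polyF_nb PolyF.snd')).pair
    (he.map (h := fun _ n => nb2 n) (polyF_nb2 PolyF.snd'))) _

end Pool.Agent.Lib.SubForests
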