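import Mathlib

/-!
# The counting problem #SUBFORESTS, the class #P and reductions between counting problems

All definitions which occur in the final theorem. Polynomial time is Mathlib's notion of
polynomial time for Turing machines with several stacks, `Turing.TM2ComputableInPolyTime`.
-/

namespace Pool.Agent.Lib.CountingForests

open Turing

/-! ## Counting problems -/

/-- The word of a pair of bit strings: the two strings with a separator between them. -/
def pairWord (p : List Bool × List Bool) : List (Option Bool) :=
  p.1.map some ++ none :: p.2.map some

/-- The class #P: `f x` is the number of witnesses `w` of length `p(|x|)` with `V (x, w) = true`,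
for a polynomial `p` and a predicate `V` decidable in polynomial time. -/
def SharpP (f : List Bool → ℕ) : Prop :=
  ∃ (p : Polynomial ℕ) (V : List Bool × List Bool → Bool),
    Nonempty (TM2ComputableInPolyTime pairWord Computability.encodeBool V) ∧
    ∀ x, f x = Nat.card {w : List Bool // w.length = p.eval x.length ∧ V (x, w) = true}

/-- The word of a list of bit strings: every bit string is followed by a separator. -/
def tupleWord (l : List (List Bool)) : List (Option Bool) :=
  l.flatMap fun w => w.map some ++ [none]

/-- Nonadaptive polynomial-time reduction of the counting problem `f`, whose instances `x : α` are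
given by the bit strings `ea x`, to the counting problem `g`, whose instances are given by `eb`:
in polynomial time one computes from `x` a list `q x` of instances of `g`, and in polynomial time
one computes `f x` from `x` and the values of `g` at these instances. Values are written in
binary. This is a special case of polynomial-time Turing reducibility. -/
def Reduces {α β : Type} (ea : α → List Bool) (f : α → ℕ) (eb : β → List Bool) (g : β → ℕ) :
    Prop :=
  ∃ (q : α → List β) (h : α × List ℕ → ℕ),
    Nonempty (TM2ComputableInPolyTime ea (fun l => tupleWord (l.map eb)) q) ∧
    Nonempty (TM2ComputableInPolyTime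
      (fun p : α × List ℕ => tupleWord (ea p.1 :: p.2.map Nat.bits)) Nat.bits h) ∧
    ∀ x, f x = h (x, (q x).map g)

/-- A counting problem is #P-complete: all problems in #P reduce to it, and it reduces to a
problem in #P. -/
def SharpPComplete {α : Type} (e : α → List Bool) (f : α → ℕ) : Prop :=
  (∀ g : List Bool → ℕ, SharpP g → Reduces id g e f) ∧
  (∃ g : List Bool → ℕ, SharpP g ∧ Reduces e f id g)

/-! ## Subforests of trees -/

/-- Spanning subgraphs `(V, E')`, `E' ⊆ E`, of a graph `(V, E)` up to isomorphism. -/
def isoSetoid {V : Type} (G : SimpleGraph V) : Setoid {H : SimpleGraph V // H ≤ G} where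
  r A B := Nonempty (A.1 ≃g B.1)
  iseqv := ⟨fun _ => ⟨RelIso.refl _⟩, fun ⟨e⟩ => ⟨e.symm⟩, fun ⟨e⟩ ⟨e'⟩ => ⟨e.trans e'⟩⟩

/-- The number of isomorphism classes of graphs `(V, E')` with `E' ⊆ E(G)`. -/
noncomputable def numSub {V : Type} (G : SimpleGraph V) : ℕ :=
  Nat.card (Quotient (isoSetoid G))

/-- The graph given by a list of vertices and a list of edges (pairs of vertices); the vertices
are natural numbers. -/
def graphOf (t : List ℕ × List (ℕ × ℕ)) : SimpleGraph {v : ℕ // v ∈ t.1} :=
  SimpleGraph.fromRel fun a b => (a.1, b.1) ∈ t.2

/-- The two lists describe a tree: the vertices are pairwise distinct, every edge joins two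
distinct vertices of the list and is listed only once, and the graph is a tree. -/
structure DescribesTree (t : List ℕ × List (ℕ × ℕ)) : Prop where
  vertices : t.1.Nodup
  ends : ∀ e ∈ t.2, e.1 ∈ t.1 ∧ e.2 ∈ t.1
  loopless : ∀ e ∈ t.2, e.1 ≠ e.2
  edges : (t.2.map fun e => s(e.1, e.2)).Nodup
  tree : (graphOf t).IsTree

/-- The instances of #SUBFORESTS: trees given by their lists of vertices and edges. -/
def InputTree : Type := {t : List ℕ × List (ℕ × ℕ) // DescribesTree t}

/-- The self-delimiting binary notation of a number: every binary digit (the lowest first) is
preceded by `true`, and `false` marks the end. -/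
def natWord (n : ℕ) : List Bool := ((Nat.bits n).flatMap fun b => [true, b]) ++ [false]

/-- The bit string of an instance: the number of vertices, the vertices, and the two ends of every
edge, each number in self-delimiting binary notation. -/
def treeWord (t : InputTree) : List Bool :=
  natWord t.1.1.length ++ t.1.1.flatMap natWord ++
    t.1.2.flatMap fun e => natWord e.1 ++ natWord e.2

/-- #SUBFORESTS: the number of isomorphism classes of subforests of a tree. -/
noncomputable def numSubforests (t : InputTree) : ℕ := numSub (graphOf t.1)

end Pool.Agent.Lib.CountingForests
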