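import Pool.Agent.Lib.MP_17af9c_lc.Rows

/-!
# The number of bad structures of an assignment does not depend on the assignment
-/

namespace Pool.Agent.Forest17

open Classical

variable {n k : ℕ} {R : Type*} {tok : Set R}

/-! ### Swapping the two positions of some variables -/

/-- The assignments differ at the variable number `v`. -/
def Dif (α β : Fin n → Bool) (v : ℕ) : Prop := ∃ h : v < n, α ⟨v, h⟩ ≠ β ⟨v, h⟩

theorem Dif_comm {α β : Fin n → Bool} : Dif α β = Dif β α := by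
  funext v
  exact propext ⟨fun ⟨h, h2⟩ => ⟨h, h2.symm⟩, fun ⟨h, h2⟩ => ⟨h, h2.symm⟩⟩

/-- Swap the positions `2 v` and `2 v + 1` for the variables `v` in `D`. -/
noncomputable def swN (n : ℕ) (D : ℕ → Prop) (i : ℕ) : ℕ :=
  if i < 2 * n ∧ D (i / 2) then (if i % 2 = 0 then i + 1 else i - 1) else i

theorem swN_lt {D : ℕ → Prop} {i : ℕ} (h : i < 2 * n + 1) : swN n D i < 2 * n + 1 := by
  unfold swN
  split_ifs <;> omega

theorem swN_div {D : ℕ → Prop} (i : ℕ) : swN n D i / 2 = i / 2 := by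
  unfold swN
  split_ifs <;> omega

theorem swN_swN (D : ℕ → Prop) (i : ℕ) : swN n D (swN n D i) = i := by
  by_cases h : i < 2 * n ∧ D (i / 2)
  · have h1 : swN n D i < 2 * n := by
      unfold swN
      rw [if_pos h]
      split_ifs <;> omega
    have h2 : swN n D i < 2 * n ∧ D (swN n D i / 2) := ⟨h1, by rw [swN_div]; exact h.2⟩
    rw [swN, if_pos h2]
    unfold swN
    rw [if_pos h]
    split_ifs <;> omega
  · have : swN n D i = i := by rw [swN, if_neg h]
    rw [this, this]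

theorem swN_code {α β : Fin n → Bool} {i : ℕ} (h : i ∈ code β) : swN n (Dif α β) i ∈ code α := by
  rcases h with rfl | ⟨v, rfl⟩
  · left
    unfold swN
    rw [if_neg (by omega)]
  · right
    refine ⟨v, ?_⟩
    have hv := v.2
    have h1 : (2 * v.1 + (β v).toNat) / 2 = v.1 := by
      have := Bool.toNat_le (β v)
      omega
    have h2 : Dif α β v.1 ↔ α v ≠ β v := ⟨fun ⟨_, h⟩ => h, fun h => ⟨hv, h⟩⟩
    unfold swN
    rw [h1, h2]
    cases ha : α v <;> cases hb : β v <;> simp <;> omega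

/-- The permutation of the positions. -/
noncomputable def swP (n : ℕ) (D : ℕ → Prop) : Equiv.Perm (Fin (2 * n + 1)) :=
  Function.Involutive.toPerm (fun i => ⟨swN n D i.1, swN_lt i.2⟩)
    fun i => Fin.ext (swN_swN D i.1)

theorem swP_swP (D : ℕ → Prop) (i : Fin (2 * n + 1)) : swP n D (swP n D i) = i :=
  Fin.ext (swN_swN D i.1)

theorem swP_val (D : ℕ → Prop) (i : Fin (2 * n + 1)) : (swP n D i).1 = swN n D i.1 := rfl

/-- The permutation of the labels. -/
noncomputable def rho (D : ℕ → Prop) (x : Fin (2 * n + 1) ↪ R) : Equiv.Perm R :=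
  (swP n D).viaEmbedding x

theorem rho_apply (D : ℕ → Prop) (x : Fin (2 * n + 1) ↪ R) (i : Fin (2 * n + 1)) :
    rho D x (x i) = x (swP n D i) := Equiv.Perm.viaEmbedding_apply _ _ _

theorem rho_of_not (D : ℕ → Prop) (x : Fin (2 * n + 1) ↪ R) {y : R} (hy : y ∉ Set.range x) :
    rho D x y = y := Equiv.Perm.viaEmbedding_apply_of_notMem _ _ _ hy

theorem rho_rho (D : ℕ → Prop) (x : Fin (2 * n + 1) ↪ R) (y : R) :
    rho D x (rho D x y) = y := by
  by_cases hy : y ∈ Set.range x
  · obtain ⟨i, rfl⟩ := hy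
    rw [rho_apply, rho_apply, swP_swP]
  · rw [rho_of_not D x hy, rho_of_not D x hy]

/-- The permuted chain. -/
noncomputable def chn (D : ℕ → Prop) (x : Fin (2 * n + 1) ↪ R) : Fin (2 * n + 1) ↪ R :=
  (swP n D).toEmbedding.trans x

theorem chn_apply (D : ℕ → Prop) (x : Fin (2 * n + 1) ↪ R) (i : Fin (2 * n + 1)) :
    chn D x i = x (swP n D i) := rfl

theorem chn_chn (D : ℕ → Prop) (x : Fin (2 * n + 1) ↪ R) : chn D (chn D x) = x := by
  ext i
  rw [chn_apply, chn_apply, swP_swP]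

theorem rho_chn (D : ℕ → Prop) (x : Fin (2 * n + 1) ↪ R) : rho D (chn D x) = rho D x := by
  have hr : Set.range (chn D x) = Set.range x := by
    ext y
    constructor
    · rintro ⟨i, rfl⟩
      exact ⟨_, rfl⟩
    · rintro ⟨i, rfl⟩
      exact ⟨swP n D i, by rw [chn_apply, swP_swP]⟩
  ext y
  by_cases hy : y ∈ Set.range (chn D x)
  · obtain ⟨i, rfl⟩ := hy
    rw [rho_apply, chn_apply, chn_apply, rho_apply]
  · rw [rho_of_not _ _ hy, rho_of_not _ _ (hr ▸ hy)]

/-- Relabelling. -/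
def rel (ρ : Equiv.Perm R) (z : SimpleGraph R × Set R) : SimpleGraph R × Set R :=
  (z.1.comap ρ, ρ ⁻¹' z.2)

theorem rel_rel {ρ : Equiv.Perm R} (h : ∀ y, ρ (ρ y) = y) (z : SimpleGraph R × Set R) :
    rel ρ (rel ρ z) = z := by
  refine Prod.ext ?_ ?_
  · ext a b
    show z.1.Adj (ρ (ρ a)) (ρ (ρ b)) ↔ _
    rw [h, h]
  · ext a
    show ρ (ρ a) ∈ z.2 ↔ _
    rw [h]

/-- The bad structures together with their chains. -/
def Yset (k : ℕ) (tok : Set R) (α : Fin n → Bool) :
    Set ((SimpleGraph R × Set R) × (Fin (2 * n + 1) ↪ R)) :=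
  {w | w.1.2.ncard ≠ 1 ∧ (∃ π : R ≃ Leg n k × Fin (2 * n + 4), IsPl w.1 π) ∧
    IsChain n w.1 w.2 ∧ w.2 '' {i | i.1 ∈ code α} = tok}

/-- The swap on structures with chains. -/
noncomputable def Psi (D : ℕ → Prop) (w : (SimpleGraph R × Set R) × (Fin (2 * n + 1) ↪ R)) :
    (SimpleGraph R × Set R) × (Fin (2 * n + 1) ↪ R) :=
  (rel (rho D w.2) w.1, chn D w.2)

theorem Psi_Psi (D : ℕ → Prop) (w : (SimpleGraph R × Set R) × (Fin (2 * n + 1) ↪ R)) :
    Psi D (Psi D w) = w := by
  unfold Psi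
  refine Prod.ext ?_ (chn_chn D w.2)
  show rel (rho D (chn D w.2)) (rel (rho D w.2) w.1) = w.1
  rw [rho_chn, rel_rel (rho_rho D w.2)]

theorem Psi_mem {α β : Fin n → Bool} {w : (SimpleGraph R × Set R) × (Fin (2 * n + 1) ↪ R)}
    (hw : w ∈ Yset k tok α) : Psi (Dif α β) w ∈ Yset k tok β := by
  obtain ⟨h1, ⟨π, hπ⟩, hc, ht⟩ := hw
  have hrr : ∀ i, rho (Dif α β) w.2 (chn (Dif α β) w.2 i) = w.2 i := by
    intro i
    rw [chn_apply, rho_apply, swP_swP]
  refine ⟨?_, ⟨(rho (Dif α β) w.2).trans π, ?_, ?_⟩, ⟨?_, ?_⟩, ?_⟩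
  · show (rho (Dif α β) w.2 ⁻¹' w.1.2).ncard ≠ 1
    have h2 := Set.ncard_image_of_injective (rho (Dif α β) w.2 ⁻¹' w.1.2)
      (rho (Dif α β) w.2).injective
    rw [Set.image_preimage_eq _ (rho (Dif α β) w.2).surjective] at h2
    rw [← h2]
    exact h1
  · intro x y hxy
    exact hπ.1 _ _ hxy
  · intro x hx
    exact hπ.2 _ hx
  · show rho (Dif α β) w.2 (chn (Dif α β) w.2 0) ∈ w.1.2
    rw [hrr]
    exact hc.1
  · intro i h
    show w.1.1.Adj (rho (Dif α β) w.2 (chn (Dif α β) w.2 _))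
      (rho (Dif α β) w.2 (chn (Dif α β) w.2 _))
    rw [hrr, hrr]
    exact hc.2 i h
  · show chn (Dif α β) w.2 '' {i | i.1 ∈ code β} = tok
    rw [← ht]
    ext y
    constructor
    · rintro ⟨i, hi, rfl⟩
      exact ⟨swP n (Dif α β) i, swN_code hi, rfl⟩
    · rintro ⟨i, hi, rfl⟩
      refine ⟨swP n (Dif α β) i, ?_, ?_⟩
      · have h2 : swN n (Dif β α) i.1 ∈ code β := swN_code hi
        rw [Dif_comm] at h2
        exact h2
      · rw [chn_apply, swP_swP]

theorem Yset_ncard (α β : Fin n → Bool) :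
    (Yset k tok α).ncard = (Yset k tok β).ncard := by
  have h1 : Yset k tok β = Psi (Dif α β) '' Yset k tok α := by
    ext w
    constructor
    · intro hw
      refine ⟨Psi (Dif β α) w, Psi_mem hw, ?_⟩
      rw [Dif_comm, Psi_Psi]
    · rintro ⟨w', hw', rfl⟩
      exact Psi_mem hw'
  rw [h1, Set.ncard_image_of_injective]
  exact (Function.Involutive.injective (Psi_Psi (Dif α β)))

theorem Zset_eq (α : Fin n → Bool) : Zset k tok α = Prod.fst '' Yset k tok α := by
  ext z
  constructor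
  · rintro ⟨h1, h2, x, h3, h4⟩
    exact ⟨(z, x), ⟨h1, h2, h3, h4⟩, rfl⟩
  · rintro ⟨w, ⟨h1, h2, h3, h4⟩, rfl⟩
    exact ⟨h1, h2, w.2, h3, h4⟩

theorem Zset_ncard (α β : Fin n → Bool) :
    (Zset k tok α).ncard = (Zset k tok β).ncard := by
  have h : ∀ α : Fin n → Bool, (Zset k tok α).ncard = (Yset k tok α).ncard := by
    intro α
    rw [Zset_eq]
    refine Set.InjOn.ncard_image ?_
    rintro w ⟨-, ⟨π, hπ⟩, h3, h4⟩ w' ⟨-, -, h3', h4'⟩ hww
    refine Prod.ext hww ?_
    rw [← hww] at h3'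
    exact (Zset_disj h3 h4 h3' h4' hπ).2
  rw [h, h, Yset_ncard]

theorem code_finite (α : Fin n → Bool) : (code α).Finite :=
  (Set.finite_Iic (2 * n)).subset fun _ h => code_le h

theorem code_ncard (α : Fin n → Bool) : (code α).ncard = n + 1 := by
  choose i hi hi2 using code_meets α
  have h1 : code α = Set.range i := by
    obtain ⟨β, hβ⟩ := exists_code i hi2
    have h2 : code β ⊆ code α := by
      rw [hβ]
      rintro _ ⟨e, rfl⟩
      exact hi e
    have h3 : α = β := by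
      funext v
      have h4 : 2 * v.1 + (β v).toNat ∈ code α := h2 (Or.inr ⟨v, rfl⟩)
      have hv := v.2
      have h5 := Bool.toNat_le (β v)
      rcases h4 with h4 | ⟨w, h4⟩
      · omega
      · have h6 := Bool.toNat_le (α w)
        have : v = w := Fin.ext (by omega)
        subst this
        have h7 : (α v).toNat = (β v).toNat := by omega
        revert h7
        cases α v <;> cases β v <;> simp
    rw [h3, hβ]
  rw [h1, ← Set.image_univ, Set.ncard_image_of_injective, Set.ncard_univ,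
    Nat.card_eq_fintype_card, Fintype.card_fin]
  intro e e' h
  have h3 := (hi2 e).1
  have h4 := (hi2 e').1
  exact Fin.ext (by rw [← h3, ← h4, h])

theorem exists_equiv_of_ncard {α β : Type*} [Finite α] [Finite β] {s : Set α} {t : Set β}
    (h : Nat.card α = Nat.card β) (hst : s.ncard = t.ncard) :
    ∃ e : α ≃ β, ∀ x, x ∈ s ↔ e x ∈ t := by
  have h1 : Nat.card s = Nat.card t := hst
  have h2 : Nat.card (sᶜ : Set α) = Nat.card (tᶜ : Set β) := by
    have h3 := Set.ncard_add_ncard_compl s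
    have h4 := Set.ncard_add_ncard_compl t
    show sᶜ.ncard = tᶜ.ncard
    omega
  obtain ⟨e1⟩ : Nonempty (s ≃ t) := ⟨Finite.equivFinOfCardEq h1 |>.trans
    (Finite.equivFinOfCardEq rfl).symm⟩
  obtain ⟨e2⟩ : Nonempty ((sᶜ : Set α) ≃ (tᶜ : Set β)) := ⟨Finite.equivFinOfCardEq h2 |>.trans
    (Finite.equivFinOfCardEq rfl).symm⟩
  refine ⟨(Equiv.Set.sumCompl s).symm.trans ((Equiv.sumCongr e1 e2).trans
    (Equiv.Set.sumCompl t)), fun x => ?_⟩
  by_cases hx : x ∈ s
  · simp only [hx, true_iff, Equiv.trans_apply, Equiv.Set.sumCompl_symm_apply_of_mem hx,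
      Equiv.sumCongr_apply, Sum.map_inl, Equiv.Set.sumCompl_apply_inl]
    exact (e1 ⟨x, hx⟩).2
  · simp only [hx, false_iff, Equiv.trans_apply, Equiv.Set.sumCompl_symm_apply_of_notMem hx,
      Equiv.sumCongr_apply, Sum.map_inr, Equiv.Set.sumCompl_apply_inr]
    exact (e2 ⟨x, hx⟩).2

theorem Zset_nonempty [Finite R] (hk : 0 < k)
    (hR : Nat.card R = Nat.card (Leg n k × Fin (2 * n + 4)))
    (htok : tok.ncard = n + 1) (α : Fin n → Bool) : (Zset k tok α).Nonempty := by
  let j0 : Leg n k := Sum.inl (0, 0)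
  let j1 : Leg n k := Sum.inr ⟨0, hk⟩
  let t : Set (Leg n k × Fin (2 * n + 4)) := {p | p.1 = j0 ∧ p.2.1 ∈ code α}
  have ht : tok.ncard = t.ncard := by
    rw [htok, ← code_ncard α]
    refine Set.ncard_congr (fun i hi => (j0, ⟨i, by have := code_le hi; omega⟩)) ?_ ?_ ?_
    · intro i hi
      exact ⟨rfl, hi⟩
    · intro a b ha hb hab
      simpa using hab
    · rintro ⟨j, i⟩ ⟨h1, h2⟩
      refine ⟨i.1, h2, ?_⟩
      have h1' : j = j0 := h1
      rw [h1']
  obtain ⟨π, hπ⟩ := exists_equiv_of_ncard hR ht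
  let x : Fin (2 * n + 1) ↪ R := ⟨fun i => π.symm (j0, ⟨i.1, by have := i.2; omega⟩), by
      intro a b h
      have h2 := π.symm.injective h
      simp only [Prod.mk.injEq, Fin.mk.injEq, true_and] at h2
      exact Fin.ext h2⟩
  have hxd : ∀ i : Fin (2 * n + 1), x i = π.symm (j0, ⟨i.1, by have := i.2; omega⟩) :=
      fun _ => rfl
  refine ⟨((adjP _ _).comap π, π ⁻¹' headP _ _), ?_, ⟨π, fun x y h => h, fun x h => h⟩,
    x, ⟨?_, ?_⟩, ?_⟩
  · intro h
    obtain ⟨a, ha⟩ := Set.ncard_eq_one.1 h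
    have h0 : π.symm (j0, ⟨0, by omega⟩) ∈ π ⁻¹' headP (Leg n k) (2 * n + 4) := by
      show π (π.symm (j0, ⟨0, by omega⟩)) ∈ headP _ _
      rw [Equiv.apply_symm_apply]
      rfl
    have h1 : π.symm (j1, ⟨0, by omega⟩) ∈ π ⁻¹' headP (Leg n k) (2 * n + 4) := by
      show π (π.symm (j1, ⟨0, by omega⟩)) ∈ headP _ _
      rw [Equiv.apply_symm_apply]
      rfl
    have ha' : π ⁻¹' headP (Leg n k) (2 * n + 4) = {a} := ha
    rw [ha'] at h0 h1
    have h2 : π.symm (j0, ⟨0, by omega⟩) = π.symm (j1, ⟨0, by omega⟩) := h0.trans h1.symm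
    have h3 := congrArg Prod.fst (π.symm.injective h2)
    exact absurd h3 (by simp [j0, j1])
  · show π (x 0) ∈ headP _ _
    rw [hxd, Equiv.apply_symm_apply]
    rfl
  · intro i h
    show (adjP _ _).Adj (π (x _)) (π (x _))
    rw [hxd, hxd, Equiv.apply_symm_apply, Equiv.apply_symm_apply]
    exact ⟨rfl, Or.inl rfl⟩
  · ext y
    rw [hπ]
    constructor
    · rintro ⟨i, hi, rfl⟩
      rw [hxd, Equiv.apply_symm_apply]
      exact ⟨rfl, hi⟩
    · rintro ⟨h1, h2⟩
      refine ⟨⟨(π y).2.1, by have := code_le h2; omega⟩, h2, ?_⟩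
      rw [hxd, Equiv.symm_apply_eq]
      exact (Prod.ext h1 rfl : π y = (j0, (π y).2)).symm

/-- The number of structures which can be realised is the number of all structures minus a
constant times the number of satisfying assignments. -/
theorem spider_count [Finite R] (hk : 0 < k)
    (hR : Nat.card R = Nat.card (Leg n k × Fin (2 * n + 4))) (htok : tok.ncard = n + 1) :
    ∃ E, 0 < E ∧ ∀ K : Fin k → Set ℕ,
      (LabSet (adjP (Leg n k) (2 * n + 4)) (headP _ _) Set.univ tok).ncard =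
      (LabSet (adjP _ _) (headP _ _) (boxS n k K) tok).ncard + E * (SatK n K).ncard := by
  refine ⟨(Zset k tok (fun _ : Fin n => false)).ncard, ?_, fun K => ?_⟩
  · exact (Set.ncard_pos).2 (Zset_nonempty hk hR htok _)
  · set A := LabSet (adjP (Leg n k) (2 * n + 4)) (headP _ _) Set.univ tok with hA
    set L := LabSet (adjP (Leg n k) (2 * n + 4)) (headP _ _) (boxS n k K) tok with hL
    have hLA : L ⊆ A := by
      intro z hz
      rw [hL, mem_LabSet] at hz
      rw [hA, mem_LabSet]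
      obtain ⟨h1, π, h2, -⟩ := hz
      exact ⟨h1, π, h2, fun _ _ => Set.mem_univ _⟩
    have hdiff : A \ L = ⋃ α ∈ SatK n K, Zset k tok α := by
      ext z
      simp only [Set.mem_diff, Set.mem_iUnion, exists_prop]
      constructor
      · rintro ⟨h1, h2⟩
        rw [hA, mem_LabSet] at h1
        obtain ⟨h1, π, hπ, -⟩ := h1
        refine bad_sub htok h1 hπ fun π' hπ' => ?_
        by_contra hcon
        push Not at hcon
        exact h2 (mem_LabSet.2 ⟨h1, π', hπ', hcon⟩)
      · rintro ⟨α, hα, hz⟩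
        refine ⟨?_, sub_bad hα hz⟩
        obtain ⟨h1, ⟨π, hπ⟩, -⟩ := hz
        rw [hA, mem_LabSet]
        exact ⟨h1, π, hπ, fun _ _ => Set.mem_univ _⟩
    have h1 : (A \ L).ncard + L.ncard = A.ncard := Set.ncard_diff_add_ncard_of_subset hLA
    have h2 : (A \ L).ncard = (Zset k tok (fun _ : Fin n => false)).ncard * (SatK n K).ncard := by
      have h3 : (A \ L) = (((SatK n K).toFinite.toFinset.biUnion fun α =>
          (Zset k tok α).toFinite.toFinset : Finset (SimpleGraph R × Set R)) :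
            Set (SimpleGraph R × Set R)) := by
        rw [hdiff]
        ext z
        simp
      rw [h3, Set.ncard_coe_finset, Finset.card_biUnion]
      · rw [Finset.sum_congr rfl fun α _ => (by
          rw [← Set.ncard_eq_toFinset_card, Zset_ncard α (fun _ => false)] :
            (Zset k tok α).toFinite.toFinset.card =
              (Zset k tok (fun _ : Fin n => false)).ncard)]
        rw [Finset.sum_const, smul_eq_mul, ← Set.ncard_eq_toFinset_card, mul_comm]
      · intro α _ β _ hαβ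
        rw [Function.onFun, Finset.disjoint_left]
        intro z hz hz'
        rw [Set.Finite.mem_toFinset] at hz hz'
        obtain ⟨-, ⟨π, hπ⟩, x, hx, hx2⟩ := hz
        obtain ⟨-, -, y, hy, hy2⟩ := hz'
        exact hαβ (Zset_disj hx hx2 hy hy2 hπ).1
    omega

end Pool.Agent.Forest17
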