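import Pool.Agent.Lib.MP_17af9c_lc.Trans
import Pool.Agent.Lib.MP_17af9c_lc.Statement
import Pool.Agent.Lib.PolyTime.Matching

/-!
# The explicit bit strings of trees can be encoded and decoded in polynomial time
-/

set_option linter.unusedSimpArgs false

namespace Pool.Agent.Lib.SubForests

open Turing Function Pool.Agent.Lib.PolyTime
open Pool.Agent.Lib.CountingForests (natWord)

/-- The self-delimiting word of a bit string. -/
def bitWord (l : List Bool) : List Bool := (l.flatMap fun b => [true, b]) ++ [false]

/-- The binary digits. -/
def nbits (n : NBin) : List Bool := Nat.bits n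

/-- One step of the scanner. -/
def scanStep (s : (Bool × List Bool) × List (List Bool)) (b : Bool) :
    (Bool × List Bool) × List (List Bool) :=
  bif s.1.1 then ((false, b :: s.1.2), s.2)
  else bif b then ((true, s.1.2), s.2)
  else ((false, []), s.1.2.reverse :: s.2)

/-- The scanner. -/
def scan (w : List Bool) : List (List Bool) :=
  (w.foldl scanStep ((false, []), [])).2.reverse

theorem foldl_bitWord (l c : List Bool) (d : List (List Bool)) :
    (bitWord l).foldl scanStep ((false, c), d) = ((false, []), (c.reverse ++ l) :: d) := by
  induction l generalizing c with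
  | nil =>
    show ((false, []), c.reverse :: d) = _
    rw [List.append_nil]
  | cons b l ih =>
    have h : bitWord (b :: l) = true :: b :: bitWord l := by
      simp [bitWord]
    rw [h, List.foldl_cons, List.foldl_cons]
    show (bitWord l).foldl scanStep ((false, b :: c), d) = _
    rw [ih]
    simp

theorem foldl_bitWords (L d : List (List Bool)) :
    (L.flatMap bitWord).foldl scanStep ((false, []), d) = ((false, []), L.reverse ++ d) := by
  induction L generalizing d with
  | nil => rfl
  | cons l L ih =>
    rw [List.flatMap_cons, List.foldl_append, foldl_bitWord, ih]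
    simp

theorem scan_bitWords (L : List (List Bool)) : scan (L.flatMap bitWord) = L := by
  rw [scan, foldl_bitWords]
  simp

/-- The decoder. -/
def decW (w : List Bool) : T :=
  T.node
    (enc ((scan w).tail.take (min (bval ((scan w).headD [])) (scan w).length)))
    (enc ((List.range (((scan w).tail.length -
        min (bval ((scan w).headD [])) (scan w).length) / 2)).map fun i =>
      ((scan w).tail.getD (min (bval ((scan w).headD [])) (scan w).length + 2 * i) [],
        (scan w).tail.getD (min (bval ((scan w).headD [])) (scan w).length + 2 * i + 1) [])))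

section

variable {α : Type*} [TEnc α]

theorem polyF_scan {w : α → List Bool} (hw : PolyF w) : PolyF (fun x => scan (w x)) := by
  refine PolyF.reverse (PolyF.snd (PolyF.foldl_add (γ := (Bool × List Bool) × List (List Bool))
    (i := fun _ => ((false, []), [])) (f := fun _ s b => scanStep s b) hw (PolyF.const _) ?_
    (fun _ => 5) (PBd.const 5) ?_))
  · have hs : PolyF (fun p : α × ((Bool × List Bool) × List (List Bool)) × Bool => p.2.1) :=
      PolyF.snd'.fst
    have hb : PolyF (fun p : α × ((Bool × List Bool) × List (List Bool)) × Bool => p.2.2) :=
      PolyF.snd'.snd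
    exact hs.fst.fst.cond (((PolyF.const false).pair (hb.cons hs.fst.snd)).pair hs.snd)
      (hb.cond (((PolyF.const true).pair hs.fst.snd).pair hs.snd)
        ((PolyF.const ((false, []) : Bool × List Bool)).pair (hs.fst.snd.reverse.cons hs.snd)))
  · rintro x ⟨⟨p, c⟩, d⟩ b _
    have h1 := sz_bool_le b
    have h2 := sz_bool_le p
    have h3 := sz_bool_le true
    have h4 := sz_bool_le false
    cases p
    · cases b
      · show sz ((((false, []), c.reverse :: d) : (Bool × List Bool) × List (List Bool))) ≤ _
        simp only [sz_prod, sz_cons, sz_nil, sz_reverse]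
        omega
      · show sz ((((true, c), d) : (Bool × List Bool) × List (List Bool))) ≤ _
        simp only [sz_prod]
        omega
    · show sz ((((false, b :: c), d) : (Bool × List Bool) × List (List Bool))) ≤ _
      simp only [sz_prod, sz_cons]
      omega

theorem polyF_decW : PolyF decW := by
  have hs : PolyF (fun w : List Bool => scan w) := polyF_scan PolyF.id
  have hk : PolyF (fun w : List Bool => min (bval ((scan w).headD [])) (scan w).length) :=
    ((hs.headD (PolyF.const _)).ofBits.natOfBin hs.length)
  refine (hk.take hs.tail).enc_fun.node (PolyF.enc_fun ?_)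
  refine PolyF.map (h := fun (w : List Bool) (i : ℕ) =>
      ((scan w).tail.getD (min (bval ((scan w).headD [])) (scan w).length + 2 * i) [],
        (scan w).tail.getD (min (bval ((scan w).headD [])) (scan w).length + 2 * i + 1) []))
    ((hs.tail.length.natSub hk).natDiv (PolyF.const 2)).range ?_
  have hi : PolyF (fun p : List Bool × ℕ =>
      min (bval ((scan p.1).headD [])) (scan p.1).length + 2 * p.2) :=
    (hk.comp PolyF.fst').natAdd ((PolyF.const 2).natMul PolyF.snd')
  exact (hi.listGetD (hs.tail.comp PolyF.fst') (PolyF.const _)).pair
    (hi.succ.listGetD (hs.tail.comp PolyF.fst') (PolyF.const _))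

theorem polyF_bitWord {l : α → List Bool} (hl : PolyF l) : PolyF (fun x => bitWord (l x)) :=
  (hl.flatMap (h := fun _ b => [true, b]) ((PolyF.const true).cons
    PolyF.snd'.singleton)).append (PolyF.const [false])

theorem polyF_nbits {f : α → NBin} (hf : PolyF f) : PolyF (fun x => nbits (f x)) :=
  hf.of_enc (fun x => x) (fun _ => rfl) (fun _ => rfl)

end

/-- The words of two lists. -/
def codeWord (t : Code) : List Bool :=
  bitWord (Nat.bits t.1.length) ++ t.1.flatMap (fun n => bitWord (nbits n)) ++
    t.2.flatMap fun e => bitWord (nbits e.1) ++ bitWord (nbits e.2)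

theorem codeWord_eq (t : Code) : codeWord t =
    (Nat.bits t.1.length :: (t.1.map nbits ++
      t.2.flatMap fun e => [nbits e.1, nbits e.2])).flatMap bitWord := by
  rw [List.flatMap_cons, List.flatMap_append, codeWord, List.append_assoc]
  congr 2
  · rw [List.flatMap_map]
  · rw [List.flatMap_assoc]
    refine List.flatMap_congr fun e _ => ?_
    simp

theorem range_pairs (E : List (NBin × NBin)) :
    ((List.range E.length).map fun i =>
      ((E.flatMap fun e => [nbits e.1, nbits e.2]).getD (2 * i) [],
        (E.flatMap fun e => [nbits e.1, nbits e.2]).getD (2 * i + 1) [])) =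
      E.map fun e => (nbits e.1, nbits e.2) := by
  induction E with
  | nil => rfl
  | cons e E ih =>
    rw [List.length_cons, List.range_succ_eq_map, List.map_cons, List.map_map, List.map_cons]
    refine congrArg₂ _ (by simp) ?_
    rw [← ih]
    refine List.map_congr_left fun i _ => ?_
    simp only [Function.comp_apply, List.flatMap_cons, List.cons_append, List.nil_append]
    have e1 : 2 * i.succ = 2 * i + 1 + 1 := by omega
    rw [e1, List.getD_cons_succ, List.getD_cons_succ, List.getD_cons_succ, List.getD_cons_succ]

theorem enc_bits_list (l : List NBin) : enc (l.map nbits) = enc l := by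
  induction l with
  | nil => rfl
  | cons n l ih => exact congrArg (T.node (enc (nbits n))) ih

theorem enc_bits_pairs (l : List (NBin × NBin)) :
    enc (l.map fun e => (nbits e.1, nbits e.2)) = enc l := by
  induction l with
  | nil => rfl
  | cons n l ih => exact congrArg (T.node (enc (nbits n.1, nbits n.2))) ih

theorem decW_codeWord (t : Code) : decW (codeWord t) = enc t := by
  obtain ⟨V, E⟩ := t
  have hs : scan (codeWord (V, E)) = Nat.bits V.length :: (V.map nbits ++
      E.flatMap fun e => [nbits e.1, nbits e.2]) := by
    rw [codeWord_eq, scan_bitWords]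
  have hl : (E.flatMap fun e : NBin × NBin => [nbits e.1, nbits e.2]).length =
      2 * E.length := by
    induction E with
    | nil => rfl
    | cons e E ih => simp [List.flatMap_cons]; omega
  have hk : min (bval ((scan (codeWord (V, E))).headD [])) (scan (codeWord (V, E))).length =
      V.length := by
    rw [hs]
    simp only [List.headD_cons, bval_bits, List.length_cons, List.length_append, List.length_map]
    omega
  rw [decW, hk, hs]
  simp only [List.tail_cons, List.length_append, List.length_map, hl]
  have e1 : (V.length + 2 * E.length - V.length) / 2 = E.length := by omega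
  have e2 : (V.map nbits ++ E.flatMap fun e : NBin × NBin =>
      [nbits e.1, nbits e.2]).take V.length = V.map nbits := by
    rw [List.take_append_of_le_length (by simp), List.take_of_length_le (by simp)]
  have e3 : ∀ j, (V.map nbits ++ E.flatMap fun e : NBin × NBin =>
      [nbits e.1, nbits e.2]).getD (V.length + j) [] =
        (E.flatMap fun e : NBin × NBin => [nbits e.1, nbits e.2]).getD j [] := by
    intro j
    rw [List.getD_append_right _ _ _ _ (by simp)]
    simp
  rw [e1, e2]
  simp only [add_assoc, e3]
  rw [range_pairs, enc_bits_list, enc_bits_pairs]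
  rfl

theorem polyF_codeWord : PolyF (fun t : Tree => codeWord t.1) := by
  have hV : PolyF (fun t : Tree => t.1.1) := PolyF.id.val.fst
  have hE : PolyF (fun t : Tree => t.1.2) := PolyF.id.val.snd
  have hn : PolyF (fun t : Tree => nbits (t.1.1.length : ℕ)) :=
    polyF_nbits (f := fun t : Tree => (t.1.1.length : ℕ)) (PolyF.nbOfNat hV.length)
  have h1 : PolyF (fun t : Tree => bitWord (nbits (t.1.1.length : ℕ))) := polyF_bitWord hn
  have h2 : PolyF (fun t : Tree => t.1.1.flatMap fun n : NBin => bitWord (nbits n)) :=
    PolyF.flatMap (β := NBin) (γ := Bool) (h := fun (_ : Tree) n => bitWord (nbits n)) hV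
      (polyF_bitWord (polyF_nbits PolyF.snd'))
  have h3 : PolyF (fun t : Tree =>
      t.1.2.flatMap fun e : NBin × NBin => bitWord (nbits e.1) ++ bitWord (nbits e.2)) :=
    PolyF.flatMap (β := NBin × NBin) (γ := Bool)
      (h := fun (_ : Tree) e => bitWord (nbits e.1) ++ bitWord (nbits e.2)) hE
      ((polyF_bitWord (polyF_nbits PolyF.snd'.fst)).append
        (polyF_bitWord (polyF_nbits PolyF.snd'.snd)))
  exact (h1.append h2).append h3

theorem goodWord_codeWord : GoodWord (fun t : Tree => codeWord t.1) :=
  ⟨polyF_codeWord, decW, polyF_decW, fun t => decW_codeWord t.1⟩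

end Pool.Agent.Lib.SubForests
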