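import Pool.Agent.Lib.MP_17af9c_lc.Reduce
import Pool.Agent.Lib.MP_17af9c_lc.Member
import Pool.Agent.Lib.MP_17af9c_lc.Words
import Pool.Agent.Lib.CookLevin.Final

/-!
# Transfer to the definitions of the final statement
-/

namespace Pool.Agent.Lib.CountingForests

open Turing

/-- Renaming instances and values does not change machines. -/
theorem tm2_transfer {α β α' β' Γ Γ' : Type} {ea : α → List Γ} {eb : β → List Γ'} {f : α → β}
    {ea' : α' → List Γ} {eb' : β' → List Γ'} {f' : α' → β'} (i : α' → α)
    (h1 : ∀ a, ea' a = ea (i a)) (h2 : ∀ a, eb' (f' a) = eb (f (i a)))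
    (h : Nonempty (TM2ComputableInPolyTime ea eb f)) :
    Nonempty (TM2ComputableInPolyTime ea' eb' f') := by
  obtain ⟨M⟩ := h
  exact ⟨{ toTM2ComputableAux := M.toTM2ComputableAux
           time := M.time
           outputsFun := fun a => by
             rw [h1, h2]
             exact M.outputsFun (i a) }⟩

/-- Trees in the two formats. -/
def toInput (t : SubForests.Tree) : InputTree :=
  ⟨t.1, ⟨t.2.vertices, t.2.ends, t.2.loopless, t.2.edges, t.2.tree⟩⟩

/-- Trees in the two formats. -/
def ofInput (t : InputTree) : SubForests.Tree :=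
  ⟨t.1, ⟨t.2.vertices, t.2.ends, t.2.loopless, t.2.edges, t.2.tree⟩⟩

theorem treeWord_toInput (t : SubForests.Tree) :
    treeWord (toInput t) = SubForests.codeWord t.1 := rfl

theorem treeWord_ofInput (t : InputTree) :
    treeWord t = SubForests.codeWord (ofInput t).1 := rfl

theorem numSubforests_toInput (t : SubForests.Tree) :
    numSubforests (toInput t) = SubForests.numSubforests t := rfl

theorem sharpP_iff (f : List Bool → ℕ) : SharpP f ↔ CookLevin.SharpP f := Iff.rfl

theorem sharpPComplete : SharpPComplete treeWord numSubforests := by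
  constructor
  · intro f hf
    obtain ⟨g, hg, hwf, hc⟩ := CookLevin.cook_levin ((sharpP_iff f).1 hf)
    obtain ⟨q, h, h1, h2, h3⟩ :=
      SubForests.ttRed_of_count hg hwf hc SubForests.goodWord_codeWord
    refine ⟨fun x => (q x).map toInput, h, ?_, h2, fun x => ?_⟩
    · refine tm2_transfer id (fun _ => rfl) (fun x => ?_) h1
      show tupleWord (((q x).map toInput).map treeWord) =
        SubForests.tupleWord ((q x).map fun t => SubForests.codeWord t.1)
      rw [List.map_map]
      rfl
    · rw [List.map_map]
      exact h3 x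
  · obtain ⟨g, hg, q, h, h1, h2, h3⟩ :=
      MP17af9c.numSubforests_le_sharpP SubForests.goodWord_codeWord
    refine ⟨g, (sharpP_iff g).2 hg, fun t => q (ofInput t), fun p => h (ofInput p.1, p.2), ?_, ?_,
      fun t => ?_⟩
    · exact tm2_transfer ofInput treeWord_ofInput (fun _ => rfl) h1
    · exact tm2_transfer (fun p : InputTree × List ℕ => (ofInput p.1, p.2)) (fun _ => rfl)
        (fun _ => rfl) h2
    · exact h3 (ofInput t)

end Pool.Agent.Lib.CountingForests
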